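import Pool.Agent.H420.DW.Def

set_option autoImplicit false

open Filter Topology

/-!
# Elementary asymptotics of the weight function
-/

namespace Pool.Agent.H420.DW

/-- `X_i = log (i + 2) / c` -/
noncomputable def XX (c : ℝ) (i : ℕ) : ℝ := Real.log (i + 2) / c

lemma log_pos' (i : ℕ) : 0 < Real.log ((i : ℝ) + 2) := Real.log_pos (by
  have : (0 : ℝ) ≤ i := Nat.cast_nonneg i
  linarith)

lemma XX_pos {c : ℝ} (hc : 0 < c) (i : ℕ) : 0 < XX c i := div_pos (log_pos' i) hc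

lemma XX_mono {c : ℝ} (hc : 0 < c) {i j : ℕ} (h : i ≤ j) : XX c i ≤ XX c j := by
  unfold XX
  refine div_le_div_of_nonneg_right (Real.log_le_log ?_ ?_) hc.le
  · positivity
  · have : (i : ℝ) ≤ j := Nat.cast_le.2 h
    linarith

lemma log_tendsto : Tendsto (fun i : ℕ => Real.log ((i : ℝ) + 2)) atTop atTop :=
  Real.tendsto_log_atTop.comp (tendsto_atTop_add_const_right _ _ tendsto_natCast_atTop_atTop)

lemma XX_tendsto {c : ℝ} (hc : 0 < c) : Tendsto (XX c) atTop atTop :=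
  log_tendsto.atTop_div_const hc

lemma log_add_le (i j : ℕ) :
    Real.log (((i + j : ℕ) : ℝ) + 2) ≤ Real.log ((i : ℝ) + 2) + j / ((i : ℝ) + 2) := by
  have h0 : (0 : ℝ) < (i : ℝ) + 2 := by positivity
  have h1 : (((i + j : ℕ) : ℝ) + 2) = ((i : ℝ) + 2) * (1 + j / ((i : ℝ) + 2)) := by
    push_cast; field_simp; ring
  have h2 : (0 : ℝ) ≤ j / ((i : ℝ) + 2) := by positivity
  rw [h1, Real.log_mul h0.ne' (by positivity)]
  have h3 := Real.log_le_sub_one_of_pos (x := 1 + j / ((i : ℝ) + 2)) (by positivity)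
  linarith

lemma XX_add_le {c : ℝ} (hc : 0 < c) (i j : ℕ) :
    XX c (i + j) ≤ XX c i + j / (c * ((i : ℝ) + 2)) := by
  unfold XX
  have h1 := div_le_div_of_nonneg_right (log_add_le i j) hc.le
  refine h1.trans (le_of_eq ?_)
  have h0 : (0 : ℝ) < (i : ℝ) + 2 := by positivity
  field_simp

lemma weight_eq (c : ℝ) (hc : 0 < c) (i : ℕ) : weight c i = Real.exp (i / XX c i) := by
  unfold weight XX
  congr 1
  have := (log_pos' i).ne'
  field_simp

lemma log_le_log' (i j : ℕ) : Real.log ((i : ℝ) + 2) ≤ Real.log (((i + j : ℕ) : ℝ) + 2) := by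
  refine Real.log_le_log (by positivity) ?_
  push_cast
  have : (0 : ℝ) ≤ j := Nat.cast_nonneg j
  linarith

lemma weight_add_le {c : ℝ} (hc : 0 < c) (i j : ℕ) :
    weight c (i + j) ≤ weight c i * Real.exp (j / XX c i) := by
  rw [weight_eq c hc, weight_eq c hc, ← Real.exp_add, Real.exp_le_exp, ← add_div]
  have h1 : XX c i ≤ XX c (i + j) := XX_mono hc (Nat.le_add_right i j)
  have h2 : ((i + j : ℕ) : ℝ) = (i : ℝ) + j := by push_cast; ring
  rw [h2]
  exact div_le_div_of_nonneg_left (by positivity) (XX_pos hc i) h1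

/-- the increment of `i / log (i + 2)` -/
lemma incr_ge (i j : ℕ) :
    (j : ℝ) / Real.log (((i + j : ℕ) : ℝ) + 2) * (1 - 1 / Real.log ((i : ℝ) + 2))
      ≤ ((i + j : ℕ) : ℝ) / Real.log (((i + j : ℕ) : ℝ) + 2) - i / Real.log ((i : ℝ) + 2) := by
  set a := Real.log ((i : ℝ) + 2) with ha
  set b := Real.log (((i + j : ℕ) : ℝ) + 2) with hb
  have ha0 : 0 < a := log_pos' i
  have hb0 : 0 < b := log_pos' (i + j)
  have h1 : b ≤ a + j / ((i : ℝ) + 2) := log_add_le i j
  have h2 : (i : ℝ) * (b - a) ≤ j := by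
    have h3 : (i : ℝ) * (b - a) ≤ i * (j / ((i : ℝ) + 2)) :=
      mul_le_mul_of_nonneg_left (by linarith) (Nat.cast_nonneg i)
    have h4 : (i : ℝ) * (j / ((i : ℝ) + 2)) = j * (i / ((i : ℝ) + 2)) := by ring
    have h5 : (i : ℝ) / ((i : ℝ) + 2) ≤ 1 := by
      rw [div_le_one (by positivity)]; linarith
    have h6 : (j : ℝ) * (i / ((i : ℝ) + 2)) ≤ j := mul_le_of_le_one_right (Nat.cast_nonneg j) h5
    linarith
  have h3 : ((i + j : ℕ) : ℝ) / b - i / a - (j : ℝ) / b * (1 - 1 / a)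
      = (j - i * (b - a)) / (a * b) := by
    push_cast
    field_simp
    ring
  have h4 : 0 ≤ (j - i * (b - a)) / (a * b) := div_nonneg (by linarith) (mul_pos ha0 hb0).le
  linarith

lemma weight_mono {c : ℝ} (hc : 0 < c) : Monotone (weight c) := by
  refine monotone_nat_of_le_succ fun i => ?_
  unfold weight
  rw [Real.exp_le_exp]
  rcases Nat.eq_zero_or_pos i with h0 | h0
  · subst h0
    simp only [Nat.cast_zero, mul_zero, zero_div]
    exact div_nonneg (by positivity) (log_pos' _).le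
  · have h1 := incr_ge i 1
    have h2 : 1 ≤ Real.log ((i : ℝ) + 2) := by
      rw [Real.le_log_iff_exp_le (by positivity)]
      have h3 : (1 : ℝ) ≤ i := by exact_mod_cast h0
      have := Real.exp_one_lt_d9
      linarith
    have h3 : 0 ≤ 1 - 1 / Real.log ((i : ℝ) + 2) := by
      rw [sub_nonneg, div_le_one (by linarith)]; exact h2
    have h4 : (0 : ℝ) ≤ (((1 : ℕ) : ℝ)) / Real.log (((i + 1 : ℕ) : ℝ) + 2) *
        (1 - 1 / Real.log ((i : ℝ) + 2)) :=
      mul_nonneg (div_nonneg (by simp) (log_pos' _).le) h3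
    have h5 : (i : ℝ) / Real.log ((i : ℝ) + 2)
        ≤ ((i + 1 : ℕ) : ℝ) / Real.log (((i + 1 : ℕ) : ℝ) + 2) := by linarith
    have h6 := mul_le_mul_of_nonneg_left h5 hc.le
    rwa [← mul_div_assoc, ← mul_div_assoc] at h6

lemma log_div_tendsto : Tendsto (fun i : ℕ => Real.log ((i : ℝ) + 2) / ((i : ℝ) + 2)) atTop
    (𝓝 0) := by
  have h1 : Tendsto (fun x : ℝ => Real.log x / x) atTop (𝓝 0) :=
    Real.isLittleO_log_id_atTop.tendsto_div_nhds_zero
  exact h1.comp (tendsto_atTop_add_const_right _ _ tendsto_natCast_atTop_atTop)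

lemma weight_add_ge {c : ℝ} (hc : 0 < c) {ε : ℝ} (hε : 0 < ε) {A : ℝ} (hA : 0 ≤ A) :
    ∀ᶠ i : ℕ in atTop, ∀ j : ℕ, (j : ℝ) ≤ A * XX c i →
      weight c i * Real.exp ((1 - ε) * j / XX c i) ≤ weight c (i + j) := by
  have h1 : ∀ᶠ i : ℕ in atTop, Real.log ((i : ℝ) + 2) / ((i : ℝ) + 2) ≤ ε * c / (2 * (A + 1)) :=
    (log_div_tendsto.eventually_lt_const (by positivity)).mono fun i hi => hi.le
  have h2 : ∀ᶠ i : ℕ in atTop, 2 / ε ≤ Real.log ((i : ℝ) + 2) := log_tendsto.eventually_ge_atTop _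
  have h2' : ∀ᶠ i : ℕ in atTop, 1 ≤ Real.log ((i : ℝ) + 2) := log_tendsto.eventually_ge_atTop _
  filter_upwards [h1, h2, h2'] with i hi1 hi2 hi3 j hj
  rw [weight_eq c hc, weight_eq c hc, ← Real.exp_add, Real.exp_le_exp]
  set a := Real.log ((i : ℝ) + 2) with ha
  set b := Real.log (((i + j : ℕ) : ℝ) + 2) with hb
  have ha0 : 0 < a := log_pos' i
  have hb0 : 0 < b := log_pos' (i + j)
  have e1 : (i : ℝ) / XX c i = c * (i / a) := by rw [XX, ← ha]; field_simp
  have e2 : (1 - ε) * j / XX c i = c * ((1 - ε) * j / a) := by rw [XX, ← ha]; field_simp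
  have e3 : ((i + j : ℕ) : ℝ) / XX c (i + j) = c * (((i + j : ℕ) : ℝ) / b) := by
    rw [XX, ← hb]; field_simp
  rw [e1, e2, e3, ← mul_add]
  refine mul_le_mul_of_nonneg_left ?_ hc.le
  have h3 := incr_ge i j
  rw [← ha, ← hb] at h3
  have h4 : b ≤ a + j / ((i : ℝ) + 2) := log_add_le i j
  have hi0 : (0 : ℝ) < (i : ℝ) + 2 := by positivity
  -- j / (i+2) ≤ ε a' ...
  have h5 : (j : ℝ) / ((i : ℝ) + 2) ≤ ε / 2 := by
    have h6 : (j : ℝ) ≤ A * (a / c) := hj
    calc (j : ℝ) / ((i : ℝ) + 2) ≤ A * (a / c) / ((i : ℝ) + 2) :=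
          div_le_div_of_nonneg_right h6 hi0.le
      _ = A / c * (a / ((i : ℝ) + 2)) := by field_simp
      _ ≤ A / c * (ε * c / (2 * (A + 1))) := mul_le_mul_of_nonneg_left hi1 (by positivity)
      _ = ε / 2 * (A / (A + 1)) := by field_simp
      _ ≤ ε / 2 * 1 := by
          refine mul_le_mul_of_nonneg_left ?_ (by positivity)
          rw [div_le_one (by positivity)]; linarith
      _ = ε / 2 := by ring
  have h6 : (1 - ε) * b ≤ a - 1 := by
    have h7 : 1 ≤ ε * a / 2 := by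
      have := mul_le_mul_of_nonneg_left hi2 hε.le
      rw [mul_div_cancel₀ _ hε.ne'] at this
      linarith
    rcases le_total ε 1 with h8 | h8
    · have h9 : (1 - ε) * b ≤ (1 - ε) * (a + ε / 2) :=
        mul_le_mul_of_nonneg_left (by linarith) (by linarith)
      nlinarith
    · have h9 : (1 - ε) * b ≤ 0 := mul_nonpos_of_nonpos_of_nonneg (by linarith) hb0.le
      linarith
  have h7 : (1 - ε) * j / a ≤ (j : ℝ) / b * (1 - 1 / a) := by
    have e4 : (j : ℝ) / b * (1 - 1 / a) = j * (a - 1) / (a * b) := by field_simp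
    rw [e4, div_le_div_iff₀ ha0 (mul_pos ha0 hb0)]
    have h8 : (j : ℝ) * ((1 - ε) * b) ≤ j * (a - 1) :=
      mul_le_mul_of_nonneg_left h6 (Nat.cast_nonneg j)
    nlinarith
  linarith

end Pool.Agent.H420.DW
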