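import Pool.Agent.H420.DW.Fun

set_option autoImplicit false

open MeasureTheory intervalIntegral

/-!
# Lower bounds for `p`
-/

namespace Pool.Agent.H420.DW

lemma one_sub_exp_ge {b η : ℝ} (hb : 0 ≤ b) (hbη : b ≤ η) :
    (1 - η) * b ≤ 1 - Real.exp (-b) := by
  have h1 : b + 1 ≤ Real.exp b := Real.add_one_le_exp b
  have h2 : Real.exp (-b) * Real.exp b = 1 := by rw [← Real.exp_add]; simp
  have h3 : 0 < Real.exp (-b) := Real.exp_pos _
  have h4 : Real.exp (-b) * (b + 1) ≤ 1 := by nlinarith
  have h5 : Real.exp (-b) ≤ 1 / (b + 1) := by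
    rw [le_div_iff₀ (by linarith)]; exact h4
  have h6 : (1 : ℝ) / (b + 1) ≤ 1 - (1 - b) * b := by
    rw [div_le_iff₀ (by linarith)]
    nlinarith [mul_nonneg hb (mul_nonneg hb hb)]
  nlinarith

lemma pow_div_factorial_le_exp' {t : ℝ} (ht : 0 ≤ t) (n : ℕ) :
    t ^ n / (n.factorial : ℝ) ≤ Real.exp t := by
  have := Real.sum_le_exp_of_nonneg ht (n + 1)
  refine le_trans ?_ this
  exact Finset.single_le_sum (f := fun i => t ^ i / (i.factorial : ℝ))
    (fun i _ => by positivity) (Finset.mem_range.2 (Nat.lt_succ_self n))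

/-- a block of `L` levels -/
theorem block {f : ℕ → ℝ} (hf : ∀ k, 0 < f k) (hmono : Monotone f) {θ : ℝ} (hθ0 : 0 ≤ θ)
    (hθ1 : θ ≤ 1) {K j L : ℕ} {s t y η : ℝ} (hs : 0 ≤ s) (ht : 0 ≤ t) (hy : 0 ≤ y)
    (hη1 : η ≤ 1) (hyt : y * Real.exp t ≤ η) (hp : y ≤ p f θ K (j + L) s) :
    y * ((1 - η) ^ L * t ^ L / (L.factorial : ℝ)) ≤ p f θ K j (s + t / f j) := by
  have hη0 : 0 ≤ η := (mul_nonneg hy (Real.exp_pos _).le).trans hyt
  have key : ∀ l ≤ L, ∀ τ, 0 ≤ τ → τ ≤ t →
      y * ((1 - η) ^ l * τ ^ l / (l.factorial : ℝ)) ≤ p f θ K (j + L - l) (s + τ / f j) := by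
    intro l
    induction l with
    | zero =>
        intro _ τ hτ _
        simp only [pow_zero, Nat.factorial_zero, Nat.cast_one, mul_one, div_one, Nat.sub_zero]
        exact hp.trans (p_mono hf hθ0 hθ1 hs (le_add_of_nonneg_right (div_nonneg hτ (hf j).le)))
    | succ l ih =>
        intro hl τ hτ hτt
        set i := j + L - (l + 1) with hi
        have hi1 : i + 1 = j + L - l := by omega
        have hij : j ≤ i := by omega
        set b : ℝ := y * ((1 - η) ^ l * τ ^ (l + 1) / ((l + 1).factorial : ℝ)) with hb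
        have h1η : 0 ≤ 1 - η := by linarith
        have hb0 : 0 ≤ b := by positivity
        have hbη : b ≤ η := by
          have h1 : τ ^ (l + 1) / ((l + 1).factorial : ℝ) ≤ Real.exp t :=
            (pow_div_factorial_le_exp' hτ _).trans (Real.exp_le_exp.2 hτt)
          have h2 : (1 - η) ^ l ≤ 1 := pow_le_one₀ h1η (by linarith)
          have h3 : 0 ≤ τ ^ (l + 1) / ((l + 1).factorial : ℝ) := by positivity
          calc b = y * ((1 - η) ^ l * (τ ^ (l + 1) / ((l + 1).factorial : ℝ))) := by
                rw [hb]; ring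
            _ ≤ y * (1 * Real.exp t) := by
                refine mul_le_mul_of_nonneg_left ?_ hy
                exact mul_le_mul h2 h1 h3 zero_le_one
            _ ≤ η := by rw [one_mul]; exact hyt
        have hgoal : y * ((1 - η) ^ (l + 1) * τ ^ (l + 1) / ((l + 1).factorial : ℝ))
            = (1 - η) * b := by rw [hb]; ring
        rw [hgoal]
        rcases lt_or_ge i K with hiK | hiK
        · refine (one_sub_exp_ge hb0 hbη).trans ((?_ : _ ≤ 1 - h f θ K i (s + τ / f j)).trans
            (one_sub_h_le_p hθ1 _))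
          rw [h_eq_p hiK]
          have hs' : s ≤ s + τ / f j := le_add_of_nonneg_right (div_nonneg hτ (hf j).le)
          have hI : b ≤ f i * ∫ u in (0 : ℝ)..(s + τ / f j), p f θ K (i + 1) u := by
            rw [← intervalIntegral.integral_add_adjacent_intervals
              ((p_cont f θ K (i + 1)).intervalIntegrable 0 s)
              ((p_cont f θ K (i + 1)).intervalIntegrable s (s + τ / f j))]
            have h0 : 0 ≤ ∫ u in (0 : ℝ)..s, p f θ K (i + 1) u :=
              intervalIntegral.integral_nonneg hs fun u hu => p_nonneg hf hθ0 hθ1 hu.1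
            have h1 : (∫ u in s..(s + τ / f j),
                y * ((1 - η) ^ l * (f j * (u - s)) ^ l / (l.factorial : ℝ)))
                ≤ ∫ u in s..(s + τ / f j), p f θ K (i + 1) u := by
              refine intervalIntegral.integral_mono_on hs' ?_
                ((p_cont f θ K (i + 1)).intervalIntegrable _ _) fun u hu => ?_
              · exact Continuous.intervalIntegrable (by fun_prop) _ _
              · have h2 := ih (by omega) (f j * (u - s)) (mul_nonneg (hf j).le (by linarith [hu.1]))
                  (by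
                    have : u - s ≤ τ / f j := by linarith [hu.2]
                    calc f j * (u - s) ≤ f j * (τ / f j) :=
                          mul_le_mul_of_nonneg_left this (hf j).le
                      _ = τ := by field_simp [(hf j).ne']
                      _ ≤ t := hτt)
                have h3 : s + f j * (u - s) / f j = u := by
                  field_simp [(hf j).ne']; ring
                rw [h3, ← hi1] at h2
                exact h2
            have h2 : (∫ u in s..(s + τ / f j),
                y * ((1 - η) ^ l * (f j * (u - s)) ^ l / (l.factorial : ℝ))) = b / f j := by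
              have e1 : (fun u : ℝ => y * ((1 - η) ^ l * (f j * (u - s)) ^ l / (l.factorial : ℝ)))
                  = fun u => (y * ((1 - η) ^ l * f j ^ l / (l.factorial : ℝ))) * (u - s) ^ l := by
                funext u; rw [mul_pow]; ring
              rw [e1, intervalIntegral.integral_const_mul,
                intervalIntegral.integral_comp_sub_right (fun u => u ^ l) s, integral_pow, hb,
                Nat.factorial_succ]
              have : (f j) ≠ 0 := (hf j).ne'
              have h5 : ((l : ℝ) + 1) ≠ 0 := by positivity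
              have h6 : (l.factorial : ℝ) ≠ 0 := by positivity
              push_cast
              simp only [sub_self, add_sub_cancel_left]
              rw [div_pow, zero_pow (Nat.succ_ne_zero l), sub_zero]
              field_simp
              ring
            have h3 : b / f j ≤ ∫ u in s..(s + τ / f j), p f θ K (i + 1) u := h2 ▸ h1
            have h4 : f j ≤ f i := hmono hij
            calc b = f j * (b / f j) := by field_simp [(hf j).ne']
              _ ≤ f i * (b / f j) := mul_le_mul_of_nonneg_right h4 (div_nonneg hb0 (hf j).le)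
              _ ≤ _ := mul_le_mul_of_nonneg_left (by linarith) (hf i).le
          have := Real.exp_le_exp.2 (neg_le_neg hI)
          linarith
        · rw [p_ge hiK]
          nlinarith
  have := key L le_rfl t ht le_rfl
  rwa [Nat.add_sub_cancel] at this

/-- a chain of blocks -/
theorem chain {f : ℕ → ℝ} (hf : ∀ k, 0 < f k) (hmono : Monotone f) {θ : ℝ} (hθ0 : 0 ≤ θ)
    (hθ1 : θ ≤ 1) {K L i₀ : ℕ} (hL : 0 < L) {D : ℕ → ℝ} {t ρ η : ℝ} (ht : 0 ≤ t) (hρ : 0 ≤ ρ)
    (hη1 : η ≤ 1) (hρt : ρ * Real.exp t ≤ η) (hD0 : ∀ i, i₀ ≤ i → 0 ≤ D i)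
    (hD : ∀ i, i₀ ≤ i → D (i + L) + t / f i ≤ D i)
    (hA : 1 ≤ (1 - η) ^ L * t ^ L / (L.factorial : ℝ)) {i : ℕ} (hi : i₀ ≤ i) :
    ρ ≤ p f θ K i (D i) := by
  have hρ1 : ρ ≤ 1 := by
    have h1 : (1 : ℝ) ≤ Real.exp t := Real.one_le_exp ht
    nlinarith
  obtain ⟨n, hn⟩ : ∃ n, K - i = n := ⟨_, rfl⟩
  induction n using Nat.strong_induction_on generalizing i with
  | _ n ih =>
      rcases lt_or_ge i K with hiK | hiK
      · have h1 : ρ ≤ p f θ K (i + L) (D (i + L)) := ih (K - (i + L)) (by omega) (by omega) rfl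
        have h2 := block hf hmono hθ0 hθ1 (hD0 _ (by omega)) ht hρ hη1 hρt h1
        refine le_trans (le_trans ?_ h2) (p_mono hf hθ0 hθ1
          (add_nonneg (hD0 _ (by omega)) (div_nonneg ht (hf i).le)) (hD i hi))
        nlinarith
      · rw [p_ge hiK]; exact hρ1

/-- quick single steps -/
theorem early {f : ℕ → ℝ} (hf : ∀ k, 0 < f k) (hmono : Monotone f) {θ : ℝ} (hθ0 : 0 ≤ θ)
    (hθ1 : θ ≤ 1) {K i j : ℕ} {s t y η : ℝ} (hs : 0 ≤ s) (ht : 0 ≤ t) (ht1 : t ≤ 1) (hy : 0 ≤ y)
    (hη1 : η ≤ 1) (hyt : y * Real.exp t ≤ η) (hp : y ≤ p f θ K (i + j) s) :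
    y * ((1 - η) * t) ^ j ≤ p f θ K i (s + j * (t / f i)) := by
  have hη0 : 0 ≤ η := (mul_nonneg hy (Real.exp_pos _).le).trans hyt
  induction j generalizing s y with
  | zero => simpa using hp
  | succ j ih =>
      have h1 : y ≤ p f θ K ((i + j) + 1) s := by rwa [add_assoc]
      have h2 := block hf hmono hθ0 hθ1 hs ht hy hη1 hyt h1
      have h3 : y * ((1 - η) * t) ≤ p f θ K (i + j) (s + t / f i) := by
        refine le_trans (le_trans (le_of_eq ?_) h2) (p_mono hf hθ0 hθ1
          (add_nonneg hs (div_nonneg ht (hf _).le)) ?_)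
        · simp
        · exact add_le_add le_rfl (div_le_div_of_nonneg_left ht (hf i) (hmono (by omega)))
      have h0 : 0 ≤ (1 - η) * t := mul_nonneg (by linarith) ht
      have h01 : (1 - η) * t ≤ 1 := by nlinarith
      have h4 := ih (s := s + t / f i) (y := y * ((1 - η) * t))
        (add_nonneg hs (div_nonneg ht (hf _).le)) (mul_nonneg hy h0)
        (le_trans (mul_le_mul_of_nonneg_right (mul_le_of_le_one_right hy h01)
          (Real.exp_pos t).le) hyt) h3
      have e1 : s + ((j + 1 : ℕ) : ℝ) * (t / f i) = s + t / f i + j * (t / f i) := by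
        push_cast; ring
      rw [e1, pow_succ, mul_comm (((1 - η) * t) ^ j), ← mul_assoc]
      exact h4

/-- growth over many blocks -/
theorem growth {f : ℕ → ℝ} (hf : ∀ k, 0 < f k) (hmono : Monotone f) {θ : ℝ} (hθ0 : 0 ≤ θ)
    (hθ1 : θ ≤ 1) {K i L R : ℕ} {Δ T ρ δ η : ℝ} (hΔ : 0 ≤ Δ) (hρ : 0 ≤ ρ) (hδ : 0 ≤ δ)
    (hη1 : η ≤ 1) (hρT : ρ * Real.exp T ≤ η) {a : ℕ → ℝ}
    (hT : ∀ r < R, f (i + r * L) * Δ ≤ T)
    (ha1 : ∀ r < R, 1 ≤ a r)
    (ha : ∀ r < R, a r ≤ (1 - η) ^ L * (f (i + r * L) * Δ) ^ L / (L.factorial : ℝ))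
    (hδp : δ ≤ p f θ K (i + R * L) 0) :
    min ρ (δ * ∏ r ∈ Finset.range R, a r) ≤ p f θ K i (R * Δ) := by
  have key : ∀ n ≤ R, min ρ (δ * ∏ r ∈ Finset.Ico (R - n) R, a r)
      ≤ p f θ K (i + (R - n) * L) (n * Δ) := by
    intro n
    induction n with
    | zero =>
        intro _
        simp only [Nat.sub_zero, Finset.Ico_self, Finset.prod_empty, mul_one, Nat.cast_zero,
          zero_mul]
        exact (min_le_right _ _).trans hδp
    | succ n ih =>
        intro hn
        have h0 := ih (by omega)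
        set r := R - (n + 1) with hr
        have hr1 : R - n = r + 1 := by omega
        have hrR : r < R := by omega
        rw [hr1] at h0
        set y := min ρ (δ * ∏ r ∈ Finset.Ico (r + 1) R, a r) with hy
        have hprod : 0 ≤ ∏ r ∈ Finset.Ico (r + 1) R, a r :=
          Finset.prod_nonneg fun q hq => zero_le_one.trans (ha1 q (Finset.mem_Ico.1 hq).2)
        have hy0 : 0 ≤ y := le_min hρ (mul_nonneg hδ hprod)
        have hyT : y * Real.exp (f (i + r * L) * Δ) ≤ η :=
          (mul_le_mul (min_le_left _ _) (Real.exp_le_exp.2 (hT r hrR)) (Real.exp_pos _).le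
            hρ).trans hρT
        have h1 : y ≤ p f θ K (i + r * L + L) (n * Δ) := by
          have : i + r * L + L = i + (r + 1) * L := by ring
          rw [this]; exact h0
        have h2 := block hf hmono hθ0 hθ1 (mul_nonneg (Nat.cast_nonneg n) hΔ)
          (mul_nonneg (hf _).le hΔ) hy0 hη1 hyT h1
        have e1 : (n : ℝ) * Δ + f (i + r * L) * Δ / f (i + r * L) = ((n + 1 : ℕ) : ℝ) * Δ := by
          rw [mul_comm (f _) Δ, mul_div_assoc, div_self (hf _).ne']; push_cast; ring
        rw [e1] at h2
        refine le_trans ?_ h2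
        refine le_trans ?_ (mul_le_mul_of_nonneg_left (ha r hrR) hy0)
        have h3 : ∏ r ∈ Finset.Ico r R, a r = a r * ∏ r ∈ Finset.Ico (r + 1) R, a r :=
          Finset.prod_eq_prod_Ico_succ_bot hrR _
        rw [h3]
        have h4 := ha1 r hrR
        rcases le_total ρ (δ * ∏ r ∈ Finset.Ico (r + 1) R, a r) with h5 | h5
        · rw [hy, min_eq_left h5]
          refine (min_le_left _ _).trans ?_
          nlinarith
        · rw [hy, min_eq_right h5]
          refine (min_le_right _ _).trans (le_of_eq ?_)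
          ring
  have := key R le_rfl
  simpa using this

end Pool.Agent.H420.DW
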