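import Mathlib

set_option autoImplicit false

/-!
# Depth-weighted trees: the model

A rooted tree which grows by adding leaves is coded by the list of the parents of its vertices,
the newest vertex first: the vertices are `0, 1, 2, …` in the order of their arrival, `0` is the
root, `[]` is the tree with the root only, and `i :: t` is the tree `t` with one more vertex whose
parent is the vertex `i`.
-/

namespace Pool.Agent.H420.DW

/-- The distances of the vertices `0, 1, 2, …` of the tree `t` from the root. -/
def depths : List ℕ → List ℕ
  | [] => [0]
  | i :: t => depths t ++ [(depths t).getD i 0 + 1]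

/-- The depth of the tree `t`: the maximum distance of a vertex from the root. -/
def height (t : List ℕ) : ℕ := (depths t).foldr max 0

/-- The total weight of the vertices of the tree `t`. -/
noncomputable def total (f : ℕ → ℝ) (t : List ℕ) : ℝ := ((depths t).map f).sum

lemma depths_ne_nil (t : List ℕ) : depths t ≠ [] := by
  cases t with
  | nil => simp [depths]
  | cons i t => simp [depths]

lemma sum_map_pos {f : ℕ → ℝ} (hf : ∀ k, 0 < f k) :
    ∀ l : List ℕ, l ≠ [] → 0 < (l.map f).sum
  | [], h => absurd rfl h
  | [a], _ => by simpa using hf a
  | a :: b :: l, _ => by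
      have := sum_map_pos hf (b :: l) (by simp)
      rw [List.map_cons, List.sum_cons]
      exact add_pos (hf a) this

lemma total_pos {f : ℕ → ℝ} (hf : ∀ k, 0 < f k) (t : List ℕ) : 0 < total f t :=
  sum_map_pos hf _ (depths_ne_nil t)

lemma sum_fin_get {f : ℕ → ℝ} (l : List ℕ) :
    ∑ i : Fin l.length, f (l.get i) = (l.map f).sum := by
  conv_rhs => rw [← List.ofFn_get l, List.map_ofFn, List.sum_ofFn]
  rfl

/-- The random choice of the parent of the new vertex of the tree `t`: the vertex `i` is chosen
with probability `f (depth of i) / Z`, where `Z` is the sum of the weights of all vertices. -/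
noncomputable def pick (f : ℕ → ℝ) (hf : ∀ k, 0 < f k) (t : List ℕ) :
    PMF (Fin (depths t).length) :=
  PMF.ofFintype (fun i => ENNReal.ofReal (f ((depths t).get i) / total f t)) (by
    rw [← ENNReal.ofReal_sum_of_nonneg (fun i _ => div_nonneg (hf _).le (total_pos hf t).le),
      ← Finset.sum_div, sum_fin_get, ← total, div_self (total_pos hf t).ne', ENNReal.ofReal_one])

/-- The law of the depth-weighted tree `T_(n+1)` with `n + 1` vertices for the weight function
`f`. -/
noncomputable def law (f : ℕ → ℝ) (hf : ∀ k, 0 < f k) : ℕ → PMF (List ℕ)
  | 0 => PMF.pure []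
  | n + 1 => (law f hf n).bind fun t =>
      PMF.map (fun i : Fin (depths t).length => (i : ℕ) :: t) (pick f hf t)

/-- The weight function `f_c (k) = exp (c k / log (k + 2))`. -/
noncomputable def weight (c : ℝ) (k : ℕ) : ℝ := Real.exp (c * k / Real.log (k + 2))

lemma weight_pos (c : ℝ) (k : ℕ) : 0 < weight c k := Real.exp_pos _

end Pool.Agent.H420.DW
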