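import Pool.Agent.H420.DW.Gbound

set_option autoImplicit false

open MeasureTheory intervalIntegral

/-!
# Upper bounds for `m`
-/

namespace Pool.Agent.H420.DW

/-- `∫ f_i h_i p_{i+1} = p_i` for `θ = 1` -/
lemma integral_h_p {f : ℕ → ℝ} {K i : ℕ} (hi : i < K) (s : ℝ) :
    f i * ∫ u in (0 : ℝ)..s, h f 1 K i u * p f 1 K (i + 1) u = p f 1 K i s := by
  have hd : ∀ x ∈ Set.uIcc (0 : ℝ) s, HasDerivAt (fun x => -h f 1 K i x)
      (f i * (h f 1 K i x * p f 1 K (i + 1) x)) x := by
    intro x _
    refine (h_deriv hi x).fun_neg.congr_deriv ?_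
    rw [p]; ring
  rw [← intervalIntegral.integral_const_mul,
    intervalIntegral.integral_eq_sub_of_hasDerivAt hd
    ((continuous_const.mul ((h_cont f 1 K i).mul (p_cont f 1 K (i + 1)))).intervalIntegrable
      _ _), h_zero hi, p]
  ring

/-- the bound for `m` for `i₀ ≤ i < K` -/
theorem m_le {f : ℕ → ℝ} (hf : ∀ k, 0 < f k) {K i₀ : ℕ} {B : ℝ} (hB : 0 ≤ B)
    {Y Y' : ℕ → ℝ → ℝ} {a : ℕ → ℝ}
    (ha0 : ∀ i, i₀ ≤ i → i < K → 0 ≤ a i)
    (ha : ∀ i, i₀ ≤ i → i + 1 < K → a (i + 1) ≤ a i)
    (hY0 : ∀ i, i₀ ≤ i → i < K → 1 ≤ Y i 0)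
    (hYc : ∀ i, Continuous (Y i))
    (hYmono : ∀ i, i₀ ≤ i → i < K → MonotoneOn (Y i) (Set.Icc 0 (a i)))
    (hYd : ∀ i s, HasDerivAt (Y i) (Y' i s) s)
    (hYc' : ∀ i, Continuous (Y' i))
    (hYs : ∀ i, i₀ ≤ i → i + 1 < K → ∀ s, 0 ≤ s → s ≤ a (i + 1) →
      f (i + 1) * Y (i + 1) s ≤ Y' i s)
    (hYp : ∀ i, i₀ ≤ i → i + 1 < K → ∀ s, a (i + 1) ≤ s →
      Y (i + 1) (a (i + 1)) ≤ B * p f 1 K (i + 2) s)
    {i : ℕ} (hi : i₀ ≤ i) (hiK : i < K) {s : ℝ} (hs : 0 ≤ s) :
    m f K i s ≤ f i * (((K - i : ℕ) : ℝ) * B * p f 1 K (i + 1) s + Y i (min s (a i))) := by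
  obtain ⟨n, hn⟩ : ∃ n, K - i = n + 1 := ⟨K - i - 1, by omega⟩
  induction n generalizing i s with
  | zero =>
      have hiK' : i + 1 = K := by omega
      have h1 : ∀ u, h f 1 K (i + 1) u * m f K (i + 1) u = 0 := fun u => by
        rw [h_ge hiK'.ge, zero_mul]
      rw [m_lt hiK]
      simp only [h1, intervalIntegral.integral_zero, add_zero]
      refine mul_le_mul_of_nonneg_left ?_ (hf i).le
      have h2 : 0 ≤ p f 1 K (i + 1) s := p_nonneg hf zero_le_one le_rfl hs
      have h3 : 1 ≤ Y i (min s (a i)) := (hY0 i hi hiK).trans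
        (hYmono i hi hiK ⟨le_rfl, ha0 i hi hiK⟩ ⟨le_min hs (ha0 i hi hiK), min_le_right _ _⟩
          (le_min hs (ha0 i hi hiK)))
      have h4 : 0 ≤ ((K - i : ℕ) : ℝ) * B * p f 1 K (i + 1) s := by positivity
      linarith
  | succ n ih =>
      have hiK' : i + 1 < K := by omega
      have ha1 : 0 ≤ a (i + 1) := ha0 _ (by omega) hiK'
      set N : ℝ := ((K - (i + 1) : ℕ) : ℝ) with hN
      have eN : ((K - i : ℕ) : ℝ) = N + 1 := by
        have : K - i = (K - (i + 1)) + 1 := by omega
        rw [hN, this]; push_cast; ring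
      set b := min s (a (i + 1)) with hb
      have hb0 : 0 ≤ b := le_min hs ha1
      have hbs : b ≤ s := min_le_left _ _
      have hba : b ≤ a (i + 1) := min_le_right _ _
      -- the pointwise bound
      have hpt : ∀ u, 0 ≤ u → h f 1 K (i + 1) u * m f K (i + 1) u ≤
          f (i + 1) * (N * B) * (h f 1 K (i + 1) u * p f 1 K (i + 2) u)
            + f (i + 1) * (h f 1 K (i + 1) u * Y (i + 1) (min u (a (i + 1)))) := by
        intro u hu
        have h1 := ih (i := i + 1) (by omega) hiK' hu (by omega)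
        have h2 : 0 ≤ h f 1 K (i + 1) u := h_nonneg u
        calc h f 1 K (i + 1) u * m f K (i + 1) u
            ≤ h f 1 K (i + 1) u * (f (i + 1) * (N * B * p f 1 K (i + 1 + 1) u
              + Y (i + 1) (min u (a (i + 1))))) := mul_le_mul_of_nonneg_left h1 h2
          _ = _ := by ring
      have hcm : Continuous fun u => h f 1 K (i + 1) u * m f K (i + 1) u :=
        (h_cont f 1 K (i + 1)).mul (m_cont f K (i + 1))
      have hchp : Continuous fun u => h f 1 K (i + 1) u * p f 1 K (i + 2) u :=
        (h_cont f 1 K (i + 1)).mul (p_cont f 1 K (i + 2))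
      have hcY : Continuous fun u => h f 1 K (i + 1) u * Y (i + 1) (min u (a (i + 1))) :=
        (h_cont f 1 K (i + 1)).mul ((hYc (i + 1)).comp (continuous_id.min continuous_const))
      have hc1 : Continuous fun u => f (i + 1) * (N * B) * (h f 1 K (i + 1) u * p f 1 K (i + 2) u) :=
        continuous_const.mul hchp
      have hc2 : Continuous fun u => f (i + 1) * (h f 1 K (i + 1) u *
          Y (i + 1) (min u (a (i + 1)))) := continuous_const.mul hcY
      have h1 : ∫ u in (0 : ℝ)..s, h f 1 K (i + 1) u * m f K (i + 1) u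
          ≤ N * B * p f 1 K (i + 1) s
            + ∫ u in (0 : ℝ)..s, f (i + 1) * (h f 1 K (i + 1) u *
              Y (i + 1) (min u (a (i + 1)))) := by
        have hc12 : Continuous fun u => f (i + 1) * (N * B) *
            (h f 1 K (i + 1) u * p f 1 K (i + 2) u)
              + f (i + 1) * (h f 1 K (i + 1) u * Y (i + 1) (min u (a (i + 1)))) := hc1.add hc2
        have h2 := intervalIntegral.integral_mono_on (μ := volume) hs
          (hcm.intervalIntegrable _ _) (hc12.intervalIntegrable _ _) (fun u hu => hpt u hu.1)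
        rw [intervalIntegral.integral_add (hc1.intervalIntegrable _ _)
          (hc2.intervalIntegrable _ _), intervalIntegral.integral_const_mul] at h2
        have h3 := integral_h_p (f := f) hiK' s
        have h4 : f (i + 1) * (N * B) * ∫ u in (0 : ℝ)..s, h f 1 K (i + 1) u * p f 1 K (i + 2) u
            = N * B * p f 1 K (i + 1) s := by rw [← h3]; ring
        rw [h4] at h2
        exact h2
      -- the low part
      have hlow : ∫ u in (0 : ℝ)..b, f (i + 1) * (h f 1 K (i + 1) u *
          Y (i + 1) (min u (a (i + 1)))) ≤ Y i b - Y i 0 := by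
        rw [← intervalIntegral.integral_eq_sub_of_hasDerivAt (fun x _ => hYd i x)
          ((hYc' i).intervalIntegrable _ _)]
        refine intervalIntegral.integral_mono_on hb0 (hc2.intervalIntegrable _ _)
          ((hYc' i).intervalIntegrable _ _) fun u hu => ?_
        have hua : u ≤ a (i + 1) := hu.2.trans hba
        rw [min_eq_left hua]
        refine le_trans ?_ (hYs i hi hiK' u hu.1 hua)
        have h2 : 0 ≤ Y (i + 1) u := zero_le_one.trans ((hY0 (i + 1) (by omega) hiK').trans
          (hYmono (i + 1) (by omega) hiK' ⟨le_rfl, ha1⟩ ⟨hu.1, hua⟩ hu.1))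
        exact mul_le_mul_of_nonneg_left (mul_le_of_le_one_left h2
          (h_le_one hf zero_le_one le_rfl hu.1)) (hf _).le
      -- the high part
      have hhigh : ∫ u in b..s, f (i + 1) * (h f 1 K (i + 1) u *
          Y (i + 1) (min u (a (i + 1)))) ≤ B * p f 1 K (i + 1) s := by
        rcases le_total s (a (i + 1)) with h2 | h2
        · rw [hb, min_eq_left h2, intervalIntegral.integral_same]
          exact mul_nonneg hB (p_nonneg hf zero_le_one le_rfl hs)
        · have hb' : b = a (i + 1) := min_eq_right h2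
          have h3 : ∫ u in b..s, f (i + 1) * (h f 1 K (i + 1) u *
              Y (i + 1) (min u (a (i + 1))))
              ≤ ∫ u in b..s, f (i + 1) * B * (h f 1 K (i + 1) u * p f 1 K (i + 2) u) := by
            refine intervalIntegral.integral_mono_on hbs (hc2.intervalIntegrable _ _)
              ((continuous_const.mul hchp).intervalIntegrable _ _) fun u hu => ?_
            have hua : a (i + 1) ≤ u := hb' ▸ hu.1
            rw [min_eq_right hua]
            have h4 := hYp i hi hiK' u hua
            have h5 : 0 ≤ f (i + 1) * h f 1 K (i + 1) u := mul_nonneg (hf _).le (h_nonneg u)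
            calc f (i + 1) * (h f 1 K (i + 1) u * Y (i + 1) (a (i + 1)))
                = (f (i + 1) * h f 1 K (i + 1) u) * Y (i + 1) (a (i + 1)) := by ring
              _ ≤ (f (i + 1) * h f 1 K (i + 1) u) * (B * p f 1 K (i + 2) u) :=
                  mul_le_mul_of_nonneg_left h4 h5
              _ = _ := by ring
          refine h3.trans ?_
          have h4 : ∫ u in b..s, f (i + 1) * B * (h f 1 K (i + 1) u * p f 1 K (i + 2) u)
              ≤ ∫ u in (0 : ℝ)..s, f (i + 1) * B * (h f 1 K (i + 1) u * p f 1 K (i + 2) u) := by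
            have hc3 : Continuous fun u => f (i + 1) * B *
                (h f 1 K (i + 1) u * p f 1 K (i + 2) u) := continuous_const.mul hchp
            rw [← intervalIntegral.integral_add_adjacent_intervals
              (hc3.intervalIntegrable 0 b) (hc3.intervalIntegrable b s)]
            have : 0 ≤ ∫ u in (0 : ℝ)..b, f (i + 1) * B *
                (h f 1 K (i + 1) u * p f 1 K (i + 2) u) :=
              intervalIntegral.integral_nonneg hb0 fun u hu =>
                mul_nonneg (mul_nonneg (hf _).le hB) (mul_nonneg (h_nonneg u)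
                  (p_nonneg hf zero_le_one le_rfl hu.1))
            linarith
          refine h4.trans (le_of_eq ?_)
          rw [intervalIntegral.integral_const_mul, ← integral_h_p (f := f) hiK' s]
          ring
      have hY1 : 1 ≤ Y i 0 := hY0 i hi hiK
      have hYb : Y i b ≤ Y i (min s (a i)) := by
        have h2 : a (i + 1) ≤ a i := ha i hi hiK'
        exact hYmono i hi hiK ⟨hb0, hba.trans h2⟩
          ⟨le_min hs (ha1.trans h2), min_le_right _ _⟩ (le_min hbs (hba.trans h2))
      have hsplit : ∫ u in (0 : ℝ)..s, f (i + 1) * (h f 1 K (i + 1) u *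
              Y (i + 1) (min u (a (i + 1))))
          = (∫ u in (0 : ℝ)..b, f (i + 1) * (h f 1 K (i + 1) u *
              Y (i + 1) (min u (a (i + 1)))))
            + ∫ u in b..s, f (i + 1) * (h f 1 K (i + 1) u *
              Y (i + 1) (min u (a (i + 1)))) :=
        (intervalIntegral.integral_add_adjacent_intervals (hc2.intervalIntegrable _ _)
          (hc2.intervalIntegrable _ _)).symm
      rw [m_lt hiK]
      refine mul_le_mul_of_nonneg_left ?_ (hf i).le
      rw [eN]
      rw [hsplit] at h1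
      nlinarith

/-- constants for the low levels, uniform in `K` -/
lemma low_p {f : ℕ → ℝ} (hf : ∀ k, 0 < f k) {i₀ : ℕ} {D ρ : ℝ} (hD : 0 ≤ D) (hρ : 0 < ρ)
    (hp : ∀ K, ρ ≤ p f 1 K i₀ D) :
    ∀ i ≤ i₀, ∃ D' ρ' : ℝ, 0 ≤ D' ∧ 0 < ρ' ∧ ∀ K, ρ' ≤ p f 1 K i D' := by
  intro i hi
  obtain ⟨n, hn⟩ : ∃ n, i₀ - i = n := ⟨_, rfl⟩
  induction n generalizing i with
  | zero =>
      have : i = i₀ := by omega
      subst this; exact ⟨D, ρ, hD, hρ, hp⟩
  | succ n ih =>
      obtain ⟨D', ρ', hD', hρ', h1⟩ := ih (i + 1) (by omega) (by omega)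
      have h2 : 0 < 1 - Real.exp (-(f i * ρ')) := by
        have : Real.exp (-(f i * ρ')) < 1 := by
          rw [Real.exp_lt_one_iff]; have := mul_pos (hf i) hρ'; linarith
        linarith
      refine ⟨D' + 1, min 1 (1 - Real.exp (-(f i * ρ'))), by linarith,
        lt_min one_pos h2, fun K => ?_⟩
      rcases lt_or_ge i K with hiK | hiK
      · have h3 := h_tail hf zero_le_one le_rfl hiK hD' (by linarith : D' ≤ D' + 1) hρ'.le (h1 K)
        refine (min_le_right _ _).trans ?_
        rw [p, one_mul]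
        have : f i * ρ' * (D' + 1 - D') = f i * ρ' := by ring
        rw [this] at h3
        linarith
      · rw [p_ge hiK]; exact min_le_left _ _

/-- the integral of `h` is bounded -/
lemma integral_h_le {f : ℕ → ℝ} (hf : ∀ k, 0 < f k) {K i : ℕ} (hi : i < K) {D ρ : ℝ}
    (hD : 0 ≤ D) (hρ : 0 < ρ) (hp : ρ ≤ p f 1 K (i + 1) D) {s : ℝ} (hs : 0 ≤ s) :
    ∫ u in (0 : ℝ)..s, h f 1 K i u ≤ D + 1 / (f i * ρ) := by
  have hc := h_cont f 1 K i
  have h1 : ∀ s, 0 ≤ s → ∫ u in (0 : ℝ)..s, h f 1 K i u ≤ s := by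
    intro s hs
    have := intervalIntegral.integral_mono_on (μ := volume) hs (hc.intervalIntegrable 0 s)
      (g := fun _ => (1 : ℝ)) (continuous_const.intervalIntegrable 0 s)
      (fun u hu => h_le_one hf zero_le_one le_rfl hu.1)
    simpa using this
  have hpos : 0 < f i * ρ := mul_pos (hf i) hρ
  rcases le_total s D with hsD | hsD
  · have := h1 s hs
    have h2 : 0 < 1 / (f i * ρ) := one_div_pos.2 hpos
    linarith
  · rw [← intervalIntegral.integral_add_adjacent_intervals (hc.intervalIntegrable 0 D)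
      (hc.intervalIntegrable D s)]
    have h2 := h1 D hD
    have h3 : ∫ u in D..s, h f 1 K i u ≤ ∫ u in D..s, Real.exp (-(f i * ρ * (u - D))) :=
      intervalIntegral.integral_mono_on hsD (hc.intervalIntegrable _ _)
        (Continuous.intervalIntegrable (by fun_prop) _ _) fun u hu =>
        h_tail hf zero_le_one le_rfl hi hD hu.1 hρ.le hp
    have h4 := h3.trans (integral_exp_le hpos)
    simp only [sub_self, mul_zero, neg_zero, Real.exp_zero] at h4
    linarith

/-- `h` tends to zero -/
lemma h_tendsto {f : ℕ → ℝ} (hf : ∀ k, 0 < f k) {K i : ℕ} (hi : i < K) :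
    Filter.Tendsto (h f 1 K i) Filter.atTop (nhds 0) := by
  obtain ⟨ρ, hρ, hp⟩ : ∃ ρ > 0, ρ ≤ p f 1 K (i + 1) 1 := by
    refine ⟨p f 1 K (i + 1) 1, ?_, le_rfl⟩
    obtain ⟨n, hn⟩ : ∃ n, K - (i + 1) = n := ⟨_, rfl⟩
    clear hi
    -- positivity of p at every positive time
    have key : ∀ n, ∀ j, K - j = n → ∀ s : ℝ, 0 < s → 0 < p f 1 K j s := by
      intro n
      induction n with
      | zero => intro j hj s _; rw [p_ge (by omega)]; exact one_pos
      | succ n ih =>
          intro j hj s hs
          have h1 : 0 < p f 1 K (j + 1) (s / 2) := ih (j + 1) (by omega) _ (by linarith)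
          have h2 := h_tail hf zero_le_one le_rfl (i := j) (K := K) (by omega)
            (by linarith : (0:ℝ) ≤ s / 2) (by linarith : s / 2 ≤ s) h1.le le_rfl
          have h3 : Real.exp (-(f j * p f 1 K (j + 1) (s / 2) * (s - s / 2))) < 1 := by
            rw [Real.exp_lt_one_iff]
            have := mul_pos (mul_pos (hf j) h1) (by linarith : (0:ℝ) < s - s / 2)
            linarith
          rw [p, one_mul]; linarith
    exact key n (i + 1) hn 1 one_pos
  have h1 : Filter.Tendsto (fun u : ℝ => Real.exp (-(f i * ρ * (u - 1)))) Filter.atTop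
      (nhds 0) := by
    refine Real.tendsto_exp_neg_atTop_nhds_zero.comp ?_
    exact Filter.Tendsto.const_mul_atTop (mul_pos (hf i) hρ)
      (Filter.tendsto_atTop_add_const_right _ _ Filter.tendsto_id)
  refine squeeze_zero' (Filter.Eventually.of_forall fun u => h_nonneg u) ?_ h1
  filter_upwards [Filter.eventually_ge_atTop 1] with u hu
  exact h_tail hf zero_le_one le_rfl hi zero_le_one hu hρ.le hp

end Pool.Agent.H420.DW
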