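import Pool.Agent.H420.DW.Def

set_option autoImplicit false

namespace Pool.Agent.H420.DW

/-- The expected value of `g` after `n` steps from `t`. -/
noncomputable def EV (f : ℕ → ℝ) (g : List ℕ → ℝ) : ℕ → List ℕ → ℝ
  | 0, t => g t
  | n + 1, t => ∑ i : Fin (depths t).length,
      f ((depths t).get i) / total f t * EV f g n ((i : ℕ) :: t)

/-- one step -/
noncomputable def step (f : ℕ → ℝ) (hf : ∀ k, 0 < f k) (t : List ℕ) : PMF (List ℕ) :=
  PMF.map (fun i : Fin (depths t).length => (i : ℕ) :: t) (pick f hf t)

/-- iterated steps -/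
noncomputable def iter (f : ℕ → ℝ) (hf : ∀ k, 0 < f k) : ℕ → List ℕ → PMF (List ℕ)
  | 0, t => PMF.pure t
  | n + 1, t => (step f hf t).bind (iter f hf n)

lemma iter_bind (f : ℕ → ℝ) (hf : ∀ k, 0 < f k) (n : ℕ) (t : List ℕ) :
    (iter f hf n t).bind (step f hf) = (step f hf t).bind (iter f hf n) := by
  induction n generalizing t with
  | zero =>
      show (PMF.pure t).bind (step f hf) = (step f hf t).bind (fun s => PMF.pure s)
      rw [PMF.pure_bind, PMF.bind_pure]
  | succ n ih =>
      show ((step f hf t).bind (iter f hf n)).bind (step f hf)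
        = (step f hf t).bind (fun s => (step f hf s).bind (iter f hf n))
      rw [PMF.bind_bind]
      congr 1
      funext s
      exact ih s

lemma law_eq_iter (f : ℕ → ℝ) (hf : ∀ k, 0 < f k) (n : ℕ) :
    law f hf n = iter f hf n [] := by
  induction n with
  | zero => rfl
  | succ n ih =>
      show (law f hf n).bind (step f hf) = (step f hf []).bind (iter f hf n)
      rw [ih, iter_bind]

lemma EV_nonneg {f : ℕ → ℝ} (hf : ∀ k, 0 < f k) {g : List ℕ → ℝ} (hg : ∀ t, 0 ≤ g t) (n : ℕ)
    (t : List ℕ) : 0 ≤ EV f g n t := by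
  induction n generalizing t with
  | zero => exact hg t
  | succ n ih =>
      exact Finset.sum_nonneg fun i _ => mul_nonneg
        (div_nonneg (hf _).le (total_pos hf t).le) (ih _)

lemma weights_sum {f : ℕ → ℝ} (hf : ∀ k, 0 < f k) (t : List ℕ) :
    ∑ i : Fin (depths t).length, f ((depths t).get i) / total f t = 1 := by
  rw [← Finset.sum_div, sum_fin_get, ← total, div_self (total_pos hf t).ne']

lemma iter_toOuterMeasure {f : ℕ → ℝ} (hf : ∀ k, 0 < f k) (A : Set (List ℕ)) (n : ℕ)
    (t : List ℕ) :
    (iter f hf n t).toOuterMeasure A = ENNReal.ofReal (EV f (A.indicator 1) n t) := by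
  induction n generalizing t with
  | zero =>
      show (PMF.pure t).toOuterMeasure A = ENNReal.ofReal (A.indicator 1 t)
      rw [PMF.toOuterMeasure_pure_apply]
      by_cases h : t ∈ A
      · simp [h]
      · simp [h]
  | succ n ih =>
      show ((step f hf t).bind (iter f hf n)).toOuterMeasure A = _
      rw [step, PMF.bind_map, PMF.toOuterMeasure_bind_apply, tsum_fintype]
      have hnn : ∀ s, 0 ≤ A.indicator (1 : List ℕ → ℝ) s := fun s =>
        Set.indicator_nonneg (fun _ _ => zero_le_one) s
      rw [EV, ENNReal.ofReal_sum_of_nonneg (fun i _ => mul_nonneg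
        (div_nonneg (hf _).le (total_pos hf t).le) (EV_nonneg hf hnn _ _))]
      refine Finset.sum_congr rfl fun i _ => ?_
      rw [ENNReal.ofReal_mul (div_nonneg (hf _).le (total_pos hf t).le), Function.comp_apply, ih]
      rfl

lemma law_toOuterMeasure {f : ℕ → ℝ} (hf : ∀ k, 0 < f k) (A : Set (List ℕ)) (n : ℕ) :
    (law f hf n).toOuterMeasure A = ENNReal.ofReal (EV f (A.indicator 1) n []) := by
  rw [law_eq_iter, iter_toOuterMeasure]

lemma EV_mono {f : ℕ → ℝ} (hf : ∀ k, 0 < f k) {g g' : List ℕ → ℝ} (h : ∀ t, g t ≤ g' t)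
    (n : ℕ) (t : List ℕ) : EV f g n t ≤ EV f g' n t := by
  induction n generalizing t with
  | zero => exact h t
  | succ n ih =>
      exact Finset.sum_le_sum fun i _ => mul_le_mul_of_nonneg_left (ih _)
        (div_nonneg (hf _).le (total_pos hf t).le)

lemma EV_one {f : ℕ → ℝ} (hf : ∀ k, 0 < f k) (n : ℕ) (t : List ℕ) :
    EV f (fun _ => 1) n t = 1 := by
  induction n generalizing t with
  | zero => rfl
  | succ n ih =>
      simp only [EV, ih, mul_one]
      exact weights_sum hf t

lemma EV_add {f : ℕ → ℝ} (g g' : List ℕ → ℝ) (n : ℕ) (t : List ℕ) :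
    EV f (fun s => g s + g' s) n t = EV f g n t + EV f g' n t := by
  induction n generalizing t with
  | zero => rfl
  | succ n ih => simp only [EV, ih, mul_add, Finset.sum_add_distrib]

/-! ### heights -/

lemma le_foldr_max {a : ℕ} : ∀ {l : List ℕ}, a ∈ l → a ≤ l.foldr max 0
  | b :: l, h => by
      rw [List.foldr_cons]
      rcases List.mem_cons.1 h with h | h
      · exact h ▸ le_max_left _ _
      · exact (le_foldr_max h).trans (le_max_right _ _)

lemma foldr_max_lt {K : ℕ} (hK : 0 < K) : ∀ {l : List ℕ}, (∀ a ∈ l, a < K) → l.foldr max 0 < K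
  | [], _ => hK
  | b :: l, h => by
      rw [List.foldr_cons]
      exact max_lt (h b (by simp)) (foldr_max_lt hK fun a ha => h a (by simp [ha]))

lemma height_lt_iff {K : ℕ} (hK : 0 < K) (t : List ℕ) :
    height t < K ↔ ∀ a ∈ depths t, a < K :=
  ⟨fun h a ha => (le_foldr_max ha).trans_lt h, fun h => foldr_max_lt hK h⟩

lemma depths_cons (t : List ℕ) (i : Fin (depths t).length) :
    depths ((i : ℕ) :: t) = depths t ++ [(depths t).get i + 1] := by
  rw [depths]
  congr 2
  simp [List.getD_eq_getElem?_getD]

lemma height_mono (t : List ℕ) (i : ℕ) : height t ≤ height (i :: t) := by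
  rcases Nat.eq_zero_or_pos (height (i :: t)) with h | h
  · have h1 : height (i :: t) < 1 := by omega
    rw [height_lt_iff one_pos, depths] at h1
    have : height t < 1 := (height_lt_iff one_pos t).2 fun a ha => h1 a (by simp [ha])
    omega
  · have h1 : height (i :: t) < height (i :: t) + 1 := Nat.lt_succ_self _
    rw [height_lt_iff (Nat.succ_pos _), depths] at h1
    have : height t < height (i :: t) + 1 :=
      (height_lt_iff (Nat.succ_pos _) t).2 fun a ha => h1 a (by simp [ha])
    omega

open Classical in
/-- The event of reaching depth `K` has probability at most `θ⁻ⁿ U`. -/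
lemma EV_le_of_super {f : ℕ → ℝ} (hf : ∀ k, 0 < f k) {K : ℕ} {θ : ℝ} (hθ : 0 < θ) (hθ1 : θ ≤ 1)
    (U : List ℕ → ℝ) (hU : ∀ t, 0 ≤ U t) (hU1 : ∀ t, K ≤ height t → U t = 1)
    (hstep : ∀ t, height t < K →
      θ * ∑ i : Fin (depths t).length, f ((depths t).get i) / total f t * U ((i : ℕ) :: t) ≤ U t)
    (n : ℕ) (t : List ℕ) :
    θ ^ n * EV f ({s | K ≤ height s}.indicator 1) n t ≤ U t := by
  induction n generalizing t with
  | zero =>
      simp only [pow_zero, one_mul, EV]
      by_cases h : K ≤ height t
      · rw [hU1 t h, Set.indicator_of_mem (by exact h)]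
        simp
      · rw [Set.indicator_of_notMem (by simpa using h)]
        exact hU t
  | succ n ih =>
      by_cases h : K ≤ height t
      · rw [hU1 t h]
        have h1 : EV f ({s | K ≤ height s}.indicator 1) (n + 1) t ≤ 1 := by
          refine (EV_mono hf (g' := fun _ => 1) (fun s => ?_) _ _).trans (EV_one hf _ _).le
          exact Set.indicator_le_self' (fun _ _ => zero_le_one) s
        exact mul_le_one₀ (pow_le_one₀ hθ.le hθ1) (EV_nonneg hf
          (fun s => Set.indicator_nonneg (fun _ _ => zero_le_one) s) _ _) h1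
      · push Not at h
        refine le_trans ?_ (hstep t h)
        rw [EV, pow_succ, mul_comm (θ ^ n) θ, mul_assoc, Finset.mul_sum]
        refine mul_le_mul_of_nonneg_left (Finset.sum_le_sum fun i _ => ?_) hθ.le
        rw [mul_left_comm]
        exact mul_le_mul_of_nonneg_left (ih _) (div_nonneg (hf _).le (total_pos hf t).le)

open Classical in
/-- Expected number of steps until depth `K`. -/
lemma EV_le_of_drift {f : ℕ → ℝ} (hf : ∀ k, 0 < f k) {K : ℕ}
    (W : List ℕ → ℝ) (hW : ∀ t, 0 ≤ W t)
    (hstep : ∀ t, height t < K →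
      ∑ i : Fin (depths t).length, f ((depths t).get i) / total f t * W ((i : ℕ) :: t)
        ≤ W t - 1)
    (n : ℕ) (t : List ℕ) :
    (n + 1) * EV f ({s | height s < K}.indicator 1) n t ≤ W t := by
  have hzero : ∀ (n : ℕ) (t : List ℕ), K ≤ height t →
      EV f ({s | height s < K}.indicator 1) n t = 0 := by
    intro n
    induction n with
    | zero =>
        intro t ht
        exact Set.indicator_of_notMem (by simpa using ht) _
    | succ n ih =>
        intro t ht
        rw [EV]
        refine Finset.sum_eq_zero fun i _ => ?_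
        rw [ih _ (ht.trans (height_mono t i)), mul_zero]
  induction n generalizing t with
  | zero =>
      by_cases h : height t < K
      · have h1 : 0 ≤ ∑ i : Fin (depths t).length,
            f ((depths t).get i) / total f t * W ((i : ℕ) :: t) :=
          Finset.sum_nonneg fun i _ => mul_nonneg
            (div_nonneg (hf _).le (total_pos hf t).le) (hW _)
        have h2 := hstep t h
        rw [EV, Set.indicator_of_mem (by exact h)]
        simp
        linarith
      · rw [hzero 0 t (not_lt.1 h)]
        simpa using hW t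
  | succ n ih =>
      by_cases h : height t < K
      · have h1 : EV f ({s | height s < K}.indicator 1) (n + 1) t ≤ 1 := by
          refine (EV_mono hf (g' := fun _ => 1) (fun s => ?_) _ _).trans (EV_one hf _ _).le
          exact Set.indicator_le_self' (fun _ _ => zero_le_one) s
        have h2 : (n + 1) * EV f ({s | height s < K}.indicator 1) (n + 1) t ≤ W t - 1 := by
          refine le_trans ?_ (hstep t h)
          rw [EV, Finset.mul_sum]
          refine Finset.sum_le_sum fun i _ => ?_
          rw [mul_left_comm]
          exact mul_le_mul_of_nonneg_left (ih _) (div_nonneg (hf _).le (total_pos hf t).le)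
        push_cast
        linarith
      · rw [hzero (n + 1) t (not_lt.1 h), mul_zero]
        exact hW t

end Pool.Agent.H420.DW
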