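import Pool.Agent.H420.DW.Fun
import Pool.Agent.H420.DW.Prob

set_option autoImplicit false

open MeasureTheory intervalIntegral

/-!
# The potentials
-/

namespace Pool.Agent.H420.DW

/-- the product of `h` over a list -/
noncomputable def PP (f : ℕ → ℝ) (θ : ℝ) (K : ℕ) (D : List ℕ) (s : ℝ) : ℝ :=
  (D.map fun d => h f θ K d s).prod

/-- the sum of `g` over a list -/
noncomputable def SS (g : ℕ → ℝ → ℝ) (D : List ℕ) (s : ℝ) : ℝ := (D.map fun d => g d s).sum

/-- product times sum -/
noncomputable def BB (f : ℕ → ℝ) (θ : ℝ) (K : ℕ) (g : ℕ → ℝ → ℝ) (D : List ℕ) (s : ℝ) : ℝ :=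
  PP f θ K D s * SS g D s

lemma PP_cons (f : ℕ → ℝ) (θ : ℝ) (K d : ℕ) (D : List ℕ) (s : ℝ) :
    PP f θ K (d :: D) s = h f θ K d s * PP f θ K D s := by simp [PP]

lemma PP_append (f : ℕ → ℝ) (θ : ℝ) (K d : ℕ) (D : List ℕ) (s : ℝ) :
    PP f θ K (D ++ [d]) s = PP f θ K D s * h f θ K d s := by simp [PP]

lemma SS_append (g : ℕ → ℝ → ℝ) (d : ℕ) (D : List ℕ) (s : ℝ) :
    SS g (D ++ [d]) s = SS g D s + g d s := by simp [SS]

lemma PP_cont (f : ℕ → ℝ) (θ : ℝ) (K : ℕ) (D : List ℕ) : Continuous (PP f θ K D) := by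
  induction D with
  | nil =>
      have : PP f θ K [] = fun _ => 1 := funext fun s => by simp [PP]
      rw [this]; exact continuous_const
  | cons d D ih =>
      have : PP f θ K (d :: D) = fun s => h f θ K d s * PP f θ K D s :=
        funext fun s => PP_cons f θ K d D s
      rw [this]
      exact (h_cont f θ K d).mul ih

lemma SS_cont {g : ℕ → ℝ → ℝ} (hg : ∀ d, Continuous (g d)) (D : List ℕ) :
    Continuous (SS g D) := by
  induction D with
  | nil =>
      have : SS g [] = fun _ => 0 := funext fun s => by simp [SS]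
      rw [this]; exact continuous_const
  | cons d D ih =>
      have : SS g (d :: D) = fun s => g d s + SS g D s := funext fun s => by simp [SS]
      rw [this]
      exact (hg d).add ih

lemma BB_cont (f : ℕ → ℝ) (θ : ℝ) (K : ℕ) {g : ℕ → ℝ → ℝ} (hg : ∀ d, Continuous (g d))
    (D : List ℕ) : Continuous (BB f θ K g D) := (PP_cont f θ K D).mul (SS_cont hg D)

lemma PP_nonneg (f : ℕ → ℝ) (θ : ℝ) (K : ℕ) (D : List ℕ) (s : ℝ) : 0 ≤ PP f θ K D s := by
  induction D with
  | nil => simp [PP]
  | cons d D ih => rw [PP_cons]; exact mul_nonneg (h_nonneg s) ih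

lemma SS_nonneg {g : ℕ → ℝ → ℝ} {s : ℝ} (hg : ∀ d, 0 ≤ g d s) (D : List ℕ) : 0 ≤ SS g D s := by
  induction D with
  | nil => simp [SS]
  | cons d D ih =>
      have : SS g (d :: D) s = g d s + SS g D s := by simp [SS]
      rw [this]
      exact add_nonneg (hg d) ih

lemma PP_deriv {f : ℕ → ℝ} {θ : ℝ} {K : ℕ} {D : List ℕ} (hD : ∀ d ∈ D, d < K) (s : ℝ) :
    HasDerivAt (PP f θ K D)
      (-(D.map fun d => f d * (1 - θ * h f θ K (d + 1) s)).sum * PP f θ K D s) s := by
  induction D with
  | nil =>
      have : PP f θ K [] = fun _ => 1 := funext fun s => by simp [PP]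
      rw [this]
      simpa using hasDerivAt_const s (1 : ℝ)
  | cons d D ih =>
      have h1 : PP f θ K (d :: D) = fun s => h f θ K d s * PP f θ K D s :=
        funext fun s => PP_cons f θ K d D s
      have h2 := (h_deriv (f := f) (θ := θ) (hD d (by simp)) s).mul
        (ih fun a ha => hD a (by simp [ha]))
      rw [h1]
      refine h2.congr_deriv ?_
      simp only [List.map_cons, List.sum_cons]
      ring

lemma SS_deriv {g g' : ℕ → ℝ → ℝ} {K : ℕ} {D : List ℕ} (hD : ∀ d ∈ D, d < K) (s : ℝ)
    (hg : ∀ d < K, HasDerivAt (g d) (g' d s) s) :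
    HasDerivAt (SS g D) (D.map fun d => g' d s).sum s := by
  induction D with
  | nil =>
      have : SS g [] = fun _ => 0 := funext fun s => by simp [SS]
      rw [this]
      simpa using hasDerivAt_const s (0 : ℝ)
  | cons d D ih =>
      have h1 : SS g (d :: D) = fun s => g d s + SS g D s := funext fun s => by simp [SS]
      rw [h1]
      simp only [List.map_cons, List.sum_cons]
      exact (hg d (hD d (by simp))).add (ih fun a ha => hD a (by simp [ha]))

lemma sum_map_mul_left' (c : ℝ) (F : ℕ → ℝ) (D : List ℕ) :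
    (D.map fun d => c * F d).sum = c * (D.map F).sum := by
  induction D with
  | nil => simp
  | cons d D ih => simp only [List.map_cons, List.sum_cons, ih]; ring

lemma sum_map_add' (F F' : ℕ → ℝ) (D : List ℕ) :
    (D.map fun d => F d + F' d).sum = (D.map F).sum + (D.map F').sum := by
  induction D with
  | nil => simp
  | cons d D ih => simp only [List.map_cons, List.sum_cons, ih]; ring

lemma sum_map_le {F F' : ℕ → ℝ} {D : List ℕ} (hD : ∀ d ∈ D, F d ≤ F' d) :
    (D.map F).sum ≤ (D.map F').sum := by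
  induction D with
  | nil => simp
  | cons d D ih =>
      simp only [List.map_cons, List.sum_cons]
      exact add_le_add (hD d (by simp)) (ih fun a ha => hD a (by simp [ha]))

lemma sum_map_congr {F F' : ℕ → ℝ} {D : List ℕ} (hD : ∀ d ∈ D, F d = F' d) :
    (D.map F).sum = (D.map F').sum := by
  induction D with
  | nil => simp
  | cons d D ih =>
      simp only [List.map_cons, List.sum_cons]
      rw [hD d (by simp), ih fun a ha => hD a (by simp [ha])]

lemma BB_deriv {f : ℕ → ℝ} {θ : ℝ} {K : ℕ} {g : ℕ → ℝ → ℝ} {D : List ℕ}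
    (hD : ∀ d ∈ D, d < K) (s : ℝ)
    (hg : ∀ d < K, HasDerivAt (g d) (θ * f d * h f θ K (d + 1) s * g (d + 1) s) s) :
    HasDerivAt (BB f θ K g D)
      (θ * (D.map fun d => f d * BB f θ K g (D ++ [d + 1]) s).sum
        - (D.map f).sum * BB f θ K g D s) s := by
  have h1 := (PP_deriv (f := f) (θ := θ) hD s).mul (SS_deriv (g' := fun d s =>
    θ * f d * h f θ K (d + 1) s * g (d + 1) s) hD s hg)
  refine h1.congr_deriv ?_
  have e1 : (D.map fun d => f d * BB f θ K g (D ++ [d + 1]) s).sum
      = BB f θ K g D s * (D.map fun d => f d * h f θ K (d + 1) s).sum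
        + PP f θ K D s * (D.map fun d => f d * h f θ K (d + 1) s * g (d + 1) s).sum := by
    rw [← sum_map_mul_left', ← sum_map_mul_left', ← sum_map_add']
    congr 1
    refine List.map_congr_left fun d _ => ?_
    rw [BB, BB, PP_append, SS_append]
    ring
  have e2 : (D.map fun d => f d * (1 - θ * h f θ K (d + 1) s)).sum
      = (D.map f).sum - θ * (D.map fun d => f d * h f θ K (d + 1) s).sum := by
    have : (D.map f).sum = (D.map fun d => f d * (1 - θ * h f θ K (d + 1) s)).sum
        + θ * (D.map fun d => f d * h f θ K (d + 1) s).sum := by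
      rw [← sum_map_mul_left', ← sum_map_add']
      congr 1
      refine List.map_congr_left fun d _ => ?_
      ring
    linarith
  have e3 : (D.map fun d => θ * f d * h f θ K (d + 1) s * g (d + 1) s).sum
      = θ * (D.map fun d => f d * h f θ K (d + 1) s * g (d + 1) s).sum := by
    rw [← sum_map_mul_left']
    congr 1
    refine List.map_congr_left fun d _ => ?_
    ring
  rw [e1, e2, e3, BB]
  ring

lemma sum_integral {f : ℕ → ℝ} {F : ℕ → ℝ → ℝ} (hF : ∀ d, Continuous (F d)) (S : ℝ)
    (L : List ℕ) :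
    (L.map fun d => f d * ∫ s in (0 : ℝ)..S, F d s).sum
      = ∫ s in (0 : ℝ)..S, (L.map fun d => f d * F d s).sum := by
  induction L with
  | nil => simp
  | cons d L ih =>
      have hc : ∀ L : List ℕ, Continuous fun s => (L.map fun d => f d * F d s).sum := by
        intro L
        induction L with
        | nil => simpa using continuous_const
        | cons a L ih =>
            simp only [List.map_cons, List.sum_cons]
            exact (continuous_const.mul (hF a)).add ih
      simp only [List.map_cons, List.sum_cons]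
      have hc1 : Continuous fun s => f d * F d s := continuous_const.mul (hF d)
      rw [intervalIntegral.integral_add (hc1.intervalIntegrable _ _)
        ((hc L).intervalIntegrable _ _), intervalIntegral.integral_const_mul, ih]

/-- the integrated identity -/
lemma BB_integral {f : ℕ → ℝ} {θ : ℝ} {K : ℕ} {g : ℕ → ℝ → ℝ} (hgc : ∀ d, Continuous (g d))
    {D : List ℕ} (hD : ∀ d ∈ D, d < K) (S : ℝ)
    (hg : ∀ s, ∀ d < K, HasDerivAt (g d) (θ * f d * h f θ K (d + 1) s * g (d + 1) s) s) :
    θ * (D.map fun d => f d * ∫ s in (0 : ℝ)..S, BB f θ K g (D ++ [d + 1]) s).sum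
      = (D.map f).sum * (∫ s in (0 : ℝ)..S, BB f θ K g D s)
        + BB f θ K g D S - BB f θ K g D 0 := by
  have hcs : Continuous fun s => (D.map fun d => f d * BB f θ K g (D ++ [d + 1]) s).sum := by
    have : ∀ L : List ℕ, Continuous fun s =>
        (L.map fun d => f d * BB f θ K g (D ++ [d + 1]) s).sum := by
      intro L
      induction L with
      | nil => simpa using continuous_const
      | cons a L ih =>
          simp only [List.map_cons, List.sum_cons]
          exact (continuous_const.mul (BB_cont f θ K hgc _)).add ih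
    exact this D
  have hc1 : Continuous fun s => θ * (D.map fun d => f d * BB f θ K g (D ++ [d + 1]) s).sum
      - (D.map f).sum * BB f θ K g D s :=
    (continuous_const.mul hcs).sub (continuous_const.mul (BB_cont f θ K hgc D))
  have h1 : ∫ s in (0 : ℝ)..S, (θ * (D.map fun d => f d * BB f θ K g (D ++ [d + 1]) s).sum
      - (D.map f).sum * BB f θ K g D s) = BB f θ K g D S - BB f θ K g D 0 :=
    intervalIntegral.integral_eq_sub_of_hasDerivAt
      (fun s _ => BB_deriv hD s (hg s)) (hc1.intervalIntegrable _ _)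
  have hc2 : Continuous fun s => θ * (D.map fun d => f d * BB f θ K g (D ++ [d + 1]) s).sum :=
    continuous_const.mul hcs
  have hc3 : Continuous fun s => (D.map f).sum * BB f θ K g D s :=
    continuous_const.mul (BB_cont f θ K hgc D)
  rw [intervalIntegral.integral_sub (hc2.intervalIntegrable _ _)
    (hc3.intervalIntegrable _ _),
    intervalIntegral.integral_const_mul, intervalIntegral.integral_const_mul] at h1
  rw [sum_integral (fun d => BB_cont f θ K hgc _)]
  linarith

lemma PP_step {f : ℕ → ℝ} {θ : ℝ} {K : ℕ} (D : List ℕ) (S : ℝ) :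
    θ * (D.map fun d => f d * PP f θ K (D ++ [d + 1]) S).sum
      = (D.map f).sum * PP f θ K D S
        - PP f θ K D S * (D.map fun d => f d * p f θ K (d + 1) S).sum := by
  have e1 : (D.map fun d => f d * PP f θ K (D ++ [d + 1]) S).sum
      = PP f θ K D S * (D.map fun d => f d * h f θ K (d + 1) S).sum := by
    rw [← sum_map_mul_left']
    congr 1
    refine List.map_congr_left fun d _ => ?_
    rw [PP_append]
    ring
  have e2 : (D.map f).sum = (D.map fun d => f d * p f θ K (d + 1) S).sum
      + θ * (D.map fun d => f d * h f θ K (d + 1) S).sum := by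
    rw [← sum_map_mul_left', ← sum_map_add']
    congr 1
    refine List.map_congr_left fun d _ => ?_
    rw [p]
    ring
  rw [e1, e2]
  ring

lemma PP_of_mem {f : ℕ → ℝ} {θ : ℝ} {K : ℕ} {D : List ℕ} {d : ℕ} (hd : d ∈ D) (hK : K ≤ d)
    (s : ℝ) : PP f θ K D s = 0 := by
  induction D with
  | nil => simp at hd
  | cons a D ih =>
      rw [PP_cons]
      rcases List.mem_cons.1 hd with h1 | h1
      · rw [← h1, h_ge hK, zero_mul]
      · rw [ih h1, mul_zero]

lemma PP_zero {f : ℕ → ℝ} {θ : ℝ} {K : ℕ} {D : List ℕ} (hD : ∀ d ∈ D, d < K) :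
    PP f θ K D 0 = 1 := by
  induction D with
  | nil => simp [PP]
  | cons a D ih =>
      rw [PP_cons, h_zero (hD a (by simp)), ih fun b hb => hD b (by simp [hb]), one_mul]

/-! ### The upper bound for the depth -/

/-- the functions `g` for the upper bound -/
noncomputable def gU (f : ℕ → ℝ) (θ : ℝ) (K i : ℕ) (s : ℝ) : ℝ := θ * f i * G f θ K (i + 1) s

lemma gU_cont (f : ℕ → ℝ) (θ : ℝ) (K i : ℕ) : Continuous (gU f θ K i) :=
  continuous_const.mul (G_cont f θ K (i + 1))

lemma gU_deriv (f : ℕ → ℝ) (θ : ℝ) (K : ℕ) (s : ℝ) (d : ℕ) (hd : d < K) :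
    HasDerivAt (gU f θ K d) (θ * f d * h f θ K (d + 1) s * gU f θ K (d + 1) s) s := by
  rcases lt_or_ge (d + 1) K with h1 | h1
  · refine ((G_deriv (f := f) (θ := θ) h1 s).const_mul (θ * f d)).congr_deriv ?_
    rw [gU]; ring
  · rw [h_ge h1]
    have : gU f θ K d = fun _ => θ * f d := funext fun s => by rw [gU, G_ge h1, mul_one]
    rw [this]
    simpa using hasDerivAt_const s (θ * f d)

/-- the potential for the upper bound -/
noncomputable def uU (f : ℕ → ℝ) (θ : ℝ) (K : ℕ) (S : ℝ) (D : List ℕ) : ℝ :=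
  (∫ s in (0 : ℝ)..S, BB f θ K (gU f θ K) D s) + PP f θ K D S

lemma uU_nonneg {f : ℕ → ℝ} (hf : ∀ k, 0 < f k) {θ : ℝ} (hθ0 : 0 ≤ θ) (K : ℕ) {S : ℝ}
    (hS : 0 ≤ S) (D : List ℕ) : 0 ≤ uU f θ K S D :=
  add_nonneg (intervalIntegral.integral_nonneg hS fun u hu => mul_nonneg (PP_nonneg _ _ _ _ _)
    (SS_nonneg (g := gU f θ K)
      (fun d => mul_nonneg (mul_nonneg hθ0 (hf d).le) (G_nonneg hf hθ0 hu.1)) _))
    (PP_nonneg _ _ _ _ _)

lemma uU_step {f : ℕ → ℝ} (hf : ∀ k, 0 < f k) {θ : ℝ} (hθ0 : 0 ≤ θ) (hθ1 : θ ≤ 1) {K : ℕ}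
    {S : ℝ} (hS : 0 ≤ S) {D : List ℕ} (hD : ∀ d ∈ D, d < K) :
    θ * (D.map fun d => f d * (if d + 1 < K then uU f θ K S (D ++ [d + 1]) else 1)).sum
      ≤ (D.map f).sum * uU f θ K S D := by
  have h1 := BB_integral (gU_cont f θ K) hD S (fun s d hd => gU_deriv f θ K s d hd)
  have h2 := PP_step (f := f) (θ := θ) (K := K) D S
  -- at time zero
  have h3 : BB f θ K (gU f θ K) D 0 = (D.map fun d => θ * f d * (if d + 1 < K then 0 else 1)).sum := by
    rw [BB, PP_zero hD, one_mul, SS]
    refine sum_map_congr fun d _ => ?_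
    rw [gU]
    split_ifs with h4
    · rw [G_zero h4]
    · rw [G_ge (not_lt.1 h4)]
  have h4 : BB f θ K (gU f θ K) D S ≤ PP f θ K D S *
      (D.map fun d => f d * p f θ K (d + 1) S).sum := by
    rw [BB, SS]
    refine mul_le_mul_of_nonneg_left (sum_map_le fun d _ => ?_) (PP_nonneg _ _ _ _ _)
    have h5 := G_add_h_le hf hθ0 hθ1 (K := K) (i := d + 1) hS
    have h6 : 0 ≤ G f θ K (d + 1) S := G_nonneg hf hθ0 hS
    have h7 : 0 ≤ h f θ K (d + 1) S := h_nonneg S
    rw [gU, p, mul_comm θ, mul_assoc]
    refine mul_le_mul_of_nonneg_left ?_ (hf d).le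
    nlinarith
  have h5 : (D.map fun d => f d * (if d + 1 < K then uU f θ K S (D ++ [d + 1]) else 1)).sum
      = (D.map fun d => f d * ∫ s in (0 : ℝ)..S, BB f θ K (gU f θ K) (D ++ [d + 1]) s).sum
        + (D.map fun d => f d * PP f θ K (D ++ [d + 1]) S).sum
        + (D.map fun d => f d * (if d + 1 < K then 0 else 1)).sum := by
    rw [← sum_map_add', ← sum_map_add']
    refine sum_map_congr fun d _ => ?_
    split_ifs with h6
    · rw [uU]; ring
    · have h7 : ∀ s, PP f θ K (D ++ [d + 1]) s = 0 := fun s =>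
        PP_of_mem (d := d + 1) (by simp) (not_lt.1 h6) s
      simp [BB, h7]
  have h6 : θ * (D.map fun d => f d * (if d + 1 < K then (0 : ℝ) else 1)).sum
      = (D.map fun d => θ * f d * (if d + 1 < K then 0 else 1)).sum := by
    rw [← sum_map_mul_left']
    refine sum_map_congr fun d _ => ?_
    ring
  rw [h5, mul_add, mul_add, h1, h2, h6, h3, uU]
  linarith

lemma uU_root {f : ℕ → ℝ} {θ : ℝ} {K : ℕ} (hK : 0 < K) (S : ℝ) :
    uU f θ K S [0] = G f θ K 0 S + h f θ K 0 S := by
  rw [uU, G_lt hK]
  have : ∀ s, BB f θ K (gU f θ K) [0] s = θ * f 0 * h f θ K 0 s * G f θ K (0 + 1) s := fun s => by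
    simp only [BB, PP, SS, gU, List.map_cons, List.map_nil, List.prod_cons, List.prod_nil,
      List.sum_cons, List.sum_nil]
    ring
  simp only [this]
  simp [PP]

/-- **The upper bound for the depth.** -/
theorem upper_prob {f : ℕ → ℝ} (hf : ∀ k, 0 < f k) {θ : ℝ} (hθ0 : 0 < θ) (hθ1 : θ ≤ 1) {K : ℕ}
    (hK : 0 < K) {S : ℝ} (hS : 0 ≤ S) (n : ℕ) :
    θ ^ n * EV f ({s | K ≤ height s}.indicator 1) n [] ≤ G f θ K 0 S + h f θ K 0 S := by
  classical
  set U : List ℕ → ℝ := fun t => if K ≤ height t then 1 else uU f θ K S (depths t) with hU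
  have h1 := EV_le_of_super hf hθ0 hθ1 (K := K) U (fun t => by
      rw [hU]; dsimp only; split_ifs
      · exact zero_le_one
      · exact uU_nonneg hf hθ0.le K hS _) (fun t ht => by rw [hU]; simp [ht]) (fun t ht => by
      have hD : ∀ a ∈ depths t, a < K := (height_lt_iff hK t).1 ht
      have h2 := uU_step hf hθ0.le hθ1 hS hD
      have h3 : ∀ i : Fin (depths t).length, U ((i : ℕ) :: t)
          = if (depths t).get i + 1 < K then uU f θ K S (depths t ++ [(depths t).get i + 1])
            else 1 := by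
        intro i
        rw [hU]
        dsimp only
        have h4 : K ≤ height ((i : ℕ) :: t) ↔ ¬ (depths t).get i + 1 < K := by
          rw [← not_lt, height_lt_iff hK, depths_cons, not_iff_not]
          constructor
          · intro h; exact h _ (by simp)
          · intro h a ha
            rcases List.mem_append.1 ha with h5 | h5
            · exact hD a h5
            · rw [List.mem_singleton.1 h5]; exact h
        by_cases h5 : (depths t).get i + 1 < K
        · rw [if_neg (by rw [h4]; exact not_not.2 h5), if_pos h5, depths_cons]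
        · rw [if_pos (h4.2 h5), if_neg h5]
      have h4 : U t = uU f θ K S (depths t) := by rw [hU]; simp [not_le.2 ht]
      have h5 : ∑ i : Fin (depths t).length, f ((depths t).get i) / total f t * U ((i : ℕ) :: t)
          = ((depths t).map fun d => f d * (if d + 1 < K then uU f θ K S (depths t ++ [d + 1])
            else 1)).sum / total f t := by
        rw [← sum_fin_get (f := fun d => f d * (if d + 1 < K then
          uU f θ K S (depths t ++ [d + 1]) else 1)), Finset.sum_div]
        refine Finset.sum_congr rfl fun i _ => ?_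
        rw [h3 i]
        ring
      rw [h5, h4, ← mul_div_assoc, div_le_iff₀ (total_pos hf t), mul_comm (uU f θ K S (depths t))]
      exact h2) n []
  refine h1.trans ?_
  rw [hU]
  dsimp only
  have h2 : ¬ K ≤ height [] := by
    rw [not_le, height_lt_iff hK]; intro a ha; simp [depths] at ha; omega
  rw [if_neg h2, depths, uU_root hK]

/-! ### The lower bound for the depth -/

/-- the potential for the lower bound -/
noncomputable def uL (f : ℕ → ℝ) (K : ℕ) (C S : ℝ) (D : List ℕ) : ℝ :=
  (∫ s in (0 : ℝ)..S, BB f 1 K (m f K) D s) + C * PP f 1 K D S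

lemma uL_nonneg {f : ℕ → ℝ} (hf : ∀ k, 0 < f k) (K : ℕ) {C S : ℝ} (hC : 0 ≤ C)
    (hS : 0 ≤ S) (D : List ℕ) : 0 ≤ uL f K C S D :=
  add_nonneg (intervalIntegral.integral_nonneg hS fun u hu => mul_nonneg (PP_nonneg _ _ _ _ _)
    (SS_nonneg (fun d => m_nonneg hf hu.1) _)) (mul_nonneg hC (PP_nonneg _ _ _ _ _))

lemma uL_step {f : ℕ → ℝ} {K : ℕ} {C S : ℝ}
    (hCS : ∀ d < K, m f K d S ≤ C * (f d * p f 1 K (d + 1) S))
    {D : List ℕ} (hD : ∀ d ∈ D, d < K) :
    (D.map fun d => f d * (if d + 1 < K then uL f K C S (D ++ [d + 1]) else 0)).sum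
      ≤ (D.map f).sum * uL f K C S D - (D.map f).sum := by
  have h1 := BB_integral (f := f) (θ := 1) (m_cont f K) hD S (fun s d hd => by
    simpa [mul_assoc] using m_deriv (f := f) hd s)
  have h2 := PP_step (f := f) (θ := 1) (K := K) D S
  have h3 : BB f 1 K (m f K) D 0 = (D.map f).sum := by
    rw [BB, PP_zero hD, one_mul, SS]
    exact sum_map_congr fun d hd => m_zero (hD d hd)
  have h4 : BB f 1 K (m f K) D S ≤ C * (PP f 1 K D S *
      (D.map fun d => f d * p f 1 K (d + 1) S).sum) := by
    have h5 : SS (m f K) D S ≤ C * (D.map fun d => f d * p f 1 K (d + 1) S).sum := by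
      rw [← sum_map_mul_left', SS]
      exact sum_map_le fun d hd => hCS d (hD d hd)
    calc BB f 1 K (m f K) D S
        ≤ PP f 1 K D S * (C * (D.map fun d => f d * p f 1 K (d + 1) S).sum) :=
          mul_le_mul_of_nonneg_left h5 (PP_nonneg _ _ _ _ _)
      _ = _ := by ring
  have h5 : (D.map fun d => f d * (if d + 1 < K then uL f K C S (D ++ [d + 1]) else 0)).sum
      = (D.map fun d => f d * ∫ s in (0 : ℝ)..S, BB f 1 K (m f K) (D ++ [d + 1]) s).sum
        + C * (D.map fun d => f d * PP f 1 K (D ++ [d + 1]) S).sum := by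
    rw [← sum_map_mul_left', ← sum_map_add']
    refine sum_map_congr fun d _ => ?_
    split_ifs with h6
    · rw [uL]; ring
    · have h7 : ∀ s, PP f 1 K (D ++ [d + 1]) s = 0 := fun s =>
        PP_of_mem (d := d + 1) (by simp) (not_lt.1 h6) s
      simp [BB, h7]
  rw [one_mul] at h1 h2
  rw [h5, h1, h2, h3, uL]
  linarith

lemma uL_root {f : ℕ → ℝ} {K : ℕ} (C S : ℝ) :
    uL f K C S [0] = (∫ s in (0 : ℝ)..S, h f 1 K 0 s * m f K 0 s) + C * h f 1 K 0 S := by
  rw [uL]
  simp [BB, PP, SS]

/-- **The lower bound for the depth.** -/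
theorem lower_prob {f : ℕ → ℝ} (hf : ∀ k, 0 < f k) {K : ℕ}
    (hK : 0 < K) {C S : ℝ} (hC : 0 ≤ C) (hS : 0 ≤ S)
    (hCS : ∀ d < K, m f K d S ≤ C * (f d * p f 1 K (d + 1) S)) (n : ℕ) :
    (n + 1) * EV f ({s | height s < K}.indicator 1) n []
      ≤ (∫ s in (0 : ℝ)..S, h f 1 K 0 s * m f K 0 s) + C * h f 1 K 0 S := by
  classical
  set U : List ℕ → ℝ := fun t => if K ≤ height t then 0 else uL f K C S (depths t) with hU
  have h1 := EV_le_of_drift hf (K := K) U (fun t => by
      rw [hU]; dsimp only; split_ifs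
      · exact le_rfl
      · exact uL_nonneg hf K hC hS _) (fun t ht => by
      have hD : ∀ a ∈ depths t, a < K := (height_lt_iff hK t).1 ht
      have h2 := uL_step hCS hD
      have h3 : ∀ i : Fin (depths t).length, U ((i : ℕ) :: t)
          = if (depths t).get i + 1 < K then uL f K C S (depths t ++ [(depths t).get i + 1])
            else 0 := by
        intro i
        rw [hU]
        dsimp only
        have h4 : K ≤ height ((i : ℕ) :: t) ↔ ¬ (depths t).get i + 1 < K := by
          rw [← not_lt, height_lt_iff hK, depths_cons, not_iff_not]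
          constructor
          · intro h; exact h _ (by simp)
          · intro h a ha
            rcases List.mem_append.1 ha with h5 | h5
            · exact hD a h5
            · rw [List.mem_singleton.1 h5]; exact h
        by_cases h5 : (depths t).get i + 1 < K
        · rw [if_neg (by rw [h4]; exact not_not.2 h5), if_pos h5, depths_cons]
        · rw [if_pos (h4.2 h5), if_neg h5]
      have h4 : U t = uL f K C S (depths t) := by rw [hU]; simp [not_le.2 ht]
      have h5 : ∑ i : Fin (depths t).length, f ((depths t).get i) / total f t * U ((i : ℕ) :: t)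
          = ((depths t).map fun d => f d * (if d + 1 < K then uL f K C S (depths t ++ [d + 1])
            else 0)).sum / total f t := by
        rw [← sum_fin_get (f := fun d => f d * (if d + 1 < K then
          uL f K C S (depths t ++ [d + 1]) else 0)), Finset.sum_div]
        refine Finset.sum_congr rfl fun i _ => ?_
        rw [h3 i]
        ring
      rw [h5, h4, div_le_iff₀ (total_pos hf t)]
      refine h2.trans (le_of_eq ?_)
      rw [total]
      ring) n []
  refine h1.trans ?_
  rw [hU]
  dsimp only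
  have h2 : ¬ K ≤ height [] := by
    rw [not_le, height_lt_iff hK]; intro a ha; simp [depths] at ha; omega
  rw [if_neg h2, depths, uL_root]

end Pool.Agent.H420.DW
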