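import Mathlib

set_option autoImplicit false

open Filter Topology

/-!
# A finite family of exponentials
-/

namespace Pool.Agent.H420.DW

/-- `exp x - 1 ≤ x + x²` -/
lemma exp_sub_one_le {x : ℝ} (h0 : 0 ≤ x) (h1 : x ≤ 1) : Real.exp x - 1 ≤ x + x ^ 2 := by
  have := Real.abs_exp_sub_one_sub_id_le (x := x) (by rw [abs_of_nonneg h0]; exact h1)
  have h2 := (abs_le.1 this).2
  linarith

/-- `exp (x - 1) ≤ (1 + x²) / 2` on `[0, 1]` -/
lemma exp_sub_one_le_quad {x : ℝ} (h0 : 0 ≤ x) (h1 : x ≤ 1) :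
    Real.exp (x - 1) ≤ (1 + x ^ 2) / 2 := by
  -- put y = 1 - x ≥ 0: exp (-y) ≤ 1 - y + y²/2
  set y := 1 - x with hy
  have hy0 : 0 ≤ y := by linarith
  have h2 : 1 + y + y ^ 2 / 2 ≤ Real.exp y := Real.quadratic_le_exp_of_nonneg hy0
  have h3 : Real.exp (-y) * Real.exp y = 1 := by rw [← Real.exp_add]; simp
  have h4 : 0 < Real.exp (-y) := Real.exp_pos _
  have h5 : Real.exp (-y) * (1 + y + y ^ 2 / 2) ≤ 1 := by nlinarith
  have h6 : 0 < 1 + y + y ^ 2 / 2 := by positivity
  have h7 : Real.exp (-y) ≤ 1 / (1 + y + y ^ 2 / 2) := by rw [le_div_iff₀ h6]; exact h5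
  have h8 : 1 / (1 + y + y ^ 2 / 2) ≤ 1 - y + y ^ 2 / 2 := by
    rw [div_le_iff₀ h6]
    nlinarith [sq_nonneg (y ^ 2)]
  have h9 : x - 1 = -y := by rw [hy]; ring
  rw [h9]
  refine (h7.trans h8).trans (le_of_eq ?_)
  rw [hy]; ring

/-- the data of the family -/
noncomputable def bb (η τ : ℝ) (r : ℕ) : ℝ := (1 + η) * Real.exp (r * τ)

/-- the exponents -/
noncomputable def gg (η τ : ℝ) (r : ℕ) : ℝ :=
  (Real.exp τ - 1) * ∑ q ∈ Finset.range r, (q * τ + η / 2)

lemma bb_succ (η τ : ℝ) (r : ℕ) : bb η τ (r + 1) = Real.exp τ * bb η τ r := by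
  unfold bb
  have : ((r + 1 : ℕ) : ℝ) * τ = τ + r * τ := by push_cast; ring
  rw [this, Real.exp_add]; ring

lemma gg_succ (η τ : ℝ) (r : ℕ) :
    gg η τ (r + 1) = gg η τ r + (Real.exp τ - 1) * (r * τ + η / 2) := by
  unfold gg; rw [Finset.sum_range_succ]; ring

/-- **The family.** -/
theorem yfam {ε : ℝ} (hε0 : 0 < ε) (hε1 : ε ≤ 1) :
    ∃ (N : ℕ) (b g : ℕ → ℝ), (∀ r, 1 ≤ b r) ∧ g 0 = 0 ∧ (∀ r, 0 ≤ g r) ∧
      (∀ r ≤ N, b r * ((1 - ε) / Real.exp 1) - g r ≤ 1 / 2 + ε) ∧
      ∃ X₀ : ℝ, ∀ X, X₀ ≤ X → ∀ σ, 0 ≤ σ → σ ≤ (1 - ε) / Real.exp 1 →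
        ∑ r ∈ Finset.range (N + 1), Real.exp (1 / X + b r * (1 + 1 / X) * σ) *
            Real.exp (X * (b r * σ - g r))
          ≤ ∑ r ∈ Finset.range (N + 1), b r * Real.exp (X * (b r * σ - g r)) := by
  obtain ⟨N, hN⟩ : ∃ N : ℕ, 1 / ε ≤ N := exists_nat_ge _
  set η : ℝ := ε / 8 with hη
  have hη0 : 0 < η := by positivity
  have hη8 : η ≤ 1 / 8 := by linarith
  have hηsq : η ^ 2 ≤ η / 8 := by nlinarith
  have hN0 : (0 : ℝ) < N := (one_div_pos.2 hε0).trans_le hN
  set τ : ℝ := (1 - η) / N with hτ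
  have hτ0 : 0 < τ := div_pos (by linarith) hN0
  have hNτ : (N : ℝ) * τ = 1 - η := by rw [hτ]; field_simp
  have hτε : τ ≤ ε := by
    rw [hτ, div_le_iff₀ hN0]
    have : 1 ≤ ε * N := by
      rw [div_le_iff₀ hε0] at hN; linarith
    linarith
  have hτ1 : τ ≤ 1 := hτε.trans hε1
  have he0 : 0 < Real.exp 1 := Real.exp_pos 1
  have hb1 : ∀ r, 1 ≤ bb η τ r := fun r => by
    unfold bb
    have h1 : (1 : ℝ) ≤ Real.exp (r * τ) := Real.one_le_exp (by positivity)
    nlinarith
  have hb0 : ∀ r, 0 < bb η τ r := fun r => one_pos.trans_le (hb1 r)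
  have hexpτ : τ ≤ Real.exp τ - 1 := by have := Real.add_one_le_exp τ; linarith
  have hexpτ' : Real.exp τ - 1 ≤ τ + τ ^ 2 := exp_sub_one_le hτ0.le hτ1
  have hg0 : ∀ r, 0 ≤ gg η τ r := fun r => by
    unfold gg
    exact mul_nonneg (hτ0.le.trans hexpτ) (Finset.sum_nonneg fun q _ => by positivity)
  -- lower bound for g
  have hg1 : ∀ r : ℕ, ((r * τ) ^ 2 - (r * τ) * τ) / 2 ≤ gg η τ r := by
    intro r
    induction r with
    | zero => simp [gg]
    | succ r ih =>
        rw [gg_succ]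
        have h1 : τ * (r * τ + η / 2) ≤ (Real.exp τ - 1) * (r * τ + η / 2) :=
          mul_le_mul_of_nonneg_right hexpτ (by positivity)
        push_cast
        nlinarith [mul_pos hτ0 hη0]
  have hval : ∀ r ≤ N, bb η τ r * ((1 - ε) / Real.exp 1) - gg η τ r ≤ 1 / 2 + ε := by
    intro r hr
    set x : ℝ := r * τ with hx
    have hx0 : 0 ≤ x := by positivity
    have hx1 : x ≤ 1 := by
      have h1 : (r : ℝ) * τ ≤ N * τ := mul_le_mul_of_nonneg_right (Nat.cast_le.2 hr) hτ0.le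
      linarith
    have h1 : bb η τ r * ((1 - ε) / Real.exp 1) = (1 + η) * (1 - ε) * Real.exp (x - 1) := by
      unfold bb
      rw [Real.exp_sub]; ring
    have h2 := exp_sub_one_le_quad hx0 hx1
    have h3 : (1 + η) * (1 - ε) ≤ 1 := by rw [hη]; nlinarith
    have h4 := hg1 r
    rw [← hx] at h4
    have h5 : (1 + η) * (1 - ε) * Real.exp (x - 1) ≤ (1 + x ^ 2) / 2 := by
      rcases le_total 0 (1 - ε) with h6 | h6
      · calc (1 + η) * (1 - ε) * Real.exp (x - 1) ≤ 1 * Real.exp (x - 1) :=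
              mul_le_mul_of_nonneg_right h3 (Real.exp_pos _).le
          _ ≤ _ := by rw [one_mul]; exact h2
      · have : (1 + η) * (1 - ε) ≤ 0 := mul_nonpos_of_nonneg_of_nonpos (by linarith) h6
        have h7 : (1 + η) * (1 - ε) * Real.exp (x - 1) ≤ 0 :=
          mul_nonpos_of_nonpos_of_nonneg this (Real.exp_pos _).le
        have : 0 ≤ (1 + x ^ 2) / 2 := by positivity
        linarith
    rw [h1]
    nlinarith
  refine ⟨N, bb η τ, gg η τ, hb1, by simp [gg], hg0, hval, ?_⟩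
  -- the inequality
  set sc : ℕ → ℝ := fun r => (r * τ + η / 2) / bb η τ r with hsc
  have hscm : ∀ r, r + 1 ≤ N → sc r ≤ sc (r + 1) := by
    intro r hr
    rw [hsc]
    dsimp only
    rw [bb_succ, div_le_div_iff₀ (hb0 r) (mul_pos (Real.exp_pos _) (hb0 r))]
    have h1 : ((r + 1 : ℕ) : ℝ) * τ ≤ 1 - η := by
      rw [← hNτ]; exact mul_le_mul_of_nonneg_right (Nat.cast_le.2 hr) hτ0.le
    have h2 : (r * τ + η / 2) * Real.exp τ ≤ ((r + 1 : ℕ) : ℝ) * τ + η / 2 := by
      push_cast at h1 ⊢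
      have h3 : 0 ≤ (r : ℝ) * τ + η / 2 := by positivity
      have h4 : (r : ℝ) * τ + η / 2 ≤ 1 - τ := by nlinarith
      have h5 : (r * τ + η / 2) * (Real.exp τ - 1) ≤ (1 - τ) * (τ + τ ^ 2) :=
        mul_le_mul h4 hexpτ' (hτ0.le.trans hexpτ) (by linarith)
      nlinarith [mul_pos hτ0 (mul_pos hτ0 hτ0)]
    calc (r * τ + η / 2) * (Real.exp τ * bb η τ r)
        = ((r * τ + η / 2) * Real.exp τ) * bb η τ r := by ring
      _ ≤ (((r + 1 : ℕ) : ℝ) * τ + η / 2) * bb η τ r :=
          mul_le_mul_of_nonneg_right h2 (hb0 r).le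
  have hscm' : ∀ r r', r ≤ r' → r' ≤ N → sc r ≤ sc r' := by
    intro r r' hr
    induction r', hr using Nat.le_induction with
    | base => intro _; exact le_rfl
    | succ r' _ ih => intro h1; exact (ih (by omega)).trans (hscm r' h1)
  -- logs
  have hlog : ∀ r : ℕ, r * τ + η - η ^ 2 ≤ Real.log (bb η τ r) := by
    intro r
    unfold bb
    rw [Real.log_mul (by positivity) (Real.exp_pos _).ne', Real.log_exp]
    have h1 : 1 - (1 + η)⁻¹ ≤ Real.log (1 + η) := Real.one_sub_inv_le_log_of_pos (by positivity)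
    have h2 : η - η ^ 2 ≤ 1 - (1 + η)⁻¹ := by
      have h3 : 1 - (1 + η)⁻¹ = η / (1 + η) := by field_simp; ring
      rw [h3, le_div_iff₀ (by positivity)]
      nlinarith [mul_pos hη0 (mul_pos hη0 hη0)]
    linarith
  have hbN : ∀ r ≤ N, bb η τ r ≤ 4 := by
    intro r hr
    unfold bb
    have h1 : (r : ℝ) * τ ≤ 1 := by
      have h2 : (r : ℝ) * τ ≤ N * τ := mul_le_mul_of_nonneg_right (Nat.cast_le.2 hr) hτ0.le
      linarith
    have h2 : Real.exp (r * τ) ≤ 2.7182818286 :=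
      (Real.exp_le_exp.2 h1).trans Real.exp_one_lt_d9.le
    nlinarith [Real.exp_pos ((r : ℝ) * τ)]
  set γ : ℝ := η / 8 with hγ
  have hγ0 : 0 < γ := by positivity
  set c₁ : ℝ := 1 - Real.exp (-(γ / 2)) with hc₁
  have hc₁0 : 0 < c₁ := by
    have : Real.exp (-(γ / 2)) < 1 := by rw [Real.exp_lt_one_iff]; linarith
    rw [hc₁]; linarith
  set C₂ : ℝ := Real.exp 9 with hC₂
  -- choice of X₀
  obtain ⟨X₁, hX₁⟩ : ∃ X₁ : ℝ, ∀ X, X₁ ≤ X → N * C₂ * Real.exp (-(X * (τ * (η / 4)))) ≤ c₁ := by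
    have h1 : Tendsto (fun X : ℝ => N * C₂ * Real.exp (-(X * (τ * (η / 4))))) atTop (𝓝 0) := by
      have h2 : Tendsto (fun X : ℝ => Real.exp (-(X * (τ * (η / 4))))) atTop (𝓝 0) :=
        Real.tendsto_exp_neg_atTop_nhds_zero.comp
          (tendsto_id.atTop_mul_const (by positivity))
      simpa using h2.const_mul (N * C₂)
    obtain ⟨X₁, h⟩ := Filter.eventually_atTop.1 (h1.eventually_lt_const hc₁0)
    exact ⟨X₁, fun X hX => (h X hX).le⟩
  refine ⟨max (max X₁ (10 / γ)) 1, fun X hX σ hσ0 hσ1 => ?_⟩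
  have hX1 : X₁ ≤ X := (le_max_left _ _).trans ((le_max_left _ _).trans hX)
  have hX2 : 10 / γ ≤ X := (le_max_right _ _).trans ((le_max_left _ _).trans hX)
  have hX3 : 1 ≤ X := (le_max_right _ _).trans hX
  have hX0 : 0 < X := one_pos.trans_le hX3
  have hXi : 1 / X ≤ γ / 10 := by
    rw [div_le_iff₀ hX0]
    rw [div_le_iff₀ hγ0] at hX2
    linarith
  have hXi0 : 0 < 1 / X := one_div_pos.2 hX0
  have hXi1 : 1 / X ≤ 1 := by rw [div_le_one hX0]; exact hX3
  have hσ1' : σ ≤ 1 := by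
    refine hσ1.trans ?_
    rw [div_le_one he0]
    have : (1 : ℝ) ≤ Real.exp 1 := Real.one_le_exp zero_le_one
    linarith
  set E : ℕ → ℝ := fun r => Real.exp (X * (bb η τ r * σ - gg η τ r)) with hE
  have hE0 : ∀ r, 0 < E r := fun r => Real.exp_pos _
  set Gm : ℕ → ℝ := fun r => bb η τ r - Real.exp (1 / X + bb η τ r * (1 + 1 / X) * σ) with hGm
  -- good terms
  have hgood : ∀ r ≤ N, bb η τ r * σ ≤ Real.log (bb η τ r) - γ → c₁ ≤ Gm r := by
    intro r hr h1
    have hlb : Real.log (bb η τ r) ≤ 3 := by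
      have := Real.log_le_sub_one_of_pos (hb0 r)
      have := hbN r hr
      linarith
    have h2 : 1 / X + bb η τ r * (1 + 1 / X) * σ ≤ Real.log (bb η τ r) - γ / 2 := by
      have h3 : bb η τ r * (1 + 1 / X) * σ = bb η τ r * σ + (1 / X) * (bb η τ r * σ) := by ring
      have h4 : (1 / X) * (bb η τ r * σ) ≤ (γ / 10) * 3 := by
        refine mul_le_mul hXi (by linarith) (mul_nonneg (hb0 r).le hσ0) (by positivity)
      rw [h3]
      linarith
    have h3 : Real.exp (1 / X + bb η τ r * (1 + 1 / X) * σ)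
        ≤ bb η τ r * Real.exp (-(γ / 2)) := by
      refine (Real.exp_le_exp.2 h2).trans (le_of_eq ?_)
      rw [sub_eq_add_neg, Real.exp_add, Real.exp_log (hb0 r)]
    have h4 := hb1 r
    rw [hGm]
    dsimp only
    nlinarith
  have hbad : ∀ r ≤ N, -C₂ ≤ Gm r := by
    intro r hr
    have h1 : Real.exp (1 / X + bb η τ r * (1 + 1 / X) * σ) ≤ C₂ := by
      rw [hC₂]
      refine Real.exp_le_exp.2 ?_
      have h2 : bb η τ r * (1 + 1 / X) * σ ≤ 4 * 2 * 1 :=
        mul_le_mul (mul_le_mul (hbN r hr) (by linarith) (by positivity) (by norm_num)) hσ1' hσ0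
          (by norm_num)
      linarith
    have := (hb0 r).le
    rw [hGm]; dsimp only; linarith
  -- the best index
  obtain ⟨rs, hrsN, hrs1, hrs2, hrs3⟩ : ∃ rs ≤ N, c₁ ≤ Gm rs ∧ (∀ r, rs < r → r ≤ N → 0 ≤ Gm r) ∧
      (∀ r < rs, sc r < σ) := by
    by_cases hex : ∃ r, r ≤ N ∧ σ ≤ sc r
    · classical
      have hfind := Nat.find_spec hex
      set rs := Nat.find hex with hrs
      have hle : ∀ r, r ≤ N → σ ≤ sc r → c₁ ≤ Gm r := by
        intro r hr h1
        refine hgood r hr ?_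
        have h2 : bb η τ r * σ ≤ r * τ + η / 2 := by
          have := mul_le_mul_of_nonneg_left h1 (hb0 r).le
          rw [hsc] at this
          dsimp only at this
          rwa [mul_div_cancel₀ _ (hb0 r).ne'] at this
        have h3 := hlog r
        linarith
      refine ⟨rs, hfind.1, hle rs hfind.1 hfind.2, fun r h1 h2 => ?_, fun r h1 => ?_⟩
      · exact hc₁0.le.trans (hle r h2 (hfind.2.trans (hscm' rs r h1.le h2)))
      · have := Nat.find_min hex h1
        push Not at this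
        exact this (by omega)
    · push Not at hex
      refine ⟨N, le_rfl, hgood N le_rfl ?_, fun r h1 h2 => by omega, fun r h1 => hex r h1.le⟩
      have h1 : bb η τ N * σ ≤ bb η τ N * ((1 - ε) / Real.exp 1) :=
        mul_le_mul_of_nonneg_left hσ1 (hb0 N).le
      have h2 : bb η τ N * ((1 - ε) / Real.exp 1) = (1 + η) * (1 - ε) * Real.exp (-η) := by
        unfold bb
        rw [hNτ, sub_eq_add_neg, Real.exp_add]
        field_simp
      have h3 : (1 + η) * Real.exp (-η) ≤ 1 := by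
        have h4 : (1 + η) ≤ Real.exp η := by have := Real.add_one_le_exp η; linarith
        calc (1 + η) * Real.exp (-η) ≤ Real.exp η * Real.exp (-η) :=
              mul_le_mul_of_nonneg_right h4 (Real.exp_pos _).le
          _ = 1 := by rw [← Real.exp_add]; simp
      have h4 := hlog N
      rw [hNτ] at h4
      have h5 : (1 + η) * (1 - ε) * Real.exp (-η) ≤ 1 - ε := by
        have : (1 + η) * (1 - ε) * Real.exp (-η) = (1 - ε) * ((1 + η) * Real.exp (-η)) := by ring
        rw [this]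
        exact mul_le_of_le_one_right (by linarith) h3
      linarith
  -- comparison of the terms
  have hstep : ∀ r, sc r ≤ σ → Real.exp (X * (τ * (bb η τ r * (σ - sc r)))) * E r ≤ E (r + 1) := by
    intro r h1
    rw [hE]
    dsimp only
    rw [← Real.exp_add, Real.exp_le_exp, ← mul_add]
    refine mul_le_mul_of_nonneg_left ?_ hX0.le
    rw [bb_succ, gg_succ]
    have h2 : bb η τ r * sc r = r * τ + η / 2 := by
      rw [hsc]; dsimp only; rw [mul_div_cancel₀ _ (hb0 r).ne']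
    have h3 : 0 ≤ bb η τ r * (σ - sc r) := mul_nonneg (hb0 r).le (by linarith)
    have h4 : τ * (bb η τ r * (σ - sc r)) ≤ (Real.exp τ - 1) * (bb η τ r * (σ - sc r)) :=
      mul_le_mul_of_nonneg_right hexpτ h3
    have h5 : (Real.exp τ - 1) * (bb η τ r * (σ - sc r))
        = (Real.exp τ - 1) * (bb η τ r * σ) - (Real.exp τ - 1) * (r * τ + η / 2) := by
      rw [← h2]; ring
    linarith
  have hmon : ∀ r ≤ rs, E r ≤ E rs := by
    intro r hr
    obtain ⟨k, hk⟩ := Nat.exists_eq_add_of_le hr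
    have : ∀ k, r + k ≤ rs → E r ≤ E (r + k) := by
      intro k
      induction k with
      | zero => intro _; exact le_rfl
      | succ k ih =>
          intro h1
          have h2 := hstep (r + k) (hrs3 (r + k) (by omega)).le
          have h3 : 1 ≤ Real.exp (X * (τ * (bb η τ (r + k) * (σ - sc (r + k))))) :=
            Real.one_le_exp (mul_nonneg hX0.le (mul_nonneg hτ0.le (mul_nonneg (hb0 _).le
              (by linarith [hrs3 (r + k) (by omega)]))))
          have h4 := hE0 (r + k)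
          have h5 : E (r + k) ≤ E (r + (k + 1)) := by
            refine le_trans ?_ h2
            nlinarith
          exact (ih (by omega)).trans h5
    rw [hk]; exact this k hk.ge
  have hterm : ∀ r < rs, -(C₂ * Real.exp (-(X * (τ * (η / 4)))) * E rs) ≤ Gm r * E r := by
    intro r hr
    have hrN : r ≤ N := by omega
    by_cases h1 : bb η τ r * σ ≤ Real.log (bb η τ r) - γ
    · have h2 := hgood r hrN h1
      have h3 : 0 ≤ Gm r * E r := mul_nonneg (hc₁0.le.trans h2) (hE0 r).le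
      have h4 : 0 ≤ C₂ * Real.exp (-(X * (τ * (η / 4)))) * E rs := by
        have := hE0 rs; positivity
      linarith
    · push Not at h1
      have h2 := hlog r
      have h3 : bb η τ r * sc r = r * τ + η / 2 := by
        rw [hsc]; dsimp only; rw [mul_div_cancel₀ _ (hb0 r).ne']
      have h4 : η / 4 ≤ bb η τ r * (σ - sc r) := by
        rw [mul_sub, h3]
        linarith
      have h5 := hstep r (hrs3 r hr).le
      have h6 : E (r + 1) ≤ E rs := hmon (r + 1) (by omega)
      have h7 : Real.exp (X * (τ * (η / 4))) ≤ Real.exp (X * (τ * (bb η τ r * (σ - sc r)))) :=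
        Real.exp_le_exp.2 (mul_le_mul_of_nonneg_left (mul_le_mul_of_nonneg_left h4 hτ0.le) hX0.le)
      have h8 : Real.exp (X * (τ * (η / 4))) * E r ≤ E rs :=
        (mul_le_mul_of_nonneg_right h7 (hE0 r).le).trans (h5.trans h6)
      have h9 : E r ≤ Real.exp (-(X * (τ * (η / 4)))) * E rs := by
        have h10 := mul_le_mul_of_nonneg_left h8 (Real.exp_pos (-(X * (τ * (η / 4))))).le
        rw [← mul_assoc, ← Real.exp_add, neg_add_cancel, Real.exp_zero, one_mul] at h10
        exact h10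
      have h10 := hbad r hrN
      have h11 : 0 ≤ C₂ := (Real.exp_pos _).le
      calc -(C₂ * Real.exp (-(X * (τ * (η / 4)))) * E rs)
          = -C₂ * (Real.exp (-(X * (τ * (η / 4)))) * E rs) := by ring
        _ ≤ -C₂ * E r := mul_le_mul_of_nonpos_left h9 (by linarith)
        _ ≤ Gm r * E r := mul_le_mul_of_nonneg_right h10 (hE0 r).le
  have hfin : 0 ≤ ∑ r ∈ Finset.range (N + 1), Gm r * E r := by
    have hsplit : ∑ r ∈ Finset.range (N + 1), Gm r * E r
        = ∑ r ∈ Finset.range rs, Gm r * E r + (Gm rs * E rs +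
          ∑ r ∈ Finset.Ico (rs + 1) (N + 1), Gm r * E r) := by
      rw [← Finset.sum_eq_sum_Ico_succ_bot (by omega) (fun r => Gm r * E r),
        Finset.range_eq_Ico, Finset.range_eq_Ico,
        Finset.sum_Ico_consecutive _ (by omega) (by omega)]
    rw [hsplit]
    have h1 : -((N : ℝ) * C₂ * Real.exp (-(X * (τ * (η / 4)))) * E rs)
        ≤ ∑ r ∈ Finset.range rs, Gm r * E r := by
      have h2 : ∑ r ∈ Finset.range rs, -(C₂ * Real.exp (-(X * (τ * (η / 4)))) * E rs)
          ≤ ∑ r ∈ Finset.range rs, Gm r * E r :=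
        Finset.sum_le_sum fun r hr => hterm r (Finset.mem_range.1 hr)
      rw [Finset.sum_const, Finset.card_range, nsmul_eq_mul] at h2
      refine le_trans ?_ h2
      have h3 : (rs : ℝ) ≤ N := Nat.cast_le.2 hrsN
      have h4 : 0 ≤ C₂ * Real.exp (-(X * (τ * (η / 4)))) * E rs := by
        have := hE0 rs; positivity
      nlinarith
    have h2 : c₁ * E rs ≤ Gm rs * E rs := mul_le_mul_of_nonneg_right hrs1 (hE0 rs).le
    have h3 : 0 ≤ ∑ r ∈ Finset.Ico (rs + 1) (N + 1), Gm r * E r :=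
      Finset.sum_nonneg fun r hr => by
        rw [Finset.mem_Ico] at hr
        exact mul_nonneg (hrs2 r (by omega) (by omega)) (hE0 r).le
    have h4 := mul_le_mul_of_nonneg_right (hX₁ X hX1) (hE0 rs).le
    linarith
  have hfin' : ∑ r ∈ Finset.range (N + 1), Gm r * E r
      = ∑ r ∈ Finset.range (N + 1), bb η τ r * Real.exp (X * (bb η τ r * σ - gg η τ r))
        - ∑ r ∈ Finset.range (N + 1), Real.exp (1 / X + bb η τ r * (1 + 1 / X) * σ) *
          Real.exp (X * (bb η τ r * σ - gg η τ r)) := by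
    rw [← Finset.sum_sub_distrib]
    refine Finset.sum_congr rfl fun r _ => ?_
    rw [hGm, hE]; ring
  linarith

end Pool.Agent.H420.DW
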