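import Pool.Agent.H420.DW.Low1
import Pool.Agent.H420.DW.Mu
import Pool.Agent.H420.DW.Yfam
import Pool.Agent.H420.DW.Pot

set_option autoImplicit false

open Filter Topology MeasureTheory intervalIntegral

/-!
# The lower bound for the depth
-/

namespace Pool.Agent.H420.DW

/-- the functions `Y` -/
noncomputable def Yf (c : ℝ) (N : ℕ) (b g : ℕ → ℝ) (i : ℕ) (s : ℝ) : ℝ :=
  ∑ r ∈ Finset.range (N + 1), Real.exp (b r * weight c i * s - g r * XX c i)

/-- their derivatives -/
noncomputable def Yf' (c : ℝ) (N : ℕ) (b g : ℕ → ℝ) (i : ℕ) (s : ℝ) : ℝ :=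
  ∑ r ∈ Finset.range (N + 1), b r * weight c i * Real.exp (b r * weight c i * s - g r * XX c i)

lemma Yf_deriv (c : ℝ) (N : ℕ) (b g : ℕ → ℝ) (i : ℕ) (s : ℝ) :
    HasDerivAt (Yf c N b g i) (Yf' c N b g i s) s := by
  unfold Yf Yf'
  refine HasDerivAt.fun_sum fun r _ => ?_
  have h1 : HasDerivAt (fun s : ℝ => b r * weight c i * s - g r * XX c i)
      (b r * weight c i) s := by
    simpa using ((hasDerivAt_id s).const_mul (b r * weight c i)).sub_const (g r * XX c i)
  refine h1.exp.congr_deriv ?_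
  ring

lemma Yf_cont (c : ℝ) (N : ℕ) (b g : ℕ → ℝ) (i : ℕ) : Continuous (Yf c N b g i) := by
  unfold Yf; fun_prop

lemma Yf'_cont (c : ℝ) (N : ℕ) (b g : ℕ → ℝ) (i : ℕ) : Continuous (Yf' c N b g i) := by
  unfold Yf'; fun_prop

lemma Yf_mono (c : ℝ) (N : ℕ) {b : ℕ → ℝ} (g : ℕ → ℝ) (hb : ∀ r, 1 ≤ b r) (i : ℕ) :
    Monotone (Yf c N b g i) := by
  intro s s' h
  unfold Yf
  refine Finset.sum_le_sum fun r _ => Real.exp_le_exp.2 (sub_le_sub_right ?_ _)
  exact mul_le_mul_of_nonneg_left h (mul_nonneg (zero_le_one.trans (hb r)) (weight_pos c i).le)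

/-- decreasing thresholds -/
lemma thr_anti {c : ℝ} (hc : 0 < c) : ∀ᶠ i : ℕ in atTop,
    XX c (i + 1) / weight c (i + 1) ≤ XX c i / weight c i := by
  have h2 := weight_add_ge hc (ε := 1 / 2) (by norm_num) (A := 1) zero_le_one
  have h3 : ∀ᶠ i : ℕ in atTop, 1 ≤ XX c i := (XX_tendsto hc).eventually_ge_atTop _
  have h4 : ∀ᶠ i : ℕ in atTop, (1 : ℝ) / (c * ((i : ℝ) + 2)) ≤ 1 / 2 :=
    ((inv_tendsto hc 1).eventually_lt_const (by norm_num)).mono fun i hi => hi.le
  filter_upwards [h2, h3, h4] with i hi2 hi3 hi4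
  have hw : 0 < weight c i := weight_pos c i
  have hw' : 0 < weight c (i + 1) := weight_pos c _
  have hX : 0 < XX c i := XX_pos hc i
  have h5 := hi2 1 (by push_cast; linarith)
  have h6 := XX_add_le hc i 1
  push_cast at h5 h6
  rw [div_le_div_iff₀ hw' hw]
  have h7 : 1 + (1 - 1 / 2) * 1 / XX c i ≤ Real.exp ((1 - 1 / 2) * 1 / XX c i) := by
    have := Real.add_one_le_exp ((1 - 1 / 2) * 1 / XX c i); linarith
  have h8 : weight c i * (1 + (1 - 1 / 2) * 1 / XX c i) ≤ weight c (i + 1) :=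
    (mul_le_mul_of_nonneg_left h7 hw.le).trans h5
  have h9 : XX c i * (weight c i * (1 + (1 - 1 / 2) * 1 / XX c i))
      = weight c i * (XX c i + 1 / 2) := by field_simp; ring
  calc XX c (i + 1) * weight c i ≤ (XX c i + 1 / 2) * weight c i :=
        mul_le_mul_of_nonneg_right (by linarith) hw.le
    _ = XX c i * (weight c i * (1 + (1 - 1 / 2) * 1 / XX c i)) := by rw [h9]; ring
    _ ≤ XX c i * weight c (i + 1) := mul_le_mul_of_nonneg_left h8 hX.le

/-- the bound for `m` at high levels -/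
theorem m_high {c : ℝ} (hc : 0 < c) {ε : ℝ} (hε0 : 0 < ε) (hε1 : ε ≤ 1 / 20) :
    ∃ C : ℝ, 0 < C ∧ ∀ᶠ i₀ : ℕ in atTop, ∀ K i : ℕ, i₀ ≤ i → i < K → ∀ s, 0 ≤ s →
      m (weight c) K i s ≤ weight c i * (C * K * Real.exp ((1 / 2 + 25 * ε) * XX c K)) := by
  obtain ⟨N, b, g, hb1, hg0, hg, hval, X₀, hX₀⟩ := yfam hε0 (by linarith)
  obtain ⟨ρ, hρ0, hρ⟩ := low_early hc hε0 hε1
  have he : 0 < Real.exp 1 := Real.exp_pos 1
  obtain ⟨i₁, hi₁⟩ := eventually_atTop.1 (((thr_anti hc).and
    ((XX_tendsto hc).eventually_ge_atTop (max X₀ 1))).and hρ)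
  refine ⟨(N + 1) / ρ + (N + 1), by positivity, ?_⟩
  filter_upwards [eventually_ge_atTop i₁] with i₀ hi₀ K i hi hiK s hs
  set a : ℕ → ℝ := fun i => (1 - ε) / Real.exp 1 * (XX c i / weight c i) with ha
  have h1ε : 0 < 1 - ε := by linarith
  have ha0 : ∀ i, 0 ≤ a i := fun i => mul_nonneg (by positivity)
    (div_nonneg (XX_pos hc i).le (weight_pos c i).le)
  set Z : ℝ := Real.exp ((1 / 2 + 25 * ε) * XX c K) with hZ
  set B : ℝ := (N + 1) / ρ * Z with hB
  have hB0 : 0 ≤ B := by positivity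
  have hYa : ∀ i, Yf c N b g i (a i) ≤ (N + 1) * Real.exp ((1 / 2 + ε) * XX c i) := by
    intro i
    have h1 : ∀ r ∈ Finset.range (N + 1), Real.exp (b r * weight c i * a i - g r * XX c i)
        ≤ Real.exp ((1 / 2 + ε) * XX c i) := by
      intro r hr
      refine Real.exp_le_exp.2 ?_
      have h2 := hval r (by rw [Finset.mem_range] at hr; omega)
      have hw := (weight_pos c i).ne'
      have h3 : b r * weight c i * a i - g r * XX c i
          = (b r * ((1 - ε) / Real.exp 1) - g r) * XX c i := by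
        rw [ha]; field_simp
      rw [h3]
      exact mul_le_mul_of_nonneg_right h2 (XX_pos hc i).le
    have h2 := Finset.sum_le_sum h1
    rw [Finset.sum_const, Finset.card_range, nsmul_eq_mul] at h2
    push_cast at h2
    exact h2
  have key := m_le (f := weight c) (weight_pos c) (K := K) (i₀ := i₀) hB0
    (Y := Yf c N b g) (Y' := Yf' c N b g) (a := a) (fun i _ _ => ha0 i)
    (fun i hi _ => by
      refine mul_le_mul_of_nonneg_left (hi₁ i (hi₀.trans hi)).1.1 (by positivity))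
    (fun i _ _ => by
      have h1 : Real.exp (b 0 * weight c i * 0 - g 0 * XX c i) ≤ Yf c N b g i 0 := by
        unfold Yf
        exact Finset.single_le_sum (f := fun r => Real.exp (b r * weight c i * 0 - g r * XX c i))
          (fun r _ => (Real.exp_pos _).le) (Finset.mem_range.2 (Nat.succ_pos N))
      rw [hg0] at h1
      simpa using h1)
    (Yf_cont c N b g) (fun i _ _ => (Yf_mono c N g hb1 i).monotoneOn _)
    (Yf_deriv c N b g) (Yf'_cont c N b g)
    (fun i hi hiK s hs0 hsa => by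
      -- the differential inequality
      obtain ⟨⟨hthr, hXi⟩, _⟩ := hi₁ i (hi₀.trans hi)
      have hX1 : 1 ≤ XX c i := (le_max_right _ _).trans hXi
      have hX00 : X₀ ≤ XX c i := (le_max_left _ _).trans hXi
      have hX : 0 < XX c i := XX_pos hc i
      have hw : 0 < weight c i := weight_pos c i
      set σ : ℝ := weight c i * s / XX c i with hσ
      have hσ0 : 0 ≤ σ := by positivity
      have hσ1 : σ ≤ (1 - ε) / Real.exp 1 := by
        have h1 : s ≤ (1 - ε) / Real.exp 1 * (XX c i / weight c i) :=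
          hsa.trans (mul_le_mul_of_nonneg_left hthr (by positivity))
        rw [hσ, div_le_iff₀ hX]
        calc weight c i * s ≤ weight c i * ((1 - ε) / Real.exp 1 * (XX c i / weight c i)) :=
              mul_le_mul_of_nonneg_left h1 hw.le
          _ = (1 - ε) / Real.exp 1 * XX c i := by field_simp
      have h1 := hX₀ (XX c i) hX00 σ hσ0 hσ1
      have h2 : ∀ r, b r * weight c i * s - g r * XX c i = XX c i * (b r * σ - g r) := fun r => by
        rw [hσ]; field_simp
      have h3 : Yf' c N b g i s = weight c i * ∑ r ∈ Finset.range (N + 1),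
          b r * Real.exp (XX c i * (b r * σ - g r)) := by
        unfold Yf'
        rw [Finset.mul_sum]
        refine Finset.sum_congr rfl fun r _ => ?_
        rw [h2 r]; ring
      have hwle : weight c (i + 1) ≤ weight c i * Real.exp (1 / XX c i) := by
        have := weight_add_le hc i 1
        push_cast at this
        exact this
      have hXle : XX c i ≤ XX c (i + 1) := XX_mono hc (Nat.le_succ i)
      have h4 : weight c (i + 1) * Yf c N b g (i + 1) s ≤ weight c i *
          ∑ r ∈ Finset.range (N + 1), Real.exp (1 / XX c i + b r * (1 + 1 / XX c i) * σ) *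
            Real.exp (XX c i * (b r * σ - g r)) := by
        unfold Yf
        rw [Finset.mul_sum, Finset.mul_sum]
        refine Finset.sum_le_sum fun r _ => ?_
        have h5 : b r * weight c (i + 1) * s - g r * XX c (i + 1)
            ≤ b r * (1 + 1 / XX c i) * σ + XX c i * (b r * σ - g r) := by
          have h6 : Real.exp (1 / XX c i) - 1 ≤ 1 / XX c i + (1 / XX c i) ^ 2 :=
            exp_sub_one_le (by positivity) (by rw [div_le_one hX]; exact hX1)
          have hb0 : 0 ≤ b r := zero_le_one.trans (hb1 r)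
          have h7 : b r * weight c (i + 1) * s ≤ b r * (weight c i * Real.exp (1 / XX c i)) * s :=
            mul_le_mul_of_nonneg_right (mul_le_mul_of_nonneg_left hwle hb0) hs0
          have h8 : g r * XX c i ≤ g r * XX c (i + 1) := mul_le_mul_of_nonneg_left hXle (hg r)
          have h9 : b r * (weight c i * Real.exp (1 / XX c i)) * s
              = b r * weight c i * s + b r * (weight c i * s) * (Real.exp (1 / XX c i) - 1) := by
            ring
          have h10 : b r * (weight c i * s) * (Real.exp (1 / XX c i) - 1)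
              ≤ b r * (weight c i * s) * (1 / XX c i + (1 / XX c i) ^ 2) :=
            mul_le_mul_of_nonneg_left h6 (by positivity)
          have h11 : b r * (weight c i * s) * (1 / XX c i + (1 / XX c i) ^ 2)
              = b r * (1 + 1 / XX c i) * σ := by rw [hσ]; field_simp
          rw [← h2 r]
          linarith
        calc weight c (i + 1) * Real.exp (b r * weight c (i + 1) * s - g r * XX c (i + 1))
            ≤ (weight c i * Real.exp (1 / XX c i)) *
              Real.exp (b r * (1 + 1 / XX c i) * σ + XX c i * (b r * σ - g r)) :=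
              mul_le_mul hwle (Real.exp_le_exp.2 h5) (Real.exp_pos _).le (by positivity)
          _ = _ := by rw [Real.exp_add, Real.exp_add]; ring
      rw [h3]
      exact h4.trans (mul_le_mul_of_nonneg_left h1 hw.le))
    (fun i hi hiK s hs => by
      -- the high part
      have h1 := hYa (i + 1)
      obtain ⟨_, h2⟩ := hi₁ i₁ le_rfl
      have h3 := h2 (i + 2) (by omega) K
      have h4 : a (i + 2) ≤ a (i + 1) :=
        mul_le_mul_of_nonneg_left (hi₁ (i + 1) (by omega)).1.1 (by positivity)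
      have h5 : ρ * Real.exp (-(24 * ε * XX c (i + 2))) ≤ p (weight c) 1 K (i + 2) s :=
        h3.trans (p_mono (weight_pos c) zero_le_one le_rfl (ha0 _) (h4.trans hs))
      refine h1.trans (le_trans ?_ (mul_le_mul_of_nonneg_left h5 hB0))
      have h6 : XX c (i + 1) ≤ XX c K := XX_mono hc (by omega)
      have h7 : XX c (i + 2) ≤ XX c K := XX_mono hc (by omega)
      rw [hB, hZ]
      have h8 : ((N : ℝ) + 1) / ρ * Real.exp ((1 / 2 + 25 * ε) * XX c K) *
          (ρ * Real.exp (-(24 * ε * XX c (i + 2))))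
          = (N + 1) * (Real.exp ((1 / 2 + 25 * ε) * XX c K + -(24 * ε * XX c (i + 2)))) := by
        rw [Real.exp_add]; field_simp
      rw [h8]
      refine mul_le_mul_of_nonneg_left (Real.exp_le_exp.2 ?_) (by positivity)
      nlinarith)
    hi hiK hs
  refine key.trans (mul_le_mul_of_nonneg_left ?_ (weight_pos c i).le)
  have hK1 : (1 : ℝ) ≤ K := by
    have : 1 ≤ K := by omega
    exact_mod_cast this
  have h1 : ((K - i : ℕ) : ℝ) ≤ K := Nat.cast_le.2 (Nat.sub_le K i)
  have h2 : p (weight c) 1 K (i + 1) s ≤ 1 := p_le_one zero_le_one s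
  have h2' : 0 ≤ p (weight c) 1 K (i + 1) s := p_nonneg (weight_pos c) zero_le_one le_rfl hs
  have h3 : ((K - i : ℕ) : ℝ) * B * p (weight c) 1 K (i + 1) s ≤ K * B * 1 :=
    mul_le_mul (mul_le_mul_of_nonneg_right h1 hB0) h2 h2' (by positivity)
  have h4 : Yf c N b g i (min s (a i)) ≤ (N + 1) * Real.exp ((1 / 2 + ε) * XX c i) :=
    (Yf_mono c N g hb1 i (min_le_right _ _)).trans (hYa i)
  have h5 : Real.exp ((1 / 2 + ε) * XX c i) ≤ Z := by
    rw [hZ]
    refine Real.exp_le_exp.2 ?_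
    have h6 : XX c i ≤ XX c K := XX_mono hc hiK.le
    have h7 : 0 < XX c K := XX_pos hc K
    nlinarith
  have hZ0 : 0 < Z := Real.exp_pos _
  calc ((K - i : ℕ) : ℝ) * B * p (weight c) 1 K (i + 1) s + Yf c N b g i (min s (a i))
      ≤ K * B * 1 + (N + 1) * Z := add_le_add h3
        (h4.trans (mul_le_mul_of_nonneg_left h5 (by positivity)))
    _ ≤ K * B * 1 + (N + 1) * K * Z := by
        have : ((N : ℝ) + 1) * Z ≤ (N + 1) * K * Z := by
          have h8 : 0 ≤ ((N : ℝ) + 1) * Z := by positivity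
          nlinarith
        linarith
    _ = ((N + 1) / ρ + (N + 1)) * K * Z := by rw [hB]; ring

/-- the low levels -/
theorem m_low {f : ℕ → ℝ} (hf : ∀ k, 0 < f k) {i₀ : ℕ} {J : ℕ → ℝ}
    (hJ0 : ∀ i, i ≤ i₀ → 0 ≤ J i)
    (hJ : ∀ i, i ≤ i₀ → ∀ K, i < K → ∀ s, 0 ≤ s → ∫ u in (0 : ℝ)..s, h f 1 K i u ≤ J i) :
    ∀ i, i ≤ i₀ → ∃ C : ℝ, 0 ≤ C ∧ ∀ K, i₀ < K → ∀ M : ℝ, 0 ≤ M →
      (∀ s, 0 ≤ s → m f K i₀ s ≤ M) → ∀ s, 0 ≤ s → m f K i s ≤ C * (1 + M) := by
  intro i hi
  obtain ⟨n, hn⟩ : ∃ n, i₀ - i = n := ⟨_, rfl⟩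
  induction n generalizing i with
  | zero =>
      have : i = i₀ := by omega
      subst this
      exact ⟨1, zero_le_one, fun K _ M hM h s hs => by have := h s hs; linarith⟩
  | succ n ih =>
      obtain ⟨C, hC, h1⟩ := ih (i + 1) (by omega) (by omega)
      have hJi := hJ0 (i + 1) (by omega)
      refine ⟨f i * (1 + C * J (i + 1)), mul_nonneg (hf i).le (by positivity),
        fun K hK M hM hMs s hs => ?_⟩
      have h2 := h1 K hK M hM hMs
      rw [m_lt (by omega), mul_assoc]
      refine mul_le_mul_of_nonneg_left ?_ (hf i).le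
      have h3 : ∫ u in (0 : ℝ)..s, h f 1 K (i + 1) u * m f K (i + 1) u
          ≤ ∫ u in (0 : ℝ)..s, C * (1 + M) * h f 1 K (i + 1) u := by
        refine intervalIntegral.integral_mono_on hs
          (((h_cont f 1 K (i + 1)).mul (m_cont f K (i + 1))).intervalIntegrable _ _)
          ((continuous_const.mul (h_cont f 1 K (i + 1))).intervalIntegrable _ _)
          fun u hu => ?_
        rw [mul_comm]
        exact mul_le_mul_of_nonneg_right (h2 u hu.1) (h_nonneg u)
      rw [intervalIntegral.integral_const_mul] at h3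
      have h4 := hJ (i + 1) (by omega) K (by omega) s hs
      have h5 : C * (1 + M) * ∫ u in (0 : ℝ)..s, h f 1 K (i + 1) u ≤ C * (1 + M) * J (i + 1) :=
        mul_le_mul_of_nonneg_left h4 (by positivity)
      nlinarith [mul_nonneg hC hJi]

open Classical in
/-- **Lower bound for the depth, final form.** -/
theorem lower_main {c : ℝ} (hc : 0 < c) {ε : ℝ} (hε0 : 0 < ε) (hε1 : ε ≤ 1 / 20) :
    ∃ C : ℝ, 0 < C ∧ ∀ᶠ K : ℕ in atTop, ∀ n : ℕ,
      (n + 1) * EV (weight c) ({s | height s < K}.indicator 1) n []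
        ≤ C * (K * Real.exp ((1 / 2 + 25 * ε) * XX c K)) := by
  obtain ⟨C₁, hC₁, h1⟩ := m_high hc hε0 hε1
  obtain ⟨ρ, hρ0, _, h2⟩ := low_chain hc hε0 hε1
  obtain ⟨i₀, hi₀⟩ := (h1.and h2).exists
  have hw := weight_pos c
  set D : ℕ → ℝ := fun i => (1 + ε) / Real.exp 1 * (XX c i / weight c i) with hD
  have hD0 : ∀ i, 0 ≤ D i := fun i => mul_nonneg (by positivity)
    (div_nonneg (XX_pos hc i).le (hw i).le)
  -- the integrals of h
  have hJ' : ∀ i, i ≤ i₀ → ∃ J : ℝ, 0 ≤ J ∧ ∀ K, i < K → ∀ s, 0 ≤ s →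
      ∫ u in (0 : ℝ)..s, h (weight c) 1 K i u ≤ J := by
    intro i hi
    obtain ⟨D', ρ', hD', hρ', h3⟩ : ∃ D' ρ' : ℝ, 0 ≤ D' ∧ 0 < ρ' ∧
        ∀ K, ρ' ≤ p (weight c) 1 K (i + 1) D' := by
      rcases Nat.lt_or_ge i i₀ with h4 | h4
      · exact low_p hw (hD0 i₀) hρ0 (fun K => hi₀.2 i₀ le_rfl K) (i + 1) (by omega)
      · have : i = i₀ := by omega
        subst this
        exact ⟨D (i + 1), ρ, hD0 _, hρ0, fun K => hi₀.2 (i + 1) (by omega) K⟩
    refine ⟨D' + 1 / (weight c i * ρ'), ?_, fun K hiK s hs =>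
      integral_h_le hw hiK hD' hρ' (h3 K) hs⟩
    have := mul_pos (hw i) hρ'
    positivity
  choose! J hJ0 hJ using hJ'
  have hm := m_low hw hJ0 hJ
  obtain ⟨C₀, hC₀, hm0⟩ := hm 0 (Nat.zero_le _)
  set W : ℝ := weight c i₀ * C₁ with hW
  have hW0 : 0 < W := mul_pos (hw _) hC₁
  refine ⟨C₀ * (1 + W) * J 0 + 1, by have := hJ0 0 (Nat.zero_le _); positivity, ?_⟩
  filter_upwards [eventually_gt_atTop i₀] with K hK n
  set Z : ℝ := K * Real.exp ((1 / 2 + 25 * ε) * XX c K) with hZ
  have hK1 : (1 : ℝ) ≤ K := by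
    have : 1 ≤ K := by omega
    exact_mod_cast this
  have hZ1 : 1 ≤ Z := by
    have h3 : 1 ≤ Real.exp ((1 / 2 + 25 * ε) * XX c K) :=
      Real.one_le_exp (mul_nonneg (by positivity) (XX_pos hc K).le)
    rw [hZ]; nlinarith
  -- bound for m at i₀
  have hM : ∀ s, 0 ≤ s → m (weight c) K i₀ s ≤ W * Z := by
    intro s hs
    refine (hi₀.1 K i₀ le_rfl hK s hs).trans (le_of_eq ?_)
    rw [hW, hZ]; ring
  have hWZ : 0 ≤ W * Z := by positivity
  have hm0' := hm0 K hK (W * Z) hWZ hM
  -- a bound for all levels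
  obtain ⟨M', hM'0, hM'⟩ : ∃ M' : ℝ, 0 ≤ M' ∧ ∀ d < K, ∀ s, 0 ≤ s → m (weight c) K d s ≤ M' := by
    have h3 : ∀ d, ∃ M' : ℝ, 0 ≤ M' ∧ (d < K → ∀ s, 0 ≤ s → m (weight c) K d s ≤ M') := by
      intro d
      by_cases hdK : d < K
      · rcases Nat.lt_or_ge d i₀ with h4 | h4
        · obtain ⟨C, hC, h5⟩ := hm d h4.le
          exact ⟨C * (1 + W * Z), by positivity, fun _ => h5 K hK (W * Z) hWZ hM⟩
        · exact ⟨weight c d * (C₁ * K * Real.exp ((1 / 2 + 25 * ε) * XX c K)),
            by have := hw d; positivity, fun _ => hi₀.1 K d h4 hdK⟩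
      · exact ⟨0, le_rfl, fun h => absurd h hdK⟩
    choose M hM0 hM1 using h3
    refine ⟨∑ d ∈ Finset.range K, M d, Finset.sum_nonneg fun d _ => hM0 d, fun d hd s hs => ?_⟩
    exact (hM1 d hd s hs).trans (Finset.single_le_sum (f := M) (fun d _ => hM0 d)
      (Finset.mem_range.2 hd))
  set C : ℝ := 2 * M' / weight c 0 with hC
  have hC0 : 0 ≤ C := div_nonneg (by positivity) (hw 0).le
  -- the time
  obtain ⟨S, hS⟩ : ∃ S : ℝ, 0 ≤ S ∧ (∀ d < K, h (weight c) 1 K (d + 1) S ≤ 1 / 2) ∧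
      C * h (weight c) 1 K 0 S ≤ 1 := by
    have h3 : ∀ᶠ S : ℝ in atTop, ∀ d ∈ Finset.range K, h (weight c) 1 K (d + 1) S ≤ 1 / 2 := by
      rw [Filter.eventually_all_finset]
      intro d hd
      rcases lt_or_ge (d + 1) K with h4 | h4
      · exact ((h_tendsto hw h4).eventually_lt_const (by norm_num)).mono fun S hS => hS.le
      · exact Filter.Eventually.of_forall fun S => by rw [h_ge h4]; norm_num
    have h4 : ∀ᶠ S : ℝ in atTop, C * h (weight c) 1 K 0 S ≤ 1 := by
      have h5 := (h_tendsto hw (i := 0) (K := K) (by omega)).const_mul C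
      rw [mul_zero] at h5
      exact (h5.eventually_lt_const one_pos).mono fun S hS => hS.le
    obtain ⟨S, hS⟩ := ((h3.and h4).and (eventually_ge_atTop 0)).exists
    exact ⟨S, hS.2, fun d hd => hS.1.1 d (Finset.mem_range.2 hd), hS.1.2⟩
  have h3 := lower_prob hw (K := K) (by omega) hC0 hS.1 (fun d hd => by
    have h4 := hM' d hd S hS.1
    have h5 : 1 / 2 ≤ p (weight c) 1 K (d + 1) S := by
      have := hS.2.1 d hd
      rw [p]; linarith
    have h6 : weight c 0 ≤ weight c d := weight_mono hc (Nat.zero_le d)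
    have h7 : weight c 0 * (1 / 2) ≤ weight c d * p (weight c) 1 K (d + 1) S :=
      mul_le_mul h6 h5 (by norm_num) (hw d).le
    calc m (weight c) K d S ≤ M' := h4
      _ = C * (weight c 0 * (1 / 2)) := by
          rw [hC]; have := (hw 0).ne'; field_simp
      _ ≤ _ := mul_le_mul_of_nonneg_left h7 hC0) n
  refine h3.trans ?_
  have h4 : ∫ s in (0 : ℝ)..S, h (weight c) 1 K 0 s * m (weight c) K 0 s
      ≤ C₀ * (1 + W * Z) * J 0 := by
    have h5 : ∫ s in (0 : ℝ)..S, h (weight c) 1 K 0 s * m (weight c) K 0 s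
        ≤ ∫ s in (0 : ℝ)..S, C₀ * (1 + W * Z) * h (weight c) 1 K 0 s := by
      refine intervalIntegral.integral_mono_on hS.1
        (((h_cont _ 1 K 0).mul (m_cont _ K 0)).intervalIntegrable _ _)
        ((continuous_const.mul (h_cont _ 1 K 0)).intervalIntegrable _ _)
        fun u hu => ?_
      rw [mul_comm]
      exact mul_le_mul_of_nonneg_right (hm0' u hu.1) (h_nonneg u)
    rw [intervalIntegral.integral_const_mul] at h5
    exact h5.trans (mul_le_mul_of_nonneg_left
      (hJ 0 (Nat.zero_le _) K (by omega) S hS.1) (by positivity))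
  have h5 : 1 + W * Z ≤ (1 + W) * Z := by nlinarith
  have hJ00 := hJ0 0 (Nat.zero_le _)
  have h6 : C₀ * (1 + W * Z) * J 0 ≤ C₀ * ((1 + W) * Z) * J 0 :=
    mul_le_mul_of_nonneg_right (mul_le_mul_of_nonneg_left h5 hC₀) hJ00
  have h7 := hS.2.2
  calc (∫ s in (0 : ℝ)..S, h (weight c) 1 K 0 s * m (weight c) K 0 s)
        + C * h (weight c) 1 K 0 S ≤ C₀ * ((1 + W) * Z) * J 0 + 1 := by linarith
    _ ≤ (C₀ * (1 + W) * J 0 + 1) * Z := by nlinarith

end Pool.Agent.H420.DW
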