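import Pool.Agent.H420.DW.Up2
import Pool.Agent.H420.DW.Low2

set_option autoImplicit false

open Filter Topology MeasureTheory

/-!
# The depth exponent: assembly
-/

namespace Pool.Agent.H420.DW

lemma exp_XX {c : ℝ} (a : ℝ) (K : ℕ) :
    Real.exp (a * XX c K) = ((K : ℝ) + 2) ^ (a / c) := by
  rw [Real.rpow_def_of_pos (by positivity), XX]
  congr 1; ring

lemma nat_rpow_tendsto {a : ℝ} (ha : 0 < a) :
    Tendsto (fun n : ℕ => ((n : ℝ) + 1) ^ a) atTop atTop :=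
  (tendsto_rpow_atTop ha).comp (tendsto_atTop_add_const_right _ _ tendsto_natCast_atTop_atTop)

lemma bound_tendsto {a b ν : ℝ} (ha : a < 1) (hν : 0 < ν) :
    Tendsto (fun K : ℕ => Real.exp (2 * (K : ℝ) ^ a + b * Real.log ((K : ℝ) + 2) - ν * K)) atTop
      (𝓝 0) := by
  have h1 : Tendsto (fun K : ℕ => (K : ℝ) ^ (a - 1)) atTop (𝓝 0) := by
    have := (tendsto_rpow_neg_atTop (y := 1 - a) (by linarith)).comp tendsto_natCast_atTop_atTop
    simpa [Function.comp_def] using this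
  have h2 : Tendsto (fun K : ℕ => Real.log ((K : ℝ) + 2) / ((K : ℝ) + 2)) atTop (𝓝 0) :=
    log_div_tendsto
  have h3 : Tendsto (fun K : ℕ => 2 * (K : ℝ) ^ (a - 1) +
      3 * |b| * (Real.log ((K : ℝ) + 2) / ((K : ℝ) + 2)) - ν) atTop (𝓝 (-ν)) := by
    have := ((h1.const_mul 2).add (h2.const_mul (3 * |b|))).sub_const ν
    simpa using this
  have h4 : Tendsto (fun K : ℕ => (K : ℝ) * (2 * (K : ℝ) ^ (a - 1) +
      3 * |b| * (Real.log ((K : ℝ) + 2) / ((K : ℝ) + 2)) - ν)) atTop atBot :=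
    tendsto_natCast_atTop_atTop.atTop_mul_neg (by linarith : -ν < 0) h3
  have h5 := Real.tendsto_exp_atBot.comp h4
  refine squeeze_zero' (Eventually.of_forall fun K => (Real.exp_pos _).le) ?_ h5
  filter_upwards [eventually_ge_atTop 1] with K hK
  have hK1 : (1 : ℝ) ≤ K := by exact_mod_cast hK
  have hK0 : (0 : ℝ) < K := by linarith
  refine Real.exp_le_exp.2 ?_
  have e1 : (K : ℝ) * (K : ℝ) ^ (a - 1) = (K : ℝ) ^ a := by
    rw [Real.rpow_sub_one hK0.ne']; field_simp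
  have e2 : b * Real.log ((K : ℝ) + 2) ≤
      K * (3 * |b| * (Real.log ((K : ℝ) + 2) / ((K : ℝ) + 2))) := by
    have h6 : 0 ≤ Real.log ((K : ℝ) + 2) := (log_pos' K).le
    have h7 : 1 ≤ (K : ℝ) * 3 / ((K : ℝ) + 2) := by
      rw [le_div_iff₀ (by positivity)]; linarith
    calc b * Real.log ((K : ℝ) + 2) ≤ |b| * Real.log ((K : ℝ) + 2) :=
          mul_le_mul_of_nonneg_right (le_abs_self b) h6
      _ ≤ |b| * Real.log ((K : ℝ) + 2) * ((K : ℝ) * 3 / ((K : ℝ) + 2)) :=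
          le_mul_of_one_le_right (by positivity) h7
      _ = _ := by ring
  nlinarith

/-- the upper tail -/
theorem upper_tail {c : ℝ} (hc : 0 < c) {γ : ℝ} (hγ : 2 * c / (2 * c + 1) < γ) :
    Tendsto (fun n : ℕ => EV (weight c) ({t | ((n : ℝ) + 1) ^ γ < height t}.indicator 1) n [])
      atTop (𝓝 0) := by
  have hγ0 : 0 < γ := lt_trans (by positivity) hγ
  have h1 : c * (1 / γ - 1) < 1 / 2 := by
    rw [div_lt_iff₀ (by positivity)] at hγ
    have h2 : 1 / γ < (2 * c + 1) / (2 * c) := by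
      rw [div_lt_div_iff₀ hγ0 (by positivity)]; linarith
    have h3 : c * ((2 * c + 1) / (2 * c) - 1) = 1 / 2 := by field_simp; ring
    rw [← h3]
    exact mul_lt_mul_of_pos_left (by linarith) hc
  obtain ⟨μ, hμa, hμ1⟩ := exists_between (max_lt h1 (by norm_num : (0 : ℝ) < 1 / 2))
  have hμ0 : 0 < μ := (le_max_right _ _).trans_lt hμa
  have hμ2 : c * (1 / γ - 1) < μ := (le_max_left _ _).trans_lt hμa
  have ha : 1 / γ - μ / c < 1 := by
    have h2 : (1 / γ - 1) < μ / c := by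
      rw [lt_div_iff₀ hc]; linarith
    linarith
  obtain ⟨ν, hν0, hup⟩ := upper_main hc hμ0 hμ1
  set Kn : ℕ → ℕ := fun n => ⌊((n : ℝ) + 1) ^ γ⌋₊ + 1 with hKn
  have hKt : Tendsto Kn atTop atTop :=
    (tendsto_add_atTop_nat 1).comp (tendsto_nat_floor_atTop.comp (nat_rpow_tendsto hγ0))
  have hlim := (bound_tendsto (b := μ / c) ha hν0).comp hKt
  refine squeeze_zero' (Eventually.of_forall fun n => EV_nonneg (weight_pos c)
    (fun t => Set.indicator_nonneg (fun _ _ => zero_le_one) t) n []) ?_ hlim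
  filter_upwards [hKt.eventually hup] with n hn
  have hK1 : ((n : ℝ) + 1) ^ γ ≤ (Kn n : ℝ) := by
    rw [hKn]; push_cast; exact (Nat.lt_floor_add_one _).le
  have hN0 : (0 : ℝ) < (n : ℝ) + 1 := by positivity
  have hKpos : (0 : ℝ) < (Kn n : ℝ) := lt_of_lt_of_le (by positivity) hK1
  have h2 : EV (weight c) ({t | ((n : ℝ) + 1) ^ γ < height t}.indicator 1) n []
      ≤ EV (weight c) ({s | Kn n ≤ height s}.indicator 1) n [] := by
    refine EV_mono (weight_pos c) (fun t => ?_) n []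
    refine Set.indicator_le_indicator_of_subset (fun s hs => ?_) (fun _ => zero_le_one) t
    rw [Set.mem_ofPred_eq] at hs ⊢
    have h3 : ((⌊((n : ℝ) + 1) ^ γ⌋₊ : ℕ) : ℝ) < height s :=
      (Nat.floor_le (by positivity)).trans_lt hs
    exact Nat.succ_le_of_lt (by exact_mod_cast h3)
  refine h2.trans ((hn n).trans ?_)
  simp only [Function.comp]
  refine Real.exp_le_exp.2 ?_
  have h3 : μ * XX c (Kn n) = μ / c * Real.log ((Kn n : ℝ) + 2) := by rw [XX]; ring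
  have h4 : 2 * (n : ℝ) * Real.exp (-(μ * XX c (Kn n))) ≤ 2 * (Kn n : ℝ) ^ (1 / γ - μ / c) := by
    have h5 : (n : ℝ) ≤ (Kn n : ℝ) ^ (1 / γ) := by
      calc (n : ℝ) ≤ (n : ℝ) + 1 := by linarith
        _ = (((n : ℝ) + 1) ^ γ) ^ (1 / γ) := by
            rw [← Real.rpow_mul hN0.le, mul_one_div_cancel hγ0.ne', Real.rpow_one]
        _ ≤ (Kn n : ℝ) ^ (1 / γ) := Real.rpow_le_rpow (by positivity) hK1 (by positivity)
    have h6 : Real.exp (-(μ * XX c (Kn n))) ≤ (Kn n : ℝ) ^ (-(μ / c)) := by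
      rw [← neg_mul, exp_XX, neg_div]
      exact Real.rpow_le_rpow_of_nonpos hKpos (by linarith)
        (by rw [neg_nonpos]; positivity)
    have h7 : (Kn n : ℝ) ^ (1 / γ - μ / c) = (Kn n : ℝ) ^ (1 / γ) * (Kn n : ℝ) ^ (-(μ / c)) := by
      rw [← Real.rpow_add hKpos]; congr 1
    rw [h7, mul_assoc]
    refine mul_le_mul_of_nonneg_left ?_ (by norm_num)
    exact mul_le_mul h5 h6 (Real.exp_pos _).le (by positivity)
  rw [← h3]
  linarith

/-- the lower tail -/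
theorem lower_tail {c : ℝ} (hc : 0 < c) {γ : ℝ} (hγ0 : 0 < γ) (hγ : γ < 2 * c / (2 * c + 1)) :
    Tendsto (fun n : ℕ => EV (weight c) ({t | (height t : ℝ) < ((n : ℝ) + 1) ^ γ}.indicator 1)
      n []) atTop (𝓝 0) := by
  obtain ⟨ε, hε0, hε1, hε⟩ : ∃ ε : ℝ, 0 < ε ∧ ε ≤ 1 / 20 ∧ γ * (1 + (1 / 2 + 25 * ε) / c) < 1 := by
    have h1 : Tendsto (fun ε : ℝ => γ * (1 + (1 / 2 + 25 * ε) / c)) (𝓝[>] 0)
        (𝓝 (γ * (1 + (1 / 2) / c))) := by
      have h2 : Continuous (fun ε : ℝ => γ * (1 + (1 / 2 + 25 * ε) / c)) := by fun_prop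
      have h3 := h2.tendsto 0
      simp only [mul_zero, add_zero] at h3
      exact h3.mono_left nhdsWithin_le_nhds
    have h2 : γ * (1 + (1 / 2) / c) < 1 := by
      rw [lt_div_iff₀ (by positivity)] at hγ
      have h3 : γ * (1 + (1 / 2) / c) = γ * (2 * c + 1) / (2 * c) := by field_simp
      rw [h3, div_lt_one (by positivity)]; exact hγ
    have h4 := h1.eventually_lt_const h2
    have h5 : ∀ᶠ ε : ℝ in 𝓝[>] 0, ε ∈ Set.Ioc (0 : ℝ) (1 / 20) :=
      Ioc_mem_nhdsGT (by norm_num)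
    obtain ⟨ε, hε1, hε2⟩ := (h4.and h5).exists
    exact ⟨ε, hε2.1, hε2.2, hε1⟩
  set b : ℝ := 1 + (1 / 2 + 25 * ε) / c with hb
  have hb0 : 0 < b := by positivity
  obtain ⟨C, hC, hlow⟩ := lower_main hc hε0 hε1
  set Kn : ℕ → ℕ := fun n => ⌈((n : ℝ) + 1) ^ γ⌉₊ with hKn
  have hKt : Tendsto Kn atTop atTop := tendsto_nat_ceil_atTop.comp (nat_rpow_tendsto hγ0)
  have hlim : Tendsto (fun n : ℕ => C * 4 ^ b * ((n : ℝ) + 1) ^ (-(1 - γ * b))) atTop (𝓝 0) := by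
    have h1 : Tendsto (fun n : ℕ => ((n : ℝ) + 1) ^ (-(1 - γ * b))) atTop (𝓝 0) :=
      (tendsto_rpow_neg_atTop (by linarith)).comp
        (tendsto_atTop_add_const_right _ _ tendsto_natCast_atTop_atTop)
    simpa using h1.const_mul (C * 4 ^ b)
  refine squeeze_zero' (Eventually.of_forall fun n => EV_nonneg (weight_pos c)
    (fun t => Set.indicator_nonneg (fun _ _ => zero_le_one) t) n []) ?_ hlim
  filter_upwards [hKt.eventually hlow] with n hn
  have hN1 : (1 : ℝ) ≤ (n : ℝ) + 1 := by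
    have : (0 : ℝ) ≤ n := Nat.cast_nonneg n
    linarith
  have hN0 : (0 : ℝ) < (n : ℝ) + 1 := by linarith
  have hx1 : 1 ≤ ((n : ℝ) + 1) ^ γ := Real.one_le_rpow hN1 hγ0.le
  have hK1 : (Kn n : ℝ) + 2 ≤ 4 * ((n : ℝ) + 1) ^ γ := by
    have h1 : (Kn n : ℝ) < ((n : ℝ) + 1) ^ γ + 1 := Nat.ceil_lt_add_one (by positivity)
    linarith
  have h2 : EV (weight c) ({t | (height t : ℝ) < ((n : ℝ) + 1) ^ γ}.indicator 1) n []
      ≤ EV (weight c) ({s | height s < Kn n}.indicator 1) n [] := by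
    refine EV_mono (weight_pos c) (fun t => ?_) n []
    refine Set.indicator_le_indicator_of_subset (fun s hs => ?_) (fun _ => zero_le_one) t
    rw [Set.mem_ofPred_eq] at hs ⊢
    have h3 : (height s : ℝ) < (Kn n : ℝ) := hs.trans_le (Nat.le_ceil _)
    exact_mod_cast h3
  have h3 := hn n
  have h4 : (Kn n : ℝ) * Real.exp ((1 / 2 + 25 * ε) * XX c (Kn n)) ≤ 4 ^ b *
      ((n : ℝ) + 1) ^ (γ * b) := by
    rw [exp_XX]
    have hp : (0 : ℝ) < (Kn n : ℝ) + 2 := by positivity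
    calc (Kn n : ℝ) * ((Kn n : ℝ) + 2) ^ ((1 / 2 + 25 * ε) / c)
        ≤ ((Kn n : ℝ) + 2) * ((Kn n : ℝ) + 2) ^ ((1 / 2 + 25 * ε) / c) :=
          mul_le_mul_of_nonneg_right (by linarith) (by positivity)
      _ = ((Kn n : ℝ) + 2) ^ b := by
          rw [hb, Real.rpow_add hp, Real.rpow_one]
      _ ≤ (4 * ((n : ℝ) + 1) ^ γ) ^ b := Real.rpow_le_rpow hp.le hK1 hb0.le
      _ = 4 ^ b * ((n : ℝ) + 1) ^ (γ * b) := by
          rw [Real.mul_rpow (by norm_num) (by positivity), ← Real.rpow_mul hN0.le]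
  refine h2.trans ?_
  have h5 : ((n : ℝ) + 1) ^ (-(1 - γ * b)) = ((n : ℝ) + 1) ^ (γ * b) / ((n : ℝ) + 1) := by
    rw [← Real.rpow_sub_one hN0.ne']; congr 1; ring
  rw [h5, ← mul_div_assoc, le_div_iff₀ hN0, mul_comm]
  refine h3.trans ?_
  rw [mul_assoc]
  exact mul_le_mul_of_nonneg_left h4 hC.le

end Pool.Agent.H420.DW
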