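import Mathlib

set_option autoImplicit false

open MeasureTheory intervalIntegral

/-!
# The functions `h`, `G`, `m`
-/

namespace Pool.Agent.H420.DW

/-- `hj f θ K j` is `h_{K-j}` -/
noncomputable def hj (f : ℕ → ℝ) (θ : ℝ) (K : ℕ) : ℕ → ℝ → ℝ
  | 0 => fun _ => 0
  | j + 1 => fun s => Real.exp (-(f (K - 1 - j) * ∫ u in (0 : ℝ)..s, (1 - θ * hj f θ K j u)))

/-- `h f θ K i s`: the expected value of `θ ^ N`, where `N` is the number of descendants at the
age `s` of a vertex of depth `i`, on the event that none of them has depth `K`. -/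
noncomputable def h (f : ℕ → ℝ) (θ : ℝ) (K i : ℕ) : ℝ → ℝ := hj f θ K (K - i)

lemma h_ge {f : ℕ → ℝ} {θ : ℝ} {K i : ℕ} (hi : K ≤ i) (s : ℝ) : h f θ K i s = 0 := by
  rw [h, Nat.sub_eq_zero_of_le hi, hj]

lemma h_lt {f : ℕ → ℝ} {θ : ℝ} {K i : ℕ} (hi : i < K) (s : ℝ) :
    h f θ K i s = Real.exp (-(f i * ∫ u in (0 : ℝ)..s, (1 - θ * h f θ K (i + 1) u))) := by
  obtain ⟨j, hj'⟩ : ∃ j, K - i = j + 1 := ⟨K - i - 1, by omega⟩
  have h1 : K - (i + 1) = j := by omega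
  have h2 : K - 1 - j = i := by omega
  unfold h
  rw [hj', hj, h1, h2]

lemma h_cont (f : ℕ → ℝ) (θ : ℝ) (K i : ℕ) : Continuous (h f θ K i) := by
  unfold h
  generalize K - i = j
  induction j with
  | zero => exact continuous_const
  | succ j ih =>
      show Continuous fun s => Real.exp (-(f (K - 1 - j) *
        ∫ u in (0 : ℝ)..s, (1 - θ * hj f θ K j u)))
      have hc : Continuous fun u => 1 - θ * hj f θ K j u :=
        continuous_const.sub (continuous_const.mul ih)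
      have : Continuous fun s => ∫ u in (0 : ℝ)..s, (1 - θ * hj f θ K j u) :=
        intervalIntegral.continuous_primitive (fun a b => hc.intervalIntegrable a b) 0
      exact Real.continuous_exp.comp (continuous_const.mul this).neg

lemma h_deriv {f : ℕ → ℝ} {θ : ℝ} {K i : ℕ} (hi : i < K) (s : ℝ) :
    HasDerivAt (h f θ K i) (-(f i * (1 - θ * h f θ K (i + 1) s)) * h f θ K i s) s := by
  have hc : Continuous fun u => 1 - θ * h f θ K (i + 1) u :=
    continuous_const.sub (continuous_const.mul (h_cont f θ K (i + 1)))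
  have h1 : HasDerivAt (fun s => ∫ u in (0 : ℝ)..s, (1 - θ * h f θ K (i + 1) u))
      (1 - θ * h f θ K (i + 1) s) s := intervalIntegral.integral_hasDerivAt_right
    (hc.intervalIntegrable _ _) (hc.stronglyMeasurableAtFilter _ _) hc.continuousAt
  have h2 : HasDerivAt
      (fun s => Real.exp (-(f i * ∫ u in (0 : ℝ)..s, (1 - θ * h f θ K (i + 1) u))))
      (Real.exp (-(f i * ∫ u in (0 : ℝ)..s, (1 - θ * h f θ K (i + 1) u)))
        * -(f i * (1 - θ * h f θ K (i + 1) s))) s := ((h1.const_mul (f i)).fun_neg).exp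
  have h3 : h f θ K i = fun s => Real.exp (-(f i * ∫ u in (0 : ℝ)..s, (1 - θ * h f θ K (i + 1) u)))
    := funext fun s => h_lt hi s
  rw [h_lt hi s, h3, mul_comm (-(f i * (1 - θ * h f θ K (i + 1) s)))]
  exact h2

lemma h_zero {f : ℕ → ℝ} {θ : ℝ} {K i : ℕ} (hi : i < K) : h f θ K i 0 = 1 := by
  rw [h_lt hi]; simp

lemma h_pos {f : ℕ → ℝ} {θ : ℝ} {K i : ℕ} (hi : i < K) (s : ℝ) : 0 < h f θ K i s := by
  rw [h_lt hi]; exact Real.exp_pos _

lemma h_nonneg {f : ℕ → ℝ} {θ : ℝ} {K i : ℕ} (s : ℝ) : 0 ≤ h f θ K i s := by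
  rcases lt_or_ge i K with hi | hi
  · exact (h_pos hi s).le
  · rw [h_ge hi]

lemma h_le_one {f : ℕ → ℝ} (hf : ∀ k, 0 < f k) {θ : ℝ} (hθ0 : 0 ≤ θ) (hθ1 : θ ≤ 1) {K i : ℕ}
    {s : ℝ} (hs : 0 ≤ s) : h f θ K i s ≤ 1 := by
  rcases lt_or_ge i K with hi | hi
  · obtain ⟨n, hn⟩ : ∃ n, K - i = n := ⟨_, rfl⟩
    induction n generalizing i s with
    | zero => omega
    | succ n ih =>
        rw [h_lt hi]
        rw [Real.exp_le_one_iff, neg_nonpos]
        refine mul_nonneg (hf i).le (intervalIntegral.integral_nonneg hs fun u hu => ?_)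
        have : h f θ K (i + 1) u ≤ 1 := by
          rcases lt_or_ge (i + 1) K with h1 | h1
          · exact ih hu.1 h1 (by omega)
          · rw [h_ge h1]; exact zero_le_one
        have h0 : 0 ≤ h f θ K (i + 1) u := h_nonneg u
        nlinarith
  · rw [h_ge hi]; exact zero_le_one

/-- `p = 1 - θ h` -/
noncomputable def p (f : ℕ → ℝ) (θ : ℝ) (K i : ℕ) (s : ℝ) : ℝ := 1 - θ * h f θ K i s

lemma p_ge {f : ℕ → ℝ} {θ : ℝ} {K i : ℕ} (hi : K ≤ i) (s : ℝ) : p f θ K i s = 1 := by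
  rw [p, h_ge hi]; ring

lemma p_cont (f : ℕ → ℝ) (θ : ℝ) (K i : ℕ) : Continuous (p f θ K i) :=
  continuous_const.sub (continuous_const.mul (h_cont f θ K i))

lemma h_eq_p {f : ℕ → ℝ} {θ : ℝ} {K i : ℕ} (hi : i < K) (s : ℝ) :
    h f θ K i s = Real.exp (-(f i * ∫ u in (0 : ℝ)..s, p f θ K (i + 1) u)) := h_lt hi s

lemma p_nonneg {f : ℕ → ℝ} (hf : ∀ k, 0 < f k) {θ : ℝ} (hθ0 : 0 ≤ θ) (hθ1 : θ ≤ 1) {K i : ℕ}
    {s : ℝ} (hs : 0 ≤ s) : 0 ≤ p f θ K i s := by
  have h1 : h f θ K i s ≤ 1 := h_le_one hf hθ0 hθ1 hs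
  have h0 : 0 ≤ h f θ K i s := h_nonneg s
  rw [p]; nlinarith

lemma p_ge_delta {f : ℕ → ℝ} (hf : ∀ k, 0 < f k) {θ : ℝ} (hθ0 : 0 ≤ θ) (hθ1 : θ ≤ 1) {K i : ℕ}
    {s : ℝ} (hs : 0 ≤ s) : 1 - θ ≤ p f θ K i s := by
  have h1 : h f θ K i s ≤ 1 := h_le_one hf hθ0 hθ1 hs
  rw [p]; nlinarith

lemma p_le_one {f : ℕ → ℝ} {θ : ℝ} (hθ0 : 0 ≤ θ) {K i : ℕ} (s : ℝ) : p f θ K i s ≤ 1 := by
  have h0 : 0 ≤ h f θ K i s := h_nonneg s
  rw [p]; nlinarith [mul_nonneg hθ0 h0]

lemma one_sub_h_le_p {f : ℕ → ℝ} {θ : ℝ} (hθ1 : θ ≤ 1) {K i : ℕ} (s : ℝ) :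
    1 - h f θ K i s ≤ p f θ K i s := by
  have h0 : 0 ≤ h f θ K i s := h_nonneg s
  rw [p]; nlinarith

lemma h_anti {f : ℕ → ℝ} (hf : ∀ k, 0 < f k) {θ : ℝ} (hθ0 : 0 ≤ θ) (hθ1 : θ ≤ 1) {K i : ℕ}
    {s s' : ℝ} (hs : 0 ≤ s) (hss : s ≤ s') : h f θ K i s' ≤ h f θ K i s := by
  rcases lt_or_ge i K with hi | hi
  · rw [h_eq_p hi, h_eq_p hi, Real.exp_le_exp, neg_le_neg_iff]
    refine mul_le_mul_of_nonneg_left ?_ (hf i).le
    rw [← intervalIntegral.integral_add_adjacent_intervals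
      ((p_cont f θ K (i + 1)).intervalIntegrable 0 s)
      ((p_cont f θ K (i + 1)).intervalIntegrable s s')]
    have : 0 ≤ ∫ u in s..s', p f θ K (i + 1) u :=
      intervalIntegral.integral_nonneg hss fun u hu => p_nonneg hf hθ0 hθ1 (hs.trans hu.1)
    linarith
  · rw [h_ge hi, h_ge hi]

lemma p_mono {f : ℕ → ℝ} (hf : ∀ k, 0 < f k) {θ : ℝ} (hθ0 : 0 ≤ θ) (hθ1 : θ ≤ 1) {K i : ℕ}
    {s s' : ℝ} (hs : 0 ≤ s) (hss : s ≤ s') : p f θ K i s ≤ p f θ K i s' := by
  have := h_anti hf hθ0 hθ1 (K := K) (i := i) hs hss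
  rw [p, p]; nlinarith

/-- `Gj f θ K j` is `G_{K-j}` -/
noncomputable def Gj (f : ℕ → ℝ) (θ : ℝ) (K : ℕ) : ℕ → ℝ → ℝ
  | 0 => fun _ => 1
  | j + 1 => fun s => ∫ u in (0 : ℝ)..s, θ * f (K - 1 - j) * hj f θ K (j + 1) u * Gj f θ K j u

/-- `G f θ K i s`: the expected value of `θ ^ N` on the event that the descendants of a vertex
of depth `i` reach the depth `K` before the age `s`, `N` being their number at that time. -/
noncomputable def G (f : ℕ → ℝ) (θ : ℝ) (K i : ℕ) : ℝ → ℝ := Gj f θ K (K - i)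

lemma G_ge {f : ℕ → ℝ} {θ : ℝ} {K i : ℕ} (hi : K ≤ i) (s : ℝ) : G f θ K i s = 1 := by
  rw [G, Nat.sub_eq_zero_of_le hi, Gj]

lemma G_lt {f : ℕ → ℝ} {θ : ℝ} {K i : ℕ} (hi : i < K) (s : ℝ) :
    G f θ K i s = ∫ u in (0 : ℝ)..s, θ * f i * h f θ K i u * G f θ K (i + 1) u := by
  obtain ⟨j, hj'⟩ : ∃ j, K - i = j + 1 := ⟨K - i - 1, by omega⟩
  have h1 : K - (i + 1) = j := by omega
  have h2 : K - 1 - j = i := by omega
  unfold G h
  rw [hj', Gj, h1, h2]

lemma G_cont (f : ℕ → ℝ) (θ : ℝ) (K i : ℕ) : Continuous (G f θ K i) := by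
  obtain ⟨n, hn⟩ : ∃ n, K - i = n := ⟨_, rfl⟩
  induction n generalizing i with
  | zero =>
      have : G f θ K i = fun _ => 1 := funext fun s => G_ge (by omega) s
      rw [this]; exact continuous_const
  | succ n ih =>
      have : G f θ K i = fun s => ∫ u in (0 : ℝ)..s, θ * f i * h f θ K i u * G f θ K (i + 1) u :=
        funext fun s => G_lt (by omega) s
      rw [this]
      have hc : Continuous fun u => θ * f i * h f θ K i u * G f θ K (i + 1) u :=
        (continuous_const.mul (h_cont f θ K i)).mul (ih (i + 1) (by omega))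
      exact intervalIntegral.continuous_primitive (fun a b => hc.intervalIntegrable a b) 0

lemma G_deriv {f : ℕ → ℝ} {θ : ℝ} {K i : ℕ} (hi : i < K) (s : ℝ) :
    HasDerivAt (G f θ K i) (θ * f i * h f θ K i s * G f θ K (i + 1) s) s := by
  have hc : Continuous fun u => θ * f i * h f θ K i u * G f θ K (i + 1) u :=
    (continuous_const.mul (h_cont f θ K i)).mul (G_cont f θ K (i + 1))
  have : G f θ K i = fun s => ∫ u in (0 : ℝ)..s, θ * f i * h f θ K i u * G f θ K (i + 1) u :=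
    funext fun s => G_lt hi s
  rw [this]
  exact intervalIntegral.integral_hasDerivAt_right
    (hc.intervalIntegrable _ _) (hc.stronglyMeasurableAtFilter _ _) hc.continuousAt

lemma G_zero {f : ℕ → ℝ} {θ : ℝ} {K i : ℕ} (hi : i < K) : G f θ K i 0 = 0 := by
  rw [G_lt hi]; simp

lemma G_nonneg {f : ℕ → ℝ} (hf : ∀ k, 0 < f k) {θ : ℝ} (hθ0 : 0 ≤ θ) {K i : ℕ}
    {s : ℝ} (hs : 0 ≤ s) : 0 ≤ G f θ K i s := by
  obtain ⟨n, hn⟩ : ∃ n, K - i = n := ⟨_, rfl⟩
  induction n generalizing i s with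
  | zero => rw [G_ge (by omega)]; exact zero_le_one
  | succ n ih =>
      rw [G_lt (by omega)]
      exact intervalIntegral.integral_nonneg hs fun u hu => mul_nonneg
        (mul_nonneg (mul_nonneg hθ0 (hf i).le) (h_nonneg u)) (ih hu.1 (by omega))

/-- `G + h ≤ 1` -/
lemma G_add_h_le {f : ℕ → ℝ} (hf : ∀ k, 0 < f k) {θ : ℝ} (hθ0 : 0 ≤ θ) (hθ1 : θ ≤ 1)
    {K i : ℕ} {s : ℝ} (hs : 0 ≤ s) : G f θ K i s + h f θ K i s ≤ 1 := by
  obtain ⟨n, hn⟩ : ∃ n, K - i = n := ⟨_, rfl⟩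
  induction n generalizing i s with
  | zero => rw [G_ge (by omega), h_ge (by omega)]; norm_num
  | succ n ih =>
      have hi : i < K := by omega
      have hd : ∀ x, HasDerivAt (fun x => G f θ K i x + h f θ K i x)
          (θ * f i * h f θ K i x * G f θ K (i + 1) x
            + -(f i * (1 - θ * h f θ K (i + 1) x)) * h f θ K i x) x := fun x =>
        (G_deriv hi x).add (h_deriv hi x)
      have hanti : AntitoneOn (fun x => G f θ K i x + h f θ K i x) (Set.Ici 0) := by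
        refine antitoneOn_of_deriv_nonpos (convex_Ici 0)
          ((G_cont f θ K i).add (h_cont f θ K i)).continuousOn
          (fun x _ => (hd x).differentiableAt.differentiableWithinAt) fun x hx => ?_
        rw [interior_Ici] at hx
        have hx0 : (0 : ℝ) ≤ x := le_of_lt hx
        rw [(hd x).deriv]
        have h1 := ih (i := i + 1) hx0 (by omega)
        have h2 : 0 ≤ G f θ K (i + 1) x := G_nonneg hf hθ0 hx0
        have h3 : 0 ≤ h f θ K (i + 1) x := h_nonneg x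
        have h4 : 0 < h f θ K i x := h_pos hi x
        have h5 : 0 < f i := hf i
        have h6 : θ * (G f θ K (i + 1) x + h f θ K (i + 1) x) ≤ 1 := by nlinarith
        have h7 : 0 < f i * h f θ K i x := mul_pos h5 h4
        nlinarith
      have h1 := hanti (Set.mem_Ici.2 le_rfl) (Set.mem_Ici.2 hs) hs
      simp only [G_zero hi, h_zero hi, zero_add] at h1
      exact h1

lemma G_le_one {f : ℕ → ℝ} (hf : ∀ k, 0 < f k) {θ : ℝ} (hθ0 : 0 ≤ θ) (hθ1 : θ ≤ 1)
    {K i : ℕ} {s : ℝ} (hs : 0 ≤ s) : G f θ K i s ≤ 1 := by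
  have h1 := G_add_h_le hf hθ0 hθ1 (K := K) (i := i) hs
  have h2 : 0 ≤ h f θ K i s := h_nonneg s
  linarith

/-- `mj f K j` is `m_{K-j}` -/
noncomputable def mj (f : ℕ → ℝ) (K : ℕ) : ℕ → ℝ → ℝ
  | 0 => fun _ => 0
  | j + 1 => fun s => f (K - 1 - j) * (1 + ∫ u in (0 : ℝ)..s, hj f 1 K j u * mj f K j u)

/-- `m f K i s / h f 1 K i s`: the expected total weight at the age `s` of the descendants of a
vertex of depth `i`, given that none has depth `K`. -/
noncomputable def m (f : ℕ → ℝ) (K i : ℕ) : ℝ → ℝ := mj f K (K - i)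

lemma m_ge {f : ℕ → ℝ} {K i : ℕ} (hi : K ≤ i) (s : ℝ) : m f K i s = 0 := by
  rw [m, Nat.sub_eq_zero_of_le hi, mj]

lemma m_lt {f : ℕ → ℝ} {K i : ℕ} (hi : i < K) (s : ℝ) :
    m f K i s = f i * (1 + ∫ u in (0 : ℝ)..s, h f 1 K (i + 1) u * m f K (i + 1) u) := by
  obtain ⟨j, hj'⟩ : ∃ j, K - i = j + 1 := ⟨K - i - 1, by omega⟩
  have h1 : K - (i + 1) = j := by omega
  have h2 : K - 1 - j = i := by omega
  unfold m h
  rw [hj', mj, h1, h2]

lemma m_cont (f : ℕ → ℝ) (K i : ℕ) : Continuous (m f K i) := by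
  obtain ⟨n, hn⟩ : ∃ n, K - i = n := ⟨_, rfl⟩
  induction n generalizing i with
  | zero =>
      have : m f K i = fun _ => 0 := funext fun s => m_ge (by omega) s
      rw [this]; exact continuous_const
  | succ n ih =>
      have : m f K i = fun s =>
          f i * (1 + ∫ u in (0 : ℝ)..s, h f 1 K (i + 1) u * m f K (i + 1) u) :=
        funext fun s => m_lt (by omega) s
      rw [this]
      have hc : Continuous fun u => h f 1 K (i + 1) u * m f K (i + 1) u :=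
        (h_cont f 1 K (i + 1)).mul (ih (i + 1) (by omega))
      exact continuous_const.mul (continuous_const.add
        (intervalIntegral.continuous_primitive (fun a b => hc.intervalIntegrable a b) 0))

lemma m_deriv {f : ℕ → ℝ} {K i : ℕ} (hi : i < K) (s : ℝ) :
    HasDerivAt (m f K i) (f i * (h f 1 K (i + 1) s * m f K (i + 1) s)) s := by
  have hc : Continuous fun u => h f 1 K (i + 1) u * m f K (i + 1) u :=
    (h_cont f 1 K (i + 1)).mul (m_cont f K (i + 1))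
  have : m f K i = fun s =>
      f i * (1 + ∫ u in (0 : ℝ)..s, h f 1 K (i + 1) u * m f K (i + 1) u) :=
    funext fun s => m_lt hi s
  rw [this]
  exact ((intervalIntegral.integral_hasDerivAt_right
    (hc.intervalIntegrable _ _) (hc.stronglyMeasurableAtFilter _ _) hc.continuousAt).const_add
      1).const_mul (f i)

lemma m_zero {f : ℕ → ℝ} {K i : ℕ} (hi : i < K) : m f K i 0 = f i := by
  rw [m_lt hi]; simp

lemma m_nonneg {f : ℕ → ℝ} (hf : ∀ k, 0 < f k) {K i : ℕ}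
    {s : ℝ} (hs : 0 ≤ s) : 0 ≤ m f K i s := by
  obtain ⟨n, hn⟩ : ∃ n, K - i = n := ⟨_, rfl⟩
  induction n generalizing i s with
  | zero => rw [m_ge (by omega)]
  | succ n ih =>
      rw [m_lt (by omega)]
      exact mul_nonneg (hf i).le (add_nonneg zero_le_one
        (intervalIntegral.integral_nonneg hs fun u hu => mul_nonneg
          (h_nonneg u) (ih hu.1 (by omega))))

end Pool.Agent.H420.DW
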