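import Pool.Agent.H420.DW.Block

set_option autoImplicit false

open MeasureTheory intervalIntegral

/-!
# Upper bounds for `G`
-/

namespace Pool.Agent.H420.DW

/-- `γ_i = f i * ∑_{i < l ≤ K} 1 / f l` -/
noncomputable def gam (f : ℕ → ℝ) (K i : ℕ) : ℝ := f i * ∑ l ∈ Finset.Ioc i K, 1 / f l

lemma gam_ge {f : ℕ → ℝ} {K i : ℕ} (hi : K ≤ i) : gam f K i = 0 := by
  rw [gam, Finset.Ioc_eq_empty (by omega)]; simp

lemma gam_rec {f : ℕ → ℝ} (hf : ∀ k, 0 < f k) {K i : ℕ} (hi : i < K) :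
    gam f K i * f (i + 1) = f i * (1 + gam f K (i + 1)) := by
  have h1 : Finset.Ioc i K = insert (i + 1) (Finset.Ioc (i + 1) K) := by
    ext a; simp only [Finset.mem_Ioc, Finset.mem_insert]; omega
  rw [gam, gam, h1, Finset.sum_insert (by simp)]
  have := (hf (i + 1)).ne'
  field_simp

lemma gam_nonneg {f : ℕ → ℝ} (hf : ∀ k, 0 < f k) (K i : ℕ) : 0 ≤ gam f K i :=
  mul_nonneg (hf i).le (Finset.sum_nonneg fun l _ => (one_div_pos.2 (hf l)).le)

/-- the exponential function `E_i^(ν)` -/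
noncomputable def EE (f : ℕ → ℝ) (K : ℕ) (ν : ℝ) (i : ℕ) (s : ℝ) : ℝ :=
  Real.exp (Real.exp 1 * f i * s - (1 - ν) * gam f K i)

lemma EE_cont (f : ℕ → ℝ) (K : ℕ) (ν : ℝ) (i : ℕ) : Continuous (EE f K ν i) := by
  unfold EE; fun_prop

lemma EE_pos (f : ℕ → ℝ) (K : ℕ) (ν : ℝ) (i : ℕ) (s : ℝ) : 0 < EE f K ν i s := Real.exp_pos _

lemma EE_mono {f : ℕ → ℝ} (hf : ∀ k, 0 < f k) {K : ℕ} {ν : ℝ} {i : ℕ} {s s' : ℝ} (h : s ≤ s') :
    EE f K ν i s ≤ EE f K ν i s' := by
  unfold EE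
  refine Real.exp_le_exp.2 (sub_le_sub_right (mul_le_mul_of_nonneg_left h ?_) _)
  exact mul_nonneg (Real.exp_pos 1).le (hf i).le

lemma EE_slack {f : ℕ → ℝ} (hf : ∀ k, 0 < f k) (hmono : Monotone f) {K : ℕ} {ν : ℝ}
    {i : ℕ} (hi : i < K) {s : ℝ} (hE : EE f K ν i s ≤ 1) :
    f i * ∫ u in (0 : ℝ)..s, EE f K ν (i + 1) u ≤ Real.exp (-ν) * EE f K ν i s := by
  set b : ℝ := Real.exp 1 * f (i + 1) with hb
  set g : ℝ := (1 - ν) * gam f K (i + 1) with hg
  have hb0 : 0 < b := mul_pos (Real.exp_pos 1) (hf _)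
  have hI : ∫ u in (0 : ℝ)..s, EE f K ν (i + 1) u = (Real.exp (b * s - g) - Real.exp (-g)) / b := by
    have hd : ∀ x ∈ Set.uIcc (0 : ℝ) s, HasDerivAt (fun x => Real.exp (b * x - g) / b)
        (EE f K ν (i + 1) x) x := by
      intro x _
      have h1 : HasDerivAt (fun x : ℝ => b * x - g) b x := by
        simpa using ((hasDerivAt_id x).const_mul b).sub_const g
      have h2 := h1.exp.div_const b
      refine h2.congr_deriv ?_
      rw [mul_div_assoc, div_self hb0.ne', mul_one, EE, hb, hg]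
    rw [intervalIntegral.integral_eq_sub_of_hasDerivAt hd
      ((EE_cont f K ν (i + 1)).intervalIntegrable _ _)]
    simp only [mul_zero, zero_sub]
    ring
  have h1 : f i * ∫ u in (0 : ℝ)..s, EE f K ν (i + 1) u ≤ f i / b * Real.exp (b * s - g) := by
    rw [hI]
    have : 0 < Real.exp (-g) := Real.exp_pos _
    have h2 : f i * ((Real.exp (b * s - g) - Real.exp (-g)) / b)
        = f i / b * Real.exp (b * s - g) - f i / b * Real.exp (-g) := by ring
    have h3 : 0 ≤ f i / b * Real.exp (-g) :=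
      mul_nonneg (div_nonneg (hf i).le hb0.le) this.le
    linarith
  refine h1.trans ?_
  -- now take logarithms
  set x : ℝ := Real.exp 1 * f i * s - (1 - ν) * gam f K i with hx
  have hx0 : x ≤ 0 := by
    rw [EE, Real.exp_le_one_iff] at hE; exact hE
  have hq1 : f i ≤ f (i + 1) := hmono (Nat.le_succ i)
  have e1 : f i * (b * s - g) = f (i + 1) * x + (1 - ν) * f i := by
    have := gam_rec hf hi
    rw [hx, hb, hg]
    linear_combination (1 - ν) * this
  have e2 : b * s - g ≤ x + (1 - ν) := by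
    have h2 : f i * (b * s - g) ≤ f i * (x + (1 - ν)) := by
      rw [e1]
      have : f (i + 1) * x ≤ f i * x := mul_le_mul_of_nonpos_right hq1 hx0
      nlinarith
    exact le_of_mul_le_mul_left h2 (hf i)
  have e3 : f i / b ≤ Real.exp (-1) := by
    rw [hb, div_le_iff₀ (mul_pos (Real.exp_pos 1) (hf _)), ← mul_assoc, ← Real.exp_add]
    simpa using hq1
  calc f i / b * Real.exp (b * s - g) ≤ Real.exp (-1) * Real.exp (x + (1 - ν)) :=
        mul_le_mul e3 (Real.exp_le_exp.2 e2) (Real.exp_pos _).le (Real.exp_pos _).le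
    _ = Real.exp (-ν) * EE f K ν i s := by
        rw [← Real.exp_add, EE, ← hx, ← Real.exp_add]; congr 1; ring

lemma G_le_integral {f : ℕ → ℝ} (hf : ∀ k, 0 < f k) {θ : ℝ} (hθ0 : 0 ≤ θ)
    (hθ1 : θ ≤ 1) {K i : ℕ} (hi : i < K) {s : ℝ} (hs : 0 ≤ s) {F : ℝ → ℝ} (hF : Continuous F)
    {C : ℝ} (hG : ∀ u, 0 ≤ u → G f θ K (i + 1) u ≤ C * F u) :
    G f θ K i s ≤ C * (f i * ∫ u in (0 : ℝ)..s, h f θ K i u * F u) := by
  rw [G_lt hi, ← intervalIntegral.integral_const_mul, ← intervalIntegral.integral_const_mul]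
  refine intervalIntegral.integral_mono_on hs ?_ ?_ fun u hu => ?_
  · exact (((continuous_const.mul (h_cont f θ K i)).mul (G_cont f θ K (i + 1))).intervalIntegrable
      _ _)
  · exact (continuous_const.mul (continuous_const.mul ((h_cont f θ K i).mul
      hF))).intervalIntegrable _ _
  · have h1 := hG u hu.1
    have h2 : 0 ≤ h f θ K i u := h_nonneg u
    have h3 : 0 ≤ G f θ K (i + 1) u := G_nonneg hf hθ0 hu.1
    have h4 : 0 ≤ f i * h f θ K i u := mul_nonneg (hf i).le h2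
    have h5 : θ * G f θ K (i + 1) u ≤ C * F u := by nlinarith
    calc θ * f i * h f θ K i u * G f θ K (i + 1) u
        = (f i * h f θ K i u) * (θ * G f θ K (i + 1) u) := by ring
      _ ≤ (f i * h f θ K i u) * (C * F u) := mul_le_mul_of_nonneg_left h5 h4
      _ = C * (f i * (h f θ K i u * F u)) := by ring

/-- Claim 2 -/
lemma G_le_EE {f : ℕ → ℝ} (hf : ∀ k, 0 < f k) (hmono : Monotone f) {θ : ℝ} (hθ0 : 0 ≤ θ)
    (hθ1 : θ ≤ 1) {K i : ℕ} {s : ℝ} (hs : 0 ≤ s) :
    G f θ K i s ≤ EE f K 0 i s := by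
  obtain ⟨n, hn⟩ : ∃ n, K - i = n := ⟨_, rfl⟩
  induction n generalizing i s with
  | zero =>
      rw [G_ge (by omega), EE, gam_ge (by omega), mul_zero, sub_zero]
      exact Real.one_le_exp (mul_nonneg (mul_nonneg (Real.exp_pos 1).le (hf i).le) hs)
  | succ n ih =>
      rcases le_total (EE f K 0 i s) 1 with h1 | h1
      · have hi : i < K := by omega
        have h2 := G_le_integral hf hθ0 hθ1 hi hs (EE_cont f K 0 (i + 1)) (C := 1)
          (fun u hu => by rw [one_mul]; exact ih hu (by omega))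
        rw [one_mul] at h2
        refine h2.trans (le_trans ?_ ((EE_slack hf hmono hi h1).trans (by simp)))
        refine mul_le_mul_of_nonneg_left (intervalIntegral.integral_mono_on hs ?_ ?_
          fun u hu => ?_) (hf i).le
        · exact ((h_cont f θ K i).mul (EE_cont f K 0 (i + 1))).intervalIntegrable _ _
        · exact (EE_cont f K 0 (i + 1)).intervalIntegrable _ _
        · exact mul_le_of_le_one_left (EE_pos _ _ _ _ _).le (h_le_one hf hθ0 hθ1 hu.1)
      · exact (G_le_one hf hθ0 hθ1 hs).trans h1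

/-- tail of `h` -/
lemma h_tail {f : ℕ → ℝ} (hf : ∀ k, 0 < f k) {θ : ℝ} (hθ0 : 0 ≤ θ)
    (hθ1 : θ ≤ 1) {K i : ℕ} (hi : i < K) {u'' u ρ : ℝ} (hu'' : 0 ≤ u'') (hu : u'' ≤ u)
    (hρ : 0 ≤ ρ) (hp : ρ ≤ p f θ K (i + 1) u'') :
    h f θ K i u ≤ Real.exp (-(f i * ρ * (u - u''))) := by
  rw [h_eq_p hi, Real.exp_le_exp, neg_le_neg_iff, mul_assoc]
  refine mul_le_mul_of_nonneg_left ?_ (hf i).le
  rw [← intervalIntegral.integral_add_adjacent_intervals
    ((p_cont f θ K (i + 1)).intervalIntegrable 0 u'')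
    ((p_cont f θ K (i + 1)).intervalIntegrable u'' u)]
  have h0 : 0 ≤ ∫ u in (0 : ℝ)..u'', p f θ K (i + 1) u :=
    intervalIntegral.integral_nonneg hu'' fun v hv => p_nonneg hf hθ0 hθ1 hv.1
  have h1 : ∫ v in u''..u, ρ ≤ ∫ v in u''..u, p f θ K (i + 1) v :=
    intervalIntegral.integral_mono_on hu (by simp)
      ((p_cont f θ K (i + 1)).intervalIntegrable _ _) fun v hv =>
        hp.trans (p_mono hf hθ0 hθ1 hu'' hv.1)
  rw [intervalIntegral.integral_const, smul_eq_mul] at h1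
  nlinarith

/-- integral of an exponential -/
lemma integral_exp_le {a b s u' : ℝ} (ha : 0 < a) :
    ∫ u in u'..s, Real.exp (-(a * (u - b))) ≤ Real.exp (-(a * (u' - b))) / a := by
  have hd : ∀ x ∈ Set.uIcc u' s, HasDerivAt (fun x => -(Real.exp (-(a * (x - b))) / a))
      (Real.exp (-(a * (x - b)))) x := by
    intro x _
    have h1 : HasDerivAt (fun x : ℝ => -(a * (x - b))) (-a) x := by
      have := (((hasDerivAt_id x).sub_const b).const_mul a).fun_neg
      simpa using this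
    have h2 := (h1.exp.div_const a).fun_neg
    refine h2.congr_deriv ?_
    field_simp
  rw [intervalIntegral.integral_eq_sub_of_hasDerivAt hd
    (Continuous.intervalIntegrable (by fun_prop) _ _)]
  have : 0 < Real.exp (-(a * (s - b))) / a := div_pos (Real.exp_pos _) ha
  linarith

/-- Claim 3, one step: condition (†) -/
lemma dagger {f : ℕ → ℝ} (hf : ∀ k, 0 < f k) (hmono : Monotone f) {θ : ℝ} (hθ0 : 0 ≤ θ)
    (hθ1 : θ ≤ 1) {K i : ℕ} (hi : i < K) {ν ρ u'' u' : ℝ} (hν0 : 0 ≤ ν) (hu'' : 0 ≤ u'')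
    (hu' : u'' ≤ u') (hρ : 0 < ρ) (hp : ρ ≤ p f θ K (i + 1) u'')
    (hγ : Real.exp 1 * f i * u' ≤ (1 - 2 * ν) * gam f K i)
    (hγ2 : Real.exp (-(ν * gam f K i)) ≤ 1 / 2)
    (hx : Real.exp (-(f i * ρ * (u' - u''))) ≤ ρ * Real.exp (-ν) / 2) {s : ℝ} (hs : 0 ≤ s) :
    f i * ∫ u in (0 : ℝ)..s, h f θ K i u * min 1 (EE f K ν (i + 1) u) ≤ Real.exp (-ν) := by
  set F : ℝ → ℝ := fun u => h f θ K i u * min 1 (EE f K ν (i + 1) u) with hF
  have hFc : Continuous F := (h_cont f θ K i).mul (continuous_const.min (EE_cont f K ν (i + 1)))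
  have hF0 : ∀ u, 0 ≤ F u := fun u => mul_nonneg (h_nonneg u)
    (le_min zero_le_one (EE_pos _ _ _ _ _).le)
  have hFE : ∀ u, 0 ≤ u → F u ≤ EE f K ν (i + 1) u := fun u hu =>
    (mul_le_mul (h_le_one hf hθ0 hθ1 hu) (min_le_right _ _)
      (le_min zero_le_one (EE_pos _ _ _ _ _).le) zero_le_one).trans (one_mul _).le
  have hFh : ∀ u, 0 ≤ u → F u ≤ h f θ K i u := fun u hu =>
    (mul_le_mul_of_nonneg_left (min_le_left _ _) (h_nonneg u)).trans (mul_one _).le
  have hu'0 : 0 ≤ u' := hu''.trans hu'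
  have hEu' : EE f K ν i u' ≤ 1 / 2 := by
    refine le_trans ?_ hγ2
    rw [EE]
    refine Real.exp_le_exp.2 ?_
    linarith
  have part1 : f i * ∫ u in (0 : ℝ)..u', F u ≤ Real.exp (-ν) / 2 := by
    have h1 : f i * ∫ u in (0 : ℝ)..u', F u ≤ f i * ∫ u in (0 : ℝ)..u', EE f K ν (i + 1) u :=
      mul_le_mul_of_nonneg_left (intervalIntegral.integral_mono_on hu'0
        (hFc.intervalIntegrable _ _) ((EE_cont f K ν (i + 1)).intervalIntegrable _ _)
        fun u hu => hFE u hu.1) (hf i).le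
    refine h1.trans ((EE_slack hf hmono hi (hEu'.trans (by norm_num))).trans ?_)
    have := Real.exp_pos (-ν)
    nlinarith
  have part2 : ∀ s, u' ≤ s → f i * ∫ u in u'..s, F u ≤ Real.exp (-ν) / 2 := by
    intro s hs'
    have h1 : ∫ u in u'..s, F u ≤ ∫ u in u'..s, Real.exp (-(f i * ρ * (u - u''))) :=
      intervalIntegral.integral_mono_on hs' (hFc.intervalIntegrable _ _)
        (Continuous.intervalIntegrable (by fun_prop) _ _) fun u hu =>
        (hFh u (hu'0.trans hu.1)).trans (h_tail hf hθ0 hθ1 hi hu'' (hu'.trans hu.1) hρ.le hp)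
    have ha : 0 < f i * ρ := mul_pos (hf i) hρ
    have h2 := h1.trans (integral_exp_le ha)
    have h3 : f i * ∫ u in u'..s, F u ≤ f i * (Real.exp (-(f i * ρ * (u' - u''))) / (f i * ρ)) :=
      mul_le_mul_of_nonneg_left h2 (hf i).le
    refine h3.trans ?_
    have h4 : f i * (Real.exp (-(f i * ρ * (u' - u''))) / (f i * ρ))
        = Real.exp (-(f i * ρ * (u' - u''))) / ρ := by
      have := (hf i).ne'
      field_simp
    rw [h4, div_le_iff₀ hρ]
    linarith
  rcases le_total s u' with hsu | hsu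
  · have h1 : ∫ u in (0 : ℝ)..s, F u ≤ ∫ u in (0 : ℝ)..u', F u := by
      rw [← intervalIntegral.integral_add_adjacent_intervals (hFc.intervalIntegrable 0 s)
        (hFc.intervalIntegrable s u')]
      have : 0 ≤ ∫ u in s..u', F u := intervalIntegral.integral_nonneg hsu fun u _ => hF0 u
      linarith
    have h2 := mul_le_mul_of_nonneg_left h1 (hf i).le
    have := Real.exp_pos (-ν)
    linarith
  · have h1 := part2 s hsu
    rw [← intervalIntegral.integral_add_adjacent_intervals (hFc.intervalIntegrable 0 u')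
        (hFc.intervalIntegrable u' s), mul_add]
    linarith

/-- Claim 3 -/
lemma G_le_decay {f : ℕ → ℝ} (hf : ∀ k, 0 < f k) (hmono : Monotone f) {θ : ℝ} (hθ0 : 0 ≤ θ)
    (hθ1 : θ ≤ 1) {K i₁ i₂ : ℕ} (hi₂ : i₂ ≤ K) {ν : ℝ} (hν0 : 0 ≤ ν)
    (hd : ∀ i, i₁ ≤ i → i < i₂ → ∀ s, 0 ≤ s →
      f i * ∫ u in (0 : ℝ)..s, h f θ K i u * min 1 (EE f K ν (i + 1) u) ≤ Real.exp (-ν))
    {i : ℕ} (hi : i₁ ≤ i) (hi' : i ≤ i₂) {s : ℝ} (hs : 0 ≤ s) :
    G f θ K i s ≤ Real.exp (-(ν * ((i₂ - i : ℕ) : ℝ))) * min 1 (EE f K ν i s) := by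
  obtain ⟨n, hn⟩ : ∃ n, i₂ - i = n := ⟨_, rfl⟩
  induction n generalizing i s with
  | zero =>
      rw [hn, Nat.cast_zero, mul_zero, neg_zero, Real.exp_zero, one_mul]
      refine le_min (G_le_one hf hθ0 hθ1 hs) ((G_le_EE hf hmono hθ0 hθ1 hs).trans ?_)
      rw [EE, EE]
      refine Real.exp_le_exp.2 ?_
      have := mul_nonneg hν0 (gam_nonneg hf K i)
      linarith
  | succ n ih =>
      have hiK : i < K := by omega
      have hc : Continuous fun u => min 1 (EE f K ν (i + 1) u) :=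
        continuous_const.min (EE_cont f K ν (i + 1))
      have h1 := G_le_integral hf hθ0 hθ1 hiK hs hc
        (fun u hu => ih (i := i + 1) (by omega) (by omega) hu (by omega))
      have e1 : ((i₂ - i : ℕ) : ℝ) = ((i₂ - (i + 1) : ℕ) : ℝ) + 1 := by
        have : i₂ - i = (i₂ - (i + 1)) + 1 := by omega
        rw [this]; push_cast; ring
      have e2 : Real.exp (-(ν * ((i₂ - i : ℕ) : ℝ)))
          = Real.exp (-(ν * ((i₂ - (i + 1) : ℕ) : ℝ))) * Real.exp (-ν) := by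
        rw [← Real.exp_add, e1]; congr 1; ring
      rw [e2, mul_assoc]
      refine h1.trans (mul_le_mul_of_nonneg_left ?_ (Real.exp_pos _).le)
      rw [mul_min_of_nonneg _ _ (Real.exp_pos _).le, mul_one]
      have h2 := hd i hi (by omega) s hs
      refine le_min h2 ?_
      rcases le_total (EE f K ν i s) 1 with h3 | h3
      · refine le_trans ?_ (EE_slack hf hmono hiK h3)
        refine mul_le_mul_of_nonneg_left (intervalIntegral.integral_mono_on hs ?_ ?_
          fun u hu => ?_) (hf i).le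
        · exact ((h_cont f θ K i).mul hc).intervalIntegrable _ _
        · exact (EE_cont f K ν (i + 1)).intervalIntegrable _ _
        · exact (mul_le_mul (h_le_one hf hθ0 hθ1 hu.1) (min_le_right _ _)
            (le_min zero_le_one (EE_pos _ _ _ _ _).le) zero_le_one).trans (one_mul _).le
      · refine h2.trans ?_
        have := Real.exp_pos (-ν)
        nlinarith

/-- propagation to low levels -/
lemma G_le_low {f : ℕ → ℝ} (hf : ∀ k, 0 < f k) {θ : ℝ} (hθ0 : 0 ≤ θ)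
    (hθ1 : θ ≤ 1) {K i₁ : ℕ} (hi₁ : i₁ ≤ K) {C : ℝ} (hC : 0 ≤ C)
    (h1 : ∀ s, 0 ≤ s → G f θ K i₁ s ≤ C * p f θ K i₁ s) {i : ℕ} (hi : i ≤ i₁) {s : ℝ}
    (hs : 0 ≤ s) : G f θ K i s ≤ C * p f θ K i s := by
  obtain ⟨n, hn⟩ : ∃ n, i₁ - i = n := ⟨_, rfl⟩
  induction n generalizing i s with
  | zero =>
      have : i = i₁ := by omega
      subst this; exact h1 s hs
  | succ n ih =>
      have hiK : i < K := by omega
      have h2 := G_le_integral hf hθ0 hθ1 hiK hs (p_cont f θ K (i + 1))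
        (fun u hu => ih (i := i + 1) (by omega) hu (by omega))
      refine h2.trans (mul_le_mul_of_nonneg_left ?_ hC)
      refine le_trans (le_of_eq ?_) (one_sub_h_le_p hθ1 (K := K) (i := i) s)
      have hd : ∀ x ∈ Set.uIcc (0 : ℝ) s, HasDerivAt (fun x => -h f θ K i x)
          (f i * (h f θ K i x * p f θ K (i + 1) x)) x := by
        intro x _
        refine (h_deriv hiK x).fun_neg.congr_deriv ?_
        rw [p]; ring
      rw [← intervalIntegral.integral_const_mul,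
        intervalIntegral.integral_eq_sub_of_hasDerivAt hd
        ((continuous_const.mul ((h_cont f θ K i).mul (p_cont f θ K (i + 1)))).intervalIntegrable
          _ _), h_zero hiK]
      ring

/-- the bound for `G_0` -/
theorem G_zero_le {f : ℕ → ℝ} (hf : ∀ k, 0 < f k) (hmono : Monotone f) {θ : ℝ} (hθ0 : 0 ≤ θ)
    (hθ1 : θ < 1) {K i₁ i₂ : ℕ} (hi₁ : i₁ ≤ i₂) (hi₂ : i₂ ≤ K) {ν : ℝ} (hν0 : 0 ≤ ν)
    (hd : ∀ i, i₁ ≤ i → i < i₂ → ∀ s, 0 ≤ s →
      f i * ∫ u in (0 : ℝ)..s, h f θ K i u * min 1 (EE f K ν (i + 1) u) ≤ Real.exp (-ν))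
    {s : ℝ} (hs : 0 ≤ s) :
    G f θ K 0 s ≤ Real.exp (-(ν * ((i₂ - i₁ : ℕ) : ℝ))) / (1 - θ) := by
  have hδ : 0 < 1 - θ := by linarith
  have h1 : ∀ s, 0 ≤ s → G f θ K i₁ s
      ≤ Real.exp (-(ν * ((i₂ - i₁ : ℕ) : ℝ))) / (1 - θ) * p f θ K i₁ s := by
    intro s hs
    have h2 := G_le_decay hf hmono hθ0 hθ1.le hi₂ hν0 hd le_rfl hi₁ hs
    refine h2.trans ?_
    rw [div_mul_eq_mul_div, mul_div_assoc]
    refine mul_le_mul_of_nonneg_left ((min_le_left _ _).trans ?_) (Real.exp_pos _).le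
    rw [le_div_iff₀ hδ, one_mul]
    exact p_ge_delta hf hθ0 hθ1.le hs
  have hC : 0 ≤ Real.exp (-(ν * ((i₂ - i₁ : ℕ) : ℝ))) / (1 - θ) :=
    div_nonneg (Real.exp_pos _).le hδ.le
  refine (G_le_low hf hθ0 hθ1.le (hi₁.trans hi₂) hC h1 (Nat.zero_le _) hs).trans ?_
  exact mul_le_of_le_one_right hC (p_le_one hθ0 s)

end Pool.Agent.H420.DW
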