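import Pool.Agent.H420.DW.Asym
import Pool.Agent.H420.DW.Block

set_option autoImplicit false

open Filter Topology

/-!
# Lower bounds for `p` for the weight function
-/

namespace Pool.Agent.H420.DW

/-- `L! e^(L-1) ≤ L^(L+1)`, shifted -/
lemma factorial_le_aux (n : ℕ) :
    ((n + 1).factorial : ℝ) * Real.exp n ≤ ((n : ℝ) + 1) ^ (n + 2) := by
  induction n with
  | zero => simp
  | succ n ih =>
      have h0 : (0 : ℝ) < (n : ℝ) + 1 := by positivity
      have h1 : Real.exp 1 * ((n : ℝ) + 1) ^ (n + 2) ≤ ((n : ℝ) + 2) ^ (n + 2) := by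
        have h2 : 1 - (((n : ℝ) + 2) / ((n : ℝ) + 1))⁻¹
            ≤ Real.log (((n : ℝ) + 2) / ((n : ℝ) + 1)) :=
          Real.one_sub_inv_le_log_of_pos (by positivity)
        have h3 : 1 - (((n : ℝ) + 2) / ((n : ℝ) + 1))⁻¹ = 1 / ((n : ℝ) + 2) := by
          field_simp; ring
        rw [h3] at h2
        have h4 : (1 : ℝ) ≤ ((n + 2 : ℕ) : ℝ) * Real.log (((n : ℝ) + 2) / ((n : ℝ) + 1)) := by
          have := mul_le_mul_of_nonneg_left h2 (by positivity : (0 : ℝ) ≤ ((n + 2 : ℕ) : ℝ))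
          refine le_trans (le_of_eq ?_) this
          push_cast; field_simp
        have h5 : Real.exp 1 ≤ (((n : ℝ) + 2) / ((n : ℝ) + 1)) ^ (n + 2) := by
          rw [← Real.exp_log (by positivity : (0 : ℝ) < (((n : ℝ) + 2) / ((n : ℝ) + 1)) ^ (n + 2)),
            Real.log_pow]
          exact Real.exp_le_exp.2 h4
        rw [div_pow, le_div_iff₀ (by positivity)] at h5
        exact h5
      rw [Nat.factorial_succ]
      push_cast
      rw [Real.exp_add]
      calc ((n : ℝ) + 1 + 1) * ((n + 1).factorial : ℝ) * (Real.exp n * Real.exp 1)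
          = ((n : ℝ) + 2) * Real.exp 1 * (((n + 1).factorial : ℝ) * Real.exp n) := by ring
        _ ≤ ((n : ℝ) + 2) * Real.exp 1 * ((n : ℝ) + 1) ^ (n + 2) :=
            mul_le_mul_of_nonneg_left ih (by positivity)
        _ = ((n : ℝ) + 2) * (Real.exp 1 * ((n : ℝ) + 1) ^ (n + 2)) := by ring
        _ ≤ ((n : ℝ) + 2) * ((n : ℝ) + 2) ^ (n + 2) :=
            mul_le_mul_of_nonneg_left h1 (by positivity)
        _ = ((n : ℝ) + 1 + 1) ^ (n + 1 + 2) := by ring

/-- for `q > 1` there is `L` with `q^L (L/e)^L / L! ≥ 1` -/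
lemma exists_L {q : ℝ} (hq : 1 < q) :
    ∃ L : ℕ, 0 < L ∧ 1 ≤ (q * (L / Real.exp 1)) ^ L / (L.factorial : ℝ) := by
  have h1 : Tendsto (fun n : ℕ => q ^ n / (n : ℝ)) atTop atTop := by
    have h2 := tendsto_pow_const_div_const_pow_of_one_lt 1 hq
    have h2' : Tendsto (fun n : ℕ => (n : ℝ) ^ 1 / q ^ n) atTop (𝓝[>] 0) := by
      rw [tendsto_nhdsWithin_iff]
      refine ⟨h2, ?_⟩
      filter_upwards [eventually_gt_atTop 0] with n hn
      have h4 : (0 : ℝ) < n := Nat.cast_pos.2 hn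
      have h5 : (0 : ℝ) < q := by linarith
      show (0 : ℝ) < (n : ℝ) ^ 1 / q ^ n
      positivity
    have h3 : Tendsto (fun n : ℕ => ((n : ℝ) ^ 1 / q ^ n)⁻¹) atTop atTop :=
      h2'.inv_tendsto_nhdsGT_zero
    refine h3.congr fun n => ?_
    rw [inv_div, pow_one]
  obtain ⟨L, hL⟩ := ((h1.eventually_ge_atTop (Real.exp 1)).and (eventually_gt_atTop 0)).exists
  refine ⟨L, hL.2, ?_⟩
  obtain ⟨n, rfl⟩ : ∃ n, L = n + 1 := ⟨L - 1, by omega⟩
  have h2 := factorial_le_aux n
  have h3 := hL.1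
  have hn0 : (0 : ℝ) < ((n + 1 : ℕ) : ℝ) := by positivity
  rw [le_div_iff₀ hn0] at h3
  rw [le_div_iff₀ (by positivity), one_mul, mul_pow, div_pow]
  have e1 : Real.exp 1 ^ (n + 1) = Real.exp n * Real.exp 1 := by
    rw [← Real.exp_nat_mul, ← Real.exp_add]; congr 1; push_cast; ring
  rw [e1, mul_div_assoc', le_div_iff₀ (by positivity)]
  calc ((n + 1).factorial : ℝ) * (Real.exp n * Real.exp 1)
      = ((n + 1).factorial : ℝ) * Real.exp n * Real.exp 1 := by ring
    _ ≤ ((n : ℝ) + 1) ^ (n + 2) * Real.exp 1 :=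
        mul_le_mul_of_nonneg_right h2 (Real.exp_pos 1).le
    _ = ((n : ℝ) + 1) ^ (n + 1) * (Real.exp 1 * ((n + 1 : ℕ) : ℝ)) := by push_cast; ring
    _ ≤ ((n : ℝ) + 1) ^ (n + 1) * q ^ (n + 1) := mul_le_mul_of_nonneg_left h3 (by positivity)
    _ = q ^ (n + 1) * ((n + 1 : ℕ) : ℝ) ^ (n + 1) := by push_cast; ring

lemma inv_tendsto {c : ℝ} (hc : 0 < c) (A : ℝ) :
    Tendsto (fun i : ℕ => A / (c * ((i : ℝ) + 2))) atTop (𝓝 0) := by
  refine Tendsto.div_atTop tendsto_const_nhds ?_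
  exact Tendsto.const_mul_atTop hc
    (tendsto_atTop_add_const_right _ _ tendsto_natCast_atTop_atTop)

/-- the chain: typical time -/
theorem low_chain {c : ℝ} (hc : 0 < c) {ε : ℝ} (hε0 : 0 < ε) (hε1 : ε ≤ 1 / 20) :
    ∃ ρ : ℝ, 0 < ρ ∧ ρ ≤ 1 / 4 ∧ ∀ᶠ i₀ : ℕ in atTop, ∀ i, i₀ ≤ i → ∀ K : ℕ,
      ρ ≤ p (weight c) 1 K i ((1 + ε) / Real.exp 1 * (XX c i / weight c i)) := by
  have he : 0 < Real.exp 1 := Real.exp_pos 1
  set η : ℝ := ε / 8 with hη
  obtain ⟨L, hL0, hL⟩ := exists_L (q := (1 - η) * (1 + ε / 2)) (by rw [hη]; nlinarith)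
  set t : ℝ := (1 + ε / 2) * (L / Real.exp 1) with ht
  have ht0 : 0 ≤ t := by positivity
  have hA : 1 ≤ (1 - η) ^ L * t ^ L / (L.factorial : ℝ) := by
    refine hL.trans (le_of_eq ?_)
    rw [ht, ← mul_pow]; ring
  set ρ : ℝ := min (1 / 4) (η * Real.exp (-t)) with hρ
  have hη0 : 0 < η := by positivity
  have hρ0 : 0 < ρ := lt_min (by norm_num) (by positivity)
  have hρt : ρ * Real.exp t ≤ η := by
    calc ρ * Real.exp t ≤ η * Real.exp (-t) * Real.exp t :=
          mul_le_mul_of_nonneg_right (min_le_right _ _) (Real.exp_pos _).le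
      _ = η := by rw [mul_assoc, ← Real.exp_add]; simp
  refine ⟨ρ, hρ0, min_le_left _ _, ?_⟩
  set β : ℝ := (1 + ε) / Real.exp 1 with hβ
  have hβ0 : 0 < β := by positivity
  set a : ℝ := (1 - ε / 4) * L with ha
  have ha0 : 0 < a := by
    have : (0 : ℝ) < L := Nat.cast_pos.2 hL0
    rw [ha]; nlinarith
  have hgap : t < β * a := by
    rw [ht, hβ, ha]
    have h1 : (1 + ε) / Real.exp 1 * ((1 - ε / 4) * L)
        = ((1 + ε) * (1 - ε / 4)) * (L / Real.exp 1) := by ring
    rw [h1]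
    refine mul_lt_mul_of_pos_right (by nlinarith) (div_pos (Nat.cast_pos.2 hL0) he)
  -- the eventual condition
  have h1 : ∀ᶠ i : ℕ in atTop, t + β * ((L : ℝ) / (c * ((i : ℝ) + 2))) + β * a * (a / XX c i)
      ≤ β * a := by
    have h2 : Tendsto (fun i : ℕ => t + β * ((L : ℝ) / (c * ((i : ℝ) + 2)))
        + β * a * (a / XX c i)) atTop (𝓝 (t + β * 0 + β * a * 0)) := by
      refine (tendsto_const_nhds.add ((inv_tendsto hc L).const_mul β)).add
        (Tendsto.const_mul (β * a) ?_)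
      exact Tendsto.div_atTop tendsto_const_nhds (XX_tendsto hc)
    have h3 : t + β * 0 + β * a * 0 < β * a := by simpa using hgap
    exact (h2.eventually_lt_const h3).mono fun i hi => hi.le
  have h2 := weight_add_ge hc (ε := ε / 4) (by positivity) (A := 1) zero_le_one
  have h3 : ∀ᶠ i : ℕ in atTop, (L : ℝ) ≤ XX c i := (XX_tendsto hc).eventually_ge_atTop _
  have h4 : ∀ᶠ i : ℕ in atTop, weight c i ≤ weight c (i + L) ∧
      β * (XX c (i + L) / weight c (i + L)) + t / weight c i ≤ β * (XX c i / weight c i) := by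
    filter_upwards [h1, h2, h3] with i hi1 hi2 hi3
    refine ⟨weight_mono hc (Nat.le_add_right i L), ?_⟩
    have hw : 0 < weight c i := weight_pos c i
    have hw' : 0 < weight c (i + L) := weight_pos c _
    have hX : 0 < XX c i := XX_pos hc i
    have h5 := hi2 L (by linarith)
    set y : ℝ := a / XX c i with hy
    have hy0 : 0 ≤ y := by positivity
    have h6 : XX c (i + L) ≤ XX c i + L / (c * ((i : ℝ) + 2)) := XX_add_le hc i L
    have h7 : XX c (i + L) / weight c (i + L)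
        ≤ (XX c i + L / (c * ((i : ℝ) + 2))) * Real.exp (-y) / weight c i := by
      rw [div_le_div_iff₀ hw' hw]
      have h8 : weight c i = Real.exp (-y) * (weight c i * Real.exp y) := by
        rw [mul_comm (weight c i), ← mul_assoc, ← Real.exp_add]; simp
      have h9 : XX c (i + L) * weight c i ≤ (XX c i + L / (c * ((i : ℝ) + 2))) *
          (Real.exp (-y) * weight c (i + L)) := by
        refine mul_le_mul h6 ?_ hw.le ((XX_pos hc _).le.trans h6)
        rw [h8]
        refine mul_le_mul_of_nonneg_left ?_ (Real.exp_pos _).le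
        have : Real.exp (-y) * (weight c i * Real.exp y) * Real.exp y ≤ weight c (i + L) := by
          refine le_trans (le_of_eq ?_) h5
          rw [← h8]
        linarith
      linarith
    have h8 : (1 - y) * y ≤ 1 - Real.exp (-y) := one_sub_exp_ge hy0 le_rfl
    have hr0 : 0 ≤ (L : ℝ) / (c * ((i : ℝ) + 2)) := by positivity
    have h9 : (XX c i + L / (c * ((i : ℝ) + 2))) * Real.exp (-y)
        ≤ XX c i * (1 - (1 - y) * y) + L / (c * ((i : ℝ) + 2)) := by
      have h10 : Real.exp (-y) ≤ 1 := by rw [Real.exp_le_one_iff]; linarith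
      have h11 : XX c i * Real.exp (-y) ≤ XX c i * (1 - (1 - y) * y) :=
        mul_le_mul_of_nonneg_left (by linarith) hX.le
      nlinarith
    have h10 : XX c i * ((1 - y) * y) = a * (1 - y) := by
      rw [hy]; field_simp
    have h11 : β * ((XX c i + L / (c * ((i : ℝ) + 2))) * Real.exp (-y)) + t ≤ β * XX c i := by
      have h12 := mul_le_mul_of_nonneg_left h9 hβ0.le
      have h13 : β * (XX c i * (1 - (1 - y) * y) + L / (c * ((i : ℝ) + 2)))
          = β * XX c i - β * (XX c i * ((1 - y) * y)) + β * (L / (c * ((i : ℝ) + 2))) := by ring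
      rw [h13, h10] at h12
      have h14 : β * (a * (1 - y)) = β * a - β * a * (a / XX c i) := by rw [hy]; ring
      linarith
    calc β * (XX c (i + L) / weight c (i + L)) + t / weight c i
        ≤ β * ((XX c i + L / (c * ((i : ℝ) + 2))) * Real.exp (-y) / weight c i)
          + t / weight c i := by
            have := mul_le_mul_of_nonneg_left h7 hβ0.le
            linarith
      _ = (β * ((XX c i + L / (c * ((i : ℝ) + 2))) * Real.exp (-y)) + t) / weight c i := by ring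
      _ ≤ β * XX c i / weight c i := div_le_div_of_nonneg_right h11 hw.le
      _ = _ := by ring
  obtain ⟨i₁, hi₁⟩ := eventually_atTop.1 h4
  filter_upwards [eventually_ge_atTop i₁] with i₀ hi₀ i hi K
  exact chain (weight_pos c) (weight_mono hc) zero_le_one le_rfl (i₀ := i₀) hL0 ht0 hρ0.le
    (by linarith) hρt (D := fun i => β * (XX c i / weight c i))
    (fun i _ => mul_nonneg hβ0.le (div_nonneg (XX_pos hc i).le (weight_pos c i).le))
    (fun i hi => (hi₁ i (hi₀.trans hi)).2) hA hi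

lemma exp_three_ge : (20 : ℝ) ≤ Real.exp 3 := by
  have h1 : Real.exp 3 = Real.exp 1 ^ 3 := by rw [← Real.exp_nat_mul]; norm_num
  have h2 := Real.exp_one_gt_d9
  rw [h1]
  have h3 : (2.718 : ℝ) ^ 3 ≤ Real.exp 1 ^ 3 := pow_le_pow_left₀ (by norm_num) (by linarith) 3
  have h4 : (20 : ℝ) ≤ (2.718 : ℝ) ^ 3 := by norm_num
  linarith

/-- slightly before the typical time -/
theorem low_early {c : ℝ} (hc : 0 < c) {ε : ℝ} (hε0 : 0 < ε) (hε1 : ε ≤ 1 / 20) :
    ∃ ρ : ℝ, 0 < ρ ∧ ∀ᶠ i₀ : ℕ in atTop, ∀ i, i₀ ≤ i → ∀ K : ℕ,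
      ρ * Real.exp (-(24 * ε * XX c i))
        ≤ p (weight c) 1 K i ((1 - ε) / Real.exp 1 * (XX c i / weight c i)) := by
  obtain ⟨ρ, hρ0, hρ1, h1⟩ := low_chain hc hε0 hε1
  have he : 0 < Real.exp 1 := Real.exp_pos 1
  refine ⟨ρ / 20, by positivity, ?_⟩
  have h2 := weight_add_ge hc (ε := ε) hε0 (A := 1) zero_le_one
  have h3 : ∀ᶠ i : ℕ in atTop, 2 / ε ≤ XX c i := (XX_tendsto hc).eventually_ge_atTop _
  have h4 : ∀ᶠ i : ℕ in atTop, (1 : ℝ) / (c * ((i : ℝ) + 2)) ≤ ε :=
    ((inv_tendsto hc 1).eventually_lt_const hε0).mono fun i hi => hi.le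
  obtain ⟨i₁, hi₁⟩ := eventually_atTop.1 ((h2.and h3).and h4)
  obtain ⟨i₂, hi₂⟩ := eventually_atTop.1 h1
  filter_upwards [eventually_ge_atTop (max i₁ i₂)] with i₀ hi₀ i hi K
  obtain ⟨⟨hw, hX⟩, hr⟩ := hi₁ i (((le_max_left _ _).trans hi₀).trans hi)
  have hX0 : 0 < XX c i := XX_pos hc i
  have hwi : 0 < weight c i := weight_pos c i
  set j : ℕ := ⌈8 * ε * XX c i⌉₊ with hj
  have hj1 : 8 * ε * XX c i ≤ j := Nat.le_ceil _
  have hj2 : (j : ℝ) ≤ 8 * ε * XX c i + 1 := (Nat.ceil_lt_add_one (by positivity)).le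
  have hX40 : 40 ≤ XX c i := by
    refine le_trans ?_ hX
    rw [le_div_iff₀ hε0]; linarith
  have hj3 : (j : ℝ) ≤ 1 * XX c i := by nlinarith
  have h5 := hw j hj3
  have h6 := hi₂ i₂ le_rfl (i + j) (((le_max_right _ _).trans hi₀).trans
    (hi.trans (Nat.le_add_right i j))) K
  set s : ℝ := (1 + ε) / Real.exp 1 * (XX c (i + j) / weight c (i + j)) with hs
  have hs0 : 0 ≤ s := mul_nonneg (by positivity)
    (div_nonneg (XX_pos hc _).le (weight_pos c _).le)
  have h7 := early (weight_pos c) (weight_mono hc) zero_le_one le_rfl hs0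
    (t := 1 / 10) (by norm_num) (by norm_num) hρ0.le (η := 1 / 2) (by norm_num) (by
      have h8 : Real.exp (1 / 10) ≤ 2 := by
        have h9 : Real.exp (1 / 10) - 1 ≤ 1 / 10 + (1 / 10) ^ 2 := by
          have := Real.abs_exp_sub_one_sub_id_le (x := 1 / 10) (by norm_num [abs_of_pos])
          have h2 := (abs_le.1 this).2
          linarith
        norm_num at h9 ⊢
        linarith
      nlinarith) h6
  -- the time
  set y : ℝ := 8 * ε * (1 - ε) with hy
  have hy0 : 0 ≤ y := by rw [hy]; exact mul_nonneg (by positivity) (by linarith)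
  have h8 : Real.exp y ≤ Real.exp ((1 - ε) * j / XX c i) := by
    refine Real.exp_le_exp.2 ?_
    rw [le_div_iff₀ hX0, hy]
    nlinarith
  have h9 : weight c i * Real.exp y ≤ weight c (i + j) :=
    (mul_le_mul_of_nonneg_left h8 hwi.le).trans h5
  have h10 : XX c (i + j) ≤ XX c i * (1 + ε) := by
    refine (XX_add_le hc i j).trans ?_
    have h11 : (j : ℝ) / (c * ((i : ℝ) + 2)) = j * (1 / (c * ((i : ℝ) + 2))) := by ring
    rw [h11]
    have h12 : (j : ℝ) * (1 / (c * ((i : ℝ) + 2))) ≤ XX c i * ε :=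
      mul_le_mul (by linarith) hr (by positivity) hX0.le
    linarith
  have hexpy : Real.exp (-y) ≤ 1 - y + y ^ 2 / 2 := by
    have h2 : 1 + y + y ^ 2 / 2 ≤ Real.exp y := Real.quadratic_le_exp_of_nonneg hy0
    have h3 : Real.exp (-y) * Real.exp y = 1 := by rw [← Real.exp_add]; simp
    have h4 : 0 < Real.exp (-y) := Real.exp_pos _
    have h5 : Real.exp (-y) * (1 + y + y ^ 2 / 2) ≤ 1 := by nlinarith
    have h6 : 0 < 1 + y + y ^ 2 / 2 := by positivity
    have h7 : Real.exp (-y) ≤ 1 / (1 + y + y ^ 2 / 2) := by rw [le_div_iff₀ h6]; exact h5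
    have h8 : 1 / (1 + y + y ^ 2 / 2) ≤ 1 - y + y ^ 2 / 2 := by
      rw [div_le_iff₀ h6]
      nlinarith [sq_nonneg (y ^ 2)]
    exact h7.trans h8
  have h11 : XX c (i + j) / weight c (i + j) ≤ XX c i * (1 + ε) * Real.exp (-y) / weight c i := by
    rw [div_le_div_iff₀ (weight_pos c _) hwi]
    have h12 : weight c i ≤ Real.exp (-y) * weight c (i + j) := by
      have h13 := mul_le_mul_of_nonneg_left h9 (Real.exp_pos (-y)).le
      have h14 : Real.exp (-y) * (weight c i * Real.exp y) = weight c i := by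
        rw [mul_comm (weight c i), ← mul_assoc, ← Real.exp_add]; simp
      linarith
    calc XX c (i + j) * weight c i ≤ XX c i * (1 + ε) * (Real.exp (-y) * weight c (i + j)) :=
          mul_le_mul h10 h12 hwi.le (by positivity)
      _ = _ := by ring
  have htime : s + j * (1 / 10 / weight c i) ≤ (1 - ε) / Real.exp 1 * (XX c i / weight c i) := by
    have h12 : s ≤ (1 + ε) / Real.exp 1 * (XX c i * (1 + ε) * Real.exp (-y) / weight c i) :=
      mul_le_mul_of_nonneg_left h11 (by positivity)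
    have he2 : Real.exp 1 ≤ 2.72 := by have := Real.exp_one_lt_d9; linarith
    have h13 : (1 + ε) ^ 2 * Real.exp (-y) + Real.exp 1 * (8 * ε + 1 / XX c i) / 10 ≤ 1 - ε := by
      have h14 : 1 / XX c i ≤ ε / 2 := by
        rw [div_le_iff₀ hX0]
        rw [div_le_iff₀ hε0] at hX
        nlinarith
      have h15 : Real.exp 1 * (8 * ε + 1 / XX c i) / 10 ≤ 2.72 * (8 * ε + ε / 2) / 10 := by
        have : Real.exp 1 * (8 * ε + 1 / XX c i) ≤ 2.72 * (8 * ε + ε / 2) :=
          mul_le_mul he2 (by linarith) (by positivity) (by norm_num)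
        linarith
      have h16 : (1 + ε) ^ 2 * Real.exp (-y) ≤ (1 + ε) ^ 2 * (1 - y + y ^ 2 / 2) :=
        mul_le_mul_of_nonneg_left hexpy (by positivity)
      have h17 : (1 + ε) ^ 2 * (1 - y + y ^ 2 / 2) ≤ 1 - 4.5 * ε := by
        have h18 : y ^ 2 / 2 ≤ 32 * ε ^ 2 := by
          rw [hy]
          have : (8 * ε * (1 - ε)) ^ 2 = 64 * ε ^ 2 * (1 - ε) ^ 2 := by ring
          rw [this]
          have h19 : (1 - ε) ^ 2 ≤ 1 := by nlinarith
          nlinarith [sq_nonneg ε]
        have h19 : 1 - y + y ^ 2 / 2 ≤ 1 - 8 * ε + 40 * ε ^ 2 := by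
          rw [hy] at h18 ⊢; linarith
        have h20 : (1 + ε) ^ 2 * (1 - y + y ^ 2 / 2) ≤ (1 + ε) ^ 2 * (1 - 8 * ε + 40 * ε ^ 2) :=
          mul_le_mul_of_nonneg_left h19 (by positivity)
        have h21 : (1 + ε) ^ 2 * (1 - 8 * ε + 40 * ε ^ 2)
            = 1 - 6 * ε + 25 * ε ^ 2 + 72 * ε ^ 3 + 40 * ε ^ 4 := by ring
        have h22 : ε ^ 2 ≤ ε / 20 := by nlinarith
        have h23 : ε ^ 3 ≤ ε / 400 := by nlinarith
        have h24 : ε ^ 4 ≤ ε / 8000 := by nlinarith
        rw [h21] at h20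
        linarith
      linarith
    calc s + j * (1 / 10 / weight c i)
        ≤ (1 + ε) / Real.exp 1 * (XX c i * (1 + ε) * Real.exp (-y) / weight c i)
          + (8 * ε * XX c i + 1) * (1 / 10 / weight c i) := by
            have := mul_le_mul_of_nonneg_right hj2 (by positivity : 0 ≤ 1 / 10 / weight c i)
            linarith
      _ = ((1 + ε) ^ 2 * Real.exp (-y) + Real.exp 1 * (8 * ε + 1 / XX c i) / 10)
            * (XX c i / (Real.exp 1 * weight c i)) := by field_simp
      _ ≤ (1 - ε) * (XX c i / (Real.exp 1 * weight c i)) :=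
          mul_le_mul_of_nonneg_right h13 (by positivity)
      _ = _ := by field_simp
  refine le_trans ?_ (h7.trans (p_mono (weight_pos c) zero_le_one le_rfl
    (add_nonneg hs0 (by positivity)) htime))
  -- the size
  have h12 : ((1 - 1 / 2) * (1 / 10) : ℝ) ^ j = (20 : ℝ)⁻¹ ^ j := by norm_num
  rw [h12]
  have h13 : Real.exp (-3) ^ j ≤ (20 : ℝ)⁻¹ ^ j * 1 ∨ True := Or.inr trivial
  have h14 : (20 : ℝ)⁻¹ ^ j = Real.exp (-(Real.log 20 * j)) := by
    rw [← Real.exp_log (by norm_num : (0 : ℝ) < 20), ← Real.exp_neg, ← Real.exp_nat_mul,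
      Real.exp_log (by norm_num)]
    congr 1; ring
  have hlog20 : Real.log 20 ≤ 3 := by
    rw [Real.log_le_iff_le_exp (by norm_num)]; exact exp_three_ge
  have hlog20' : 0 ≤ Real.log 20 := Real.log_nonneg (by norm_num)
  rw [h14]
  have h15 : Real.exp (-(Real.log 20)) = 1 / 20 := by
    rw [Real.exp_neg, Real.exp_log (by norm_num)]; norm_num
  have h16 : ρ / 20 * Real.exp (-(24 * ε * XX c i))
      = ρ * Real.exp (-(Real.log 20) + -(24 * ε * XX c i)) := by
    rw [Real.exp_add, h15]; ring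
  rw [h16]
  refine mul_le_mul_of_nonneg_left (Real.exp_le_exp.2 ?_) hρ0.le
  have h17 : Real.log 20 * j ≤ Real.log 20 * (8 * ε * XX c i + 1) :=
    mul_le_mul_of_nonneg_left hj2 hlog20'
  have h18 : Real.log 20 * (8 * ε * XX c i) ≤ 3 * (8 * ε * XX c i) :=
    mul_le_mul_of_nonneg_right hlog20 (by positivity)
  linarith

/-- decreasing thresholds -/
lemma thr_anti' {c : ℝ} (hc : 0 < c) : ∀ᶠ i : ℕ in atTop,
    XX c (i + 1) / weight c (i + 1) ≤ XX c i / weight c i := by
  have h2 := weight_add_ge hc (ε := 1 / 2) (by norm_num) (A := 1) zero_le_one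
  have h3 : ∀ᶠ i : ℕ in atTop, 1 ≤ XX c i := (XX_tendsto hc).eventually_ge_atTop _
  have h4 : ∀ᶠ i : ℕ in atTop, (1 : ℝ) / (c * ((i : ℝ) + 2)) ≤ 1 / 2 :=
    ((inv_tendsto hc 1).eventually_lt_const (by norm_num)).mono fun i hi => hi.le
  filter_upwards [h2, h3, h4] with i hi2 hi3 hi4
  have hw : 0 < weight c i := weight_pos c i
  have hw' : 0 < weight c (i + 1) := weight_pos c _
  have hX : 0 < XX c i := XX_pos hc i
  have h5 := hi2 1 (by push_cast; linarith)
  have h6 := XX_add_le hc i 1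
  push_cast at h5 h6
  rw [div_le_div_iff₀ hw' hw]
  have h7 : 1 + (1 - 1 / 2) * 1 / XX c i ≤ Real.exp ((1 - 1 / 2) * 1 / XX c i) := by
    have := Real.add_one_le_exp ((1 - 1 / 2) * 1 / XX c i); linarith
  have h8 : weight c i * (1 + (1 - 1 / 2) * 1 / XX c i) ≤ weight c (i + 1) :=
    (mul_le_mul_of_nonneg_left h7 hw.le).trans h5
  have h9 : XX c i * (weight c i * (1 + (1 - 1 / 2) * 1 / XX c i))
      = weight c i * (XX c i + 1 / 2) := by field_simp; ring
  calc XX c (i + 1) * weight c i ≤ (XX c i + 1 / 2) * weight c i :=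
        mul_le_mul_of_nonneg_right (by linarith) hw.le
    _ = XX c i * (weight c i * (1 + (1 - 1 / 2) * 1 / XX c i)) := by rw [h9]; ring
    _ ≤ XX c i * weight c (i + 1) := mul_le_mul_of_nonneg_left h8 hX.le

end Pool.Agent.H420.DW
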