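import Pool.Agent.H420.DW.Low1
import Pool.Agent.H420.DW.Gbound
import Pool.Agent.H420.DW.Yfam
import Pool.Agent.H420.DW.Pot

set_option autoImplicit false

open Filter Topology MeasureTheory intervalIntegral

/-!
# The upper bound for the depth
-/

namespace Pool.Agent.H420.DW

lemma exp_neg_le_quad {y : ℝ} (hy0 : 0 ≤ y) : Real.exp (-y) ≤ 1 - y + y ^ 2 / 2 := by
  have h2 : 1 + y + y ^ 2 / 2 ≤ Real.exp y := Real.quadratic_le_exp_of_nonneg hy0
  have h3 : Real.exp (-y) * Real.exp y = 1 := by rw [← Real.exp_add]; simp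
  have h4 : 0 < Real.exp (-y) := Real.exp_pos _
  have h5 : Real.exp (-y) * (1 + y + y ^ 2 / 2) ≤ 1 := by nlinarith
  have h6 : 0 < 1 + y + y ^ 2 / 2 := by positivity
  have h7 : Real.exp (-y) ≤ 1 / (1 + y + y ^ 2 / 2) := by rw [le_div_iff₀ h6]; exact h5
  have h8 : 1 / (1 + y + y ^ 2 / 2) ≤ 1 - y + y ^ 2 / 2 := by
    rw [div_le_iff₀ h6]
    nlinarith [sq_nonneg (y ^ 2)]
  exact h7.trans h8

/-- growth -/
theorem up_growth {c : ℝ} (hc : 0 < c) {ν : ℝ} (hν0 : 0 < ν) (hν1 : ν ≤ 1 / 20) :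
    ∃ (L : ℝ) (ρ : ℝ), 0 < L ∧ 0 < ρ ∧ ρ ≤ 1 ∧ ∀ᶠ i : ℕ in atTop, ∀ (K : ℕ) (θ : ℝ), 0 ≤ θ →
      θ ≤ 1 → min ρ ((1 - θ) * Real.exp ((1 - ν) * (1 - 7 * ν) ^ 2 / 2 * XX c i - 3 * L))
        ≤ p (weight c) θ K i ((1 - 5 * ν) / Real.exp 1 * (XX c i / weight c i)) := by
  have he : 0 < Real.exp 1 := Real.exp_pos 1
  obtain ⟨L, hL0, hL⟩ := exists_L (q := 1 + ν) (by linarith)
  set κ : ℝ := 1 - 7 * ν with hκ
  have hκ0 : 1 / 2 ≤ κ := by rw [hκ]; linarith
  have hκ1 : κ ≤ 1 := by rw [hκ]; linarith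
  have hLr : (0 : ℝ) < L := Nat.cast_pos.2 hL0
  have hρ1 : ν / 2 * Real.exp (-(4 * (L : ℝ))) ≤ 1 := by
    have h1 : Real.exp (-(4 * (L : ℝ))) ≤ 1 := by rw [Real.exp_le_one_iff]; linarith
    have h2 := Real.exp_pos (-(4 * (L : ℝ)))
    nlinarith
  refine ⟨L, ν / 2 * Real.exp (-(4 * (L : ℝ))), hLr, by positivity, hρ1, ?_⟩
  have h2 := weight_add_ge hc (ε := ν) hν0 (A := 1) zero_le_one
  have h3 : ∀ᶠ i : ℕ in atTop, 4 * (L : ℝ) / κ ≤ XX c i := (XX_tendsto hc).eventually_ge_atTop _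
  filter_upwards [h2, h3] with i hw hX K θ hθ0 hθ1
  have hX0 : 0 < XX c i := XX_pos hc i
  have hwi : 0 < weight c i := weight_pos c i
  set X : ℝ := XX c i with hXdef
  have hκ0' : 0 < κ := by linarith
  have hκX : 4 * (L : ℝ) ≤ κ * X := by
    rw [div_le_iff₀ hκ0'] at hX; linarith
  set R : ℕ := ⌊κ * X / L⌋₊ with hR
  have hR1 : (R : ℝ) ≤ κ * X / L := Nat.floor_le (by positivity)
  have hR2 : κ * X / L < R + 1 := Nat.lt_floor_add_one _
  have hRL1 : (R : ℝ) * L ≤ κ * X := by rwa [le_div_iff₀ hLr] at hR1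
  have hRL2 : κ * X - L ≤ R * L := by
    rw [div_lt_iff₀ hLr] at hR2; linarith
  have hRpos : (0 : ℝ) < R := by
    have : 0 < (R : ℝ) * L := by linarith
    exact pos_of_mul_pos_left this hLr.le
  set τ : ℝ := (1 - 5 * ν) / Real.exp 1 * (X / weight c i) with hτ
  have h5ν : 0 ≤ 1 - 5 * ν := by linarith
  have hτ0 : 0 ≤ τ := by positivity
  set Δ : ℝ := τ / R with hΔ
  have hΔ0 : 0 ≤ Δ := div_nonneg hτ0 hRpos.le
  have hRΔ : (R : ℝ) * Δ = τ := by rw [hΔ]; field_simp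
  -- `w_i Δ`
  have hwΔ : weight c i * Δ = (1 - 5 * ν) / Real.exp 1 * (X / R) := by
    rw [hΔ, hτ]; field_simp
  have hXR1 : (L : ℝ) / κ ≤ X / R := by
    rw [div_le_div_iff₀ hκ0' hRpos]; linarith
  have hXR2 : X / R ≤ 4 * L := by
    rw [div_le_iff₀ hRpos]
    have : κ * X / 2 ≤ R * L := by linarith
    nlinarith
  have hlow : (1 + 2 * ν) * (L / Real.exp 1) ≤ weight c i * Δ := by
    rw [hwΔ]
    have h4 : (1 + 2 * ν) * κ ≤ 1 - 5 * ν := by rw [hκ]; nlinarith
    have h5 : (1 - 5 * ν) / Real.exp 1 * (L / κ) ≤ (1 - 5 * ν) / Real.exp 1 * (X / R) :=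
      mul_le_mul_of_nonneg_left hXR1 (by positivity)
    refine le_trans ?_ h5
    have h6 : (1 - 5 * ν) / Real.exp 1 * (L / κ) = (1 - 5 * ν) / κ * (L / Real.exp 1) := by
      field_simp
    rw [h6]
    refine mul_le_mul_of_nonneg_right ?_ (by positivity)
    rw [le_div_iff₀ hκ0']; exact h4
  have hrL : ∀ r < R, ((r * L : ℕ) : ℝ) ≤ 1 * X := by
    intro r hr
    have h4 : (r : ℝ) ≤ R := Nat.cast_le.2 hr.le
    have h5 : (r : ℝ) * L ≤ R * L := mul_le_mul_of_nonneg_right h4 hLr.le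
    push_cast
    nlinarith
  have hg := growth (f := weight c) (weight_pos c) (weight_mono hc) hθ0 hθ1 (K := K) (i := i)
    (L := L) (R := R) (Δ := Δ) (T := 4 * L) (ρ := ν / 2 * Real.exp (-(4 * (L : ℝ))))
    (δ := 1 - θ) (η := ν / 2) hΔ0 (by positivity) (by linarith) (by linarith)
    (by rw [mul_assoc, ← Real.exp_add]; simp)
    (a := fun r => Real.exp ((1 - ν) * (r * (L : ℝ) ^ 2 / X)))
    (fun r hr => by
      have h4 := weight_add_le hc i (r * L)
      have h5 : Real.exp (((r * L : ℕ) : ℝ) / X) ≤ Real.exp 1 := by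
        refine Real.exp_le_exp.2 ?_
        rw [div_le_one hX0]; have := hrL r hr; linarith
      have h6 : weight c (i + r * L) ≤ weight c i * Real.exp 1 :=
        h4.trans (mul_le_mul_of_nonneg_left h5 hwi.le)
      calc weight c (i + r * L) * Δ ≤ weight c i * Real.exp 1 * Δ :=
            mul_le_mul_of_nonneg_right h6 hΔ0
        _ = Real.exp 1 * (weight c i * Δ) := by ring
        _ = (1 - 5 * ν) * (X / R) := by rw [hwΔ]; field_simp
        _ ≤ 1 * (X / R) := mul_le_mul_of_nonneg_right (by linarith) (by positivity)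
        _ ≤ 4 * L := by rw [one_mul]; exact hXR2)
    (fun r _ => Real.one_le_exp (mul_nonneg (by linarith) (by positivity)))
    (fun r hr => by
      have h4 := hw (r * L) (hrL r hr)
      have h5 : (1 - ν) * ((r * L : ℕ) : ℝ) / X = (1 - ν) * (r * (L : ℝ) / X) := by
        push_cast; ring
      rw [h5] at h4
      have h6 : (1 + 2 * ν) * (L / Real.exp 1) * Real.exp ((1 - ν) * (r * (L : ℝ) / X))
          ≤ weight c (i + r * L) * Δ := by
        calc (1 + 2 * ν) * (L / Real.exp 1) * Real.exp ((1 - ν) * (r * (L : ℝ) / X))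
            ≤ weight c i * Δ * Real.exp ((1 - ν) * (r * (L : ℝ) / X)) :=
              mul_le_mul_of_nonneg_right hlow (Real.exp_pos _).le
          _ = (weight c i * Real.exp ((1 - ν) * (r * (L : ℝ) / X))) * Δ := by ring
          _ ≤ _ := mul_le_mul_of_nonneg_right h4 hΔ0
      have h7 : (1 + ν) * (L / Real.exp 1) * Real.exp ((1 - ν) * (r * (L : ℝ) / X))
          ≤ (1 - ν / 2) * (weight c (i + r * L) * Δ) := by
        refine le_trans ?_ (mul_le_mul_of_nonneg_left h6 (by linarith : (0:ℝ) ≤ 1 - ν / 2))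
        have h8 : 1 + ν ≤ (1 - ν / 2) * (1 + 2 * ν) := by nlinarith
        have h9 : 0 ≤ (L / Real.exp 1) * Real.exp ((1 - ν) * (r * (L : ℝ) / X)) := by positivity
        calc (1 + ν) * (L / Real.exp 1) * Real.exp ((1 - ν) * (r * (L : ℝ) / X))
            = (1 + ν) * ((L / Real.exp 1) * Real.exp ((1 - ν) * (r * (L : ℝ) / X))) := by ring
          _ ≤ ((1 - ν / 2) * (1 + 2 * ν)) * ((L / Real.exp 1) *
              Real.exp ((1 - ν) * (r * (L : ℝ) / X))) := mul_le_mul_of_nonneg_right h8 h9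
          _ = _ := by ring
      have h8 := pow_le_pow_left₀ (by positivity) h7 L
      rw [mul_pow, mul_pow (1 - ν / 2)] at h8
      have h9 : Real.exp ((1 - ν) * (r * (L : ℝ) / X)) ^ L
          = Real.exp ((1 - ν) * (r * (L : ℝ) ^ 2 / X)) := by
        rw [← Real.exp_nat_mul]; congr 1; ring
      rw [h9] at h8
      have hfac : (0 : ℝ) < (L.factorial : ℝ) := by positivity
      rw [le_div_iff₀ hfac]
      rw [le_div_iff₀ hfac, one_mul] at hL
      calc Real.exp ((1 - ν) * (r * (L : ℝ) ^ 2 / X)) * (L.factorial : ℝ)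
          ≤ Real.exp ((1 - ν) * (r * (L : ℝ) ^ 2 / X)) * ((1 + ν) * (L / Real.exp 1)) ^ L :=
            mul_le_mul_of_nonneg_left hL (Real.exp_pos _).le
        _ = ((1 + ν) * (L / Real.exp 1)) ^ L * Real.exp ((1 - ν) * (r * (L : ℝ) ^ 2 / X)) := by
            ring
        _ ≤ _ := h8)
    (p_ge_delta (weight_pos c) hθ0 hθ1 le_rfl)
  rw [hRΔ] at hg
  refine le_trans (min_le_min le_rfl ?_) hg
  refine mul_le_mul_of_nonneg_left ?_ (by linarith)
  rw [← Real.exp_sum]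
  refine Real.exp_le_exp.2 ?_
  rw [← Finset.mul_sum]
  have hsum : ∑ r ∈ Finset.range R, ((r : ℝ) * (L : ℝ) ^ 2 / X)
      = (R * (R - 1) / 2) * ((L : ℝ) ^ 2 / X) := by
    have h4 : ∑ r ∈ Finset.range R, (r : ℝ) = R * (R - 1) / 2 := by
      have := Finset.sum_range_id_mul_two R
      have h5 : ((∑ r ∈ Finset.range R, r : ℕ) : ℝ) * 2 = R * (R - 1) := by
        have h6 : ((∑ r ∈ Finset.range R, r : ℕ) * 2 : ℕ) = R * (R - 1) := this
        have h7 : 1 ≤ R := by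
          have : 0 < R := Nat.cast_pos.1 hRpos
          omega
        have h8 : (((∑ r ∈ Finset.range R, r : ℕ) * 2 : ℕ) : ℝ) = ((R * (R - 1) : ℕ) : ℝ) := by
          rw [h6]
        push_cast [Nat.cast_sub h7] at h8
        push_cast
        linarith
      push_cast at h5
      linarith
    rw [← h4, Finset.sum_mul]
    refine Finset.sum_congr rfl fun r _ => ?_
    ring
  rw [hsum]
  have h4 : (κ * X - L) * (κ * X - 2 * L) ≤ (R * L) * (R * L - L) := by
    have h5 : 0 ≤ κ * X - 2 * L := by linarith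
    exact mul_le_mul hRL2 (by linarith) h5 (by linarith)
  have h5 : (R * ((R : ℝ) - 1) / 2) * ((L : ℝ) ^ 2 / X) = (R * L) * (R * L - L) / (2 * X) := by
    field_simp
  rw [h5]
  have h6 : κ ^ 2 * X / 2 - 3 / 2 * L ≤ (R * L) * (R * L - L) / (2 * X) := by
    rw [le_div_iff₀ (by positivity)]
    have h7 : (κ ^ 2 * X / 2 - 3 / 2 * L) * (2 * X) ≤ (κ * X - L) * (κ * X - 2 * L) := by
      have h8 : (κ * X - L) * (κ * X - 2 * L) = κ ^ 2 * X ^ 2 - 3 * κ * L * X + 2 * L ^ 2 := by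
        ring
      rw [h8]
      have h9 : 3 * κ * L * X ≤ 3 * 1 * L * X := by
        have : 0 ≤ L * X := by positivity
        nlinarith
      nlinarith
    linarith
  have h7 := mul_le_mul_of_nonneg_left h6 (by linarith : (0 : ℝ) ≤ 1 - ν)
  have h8 : (1 - ν) * κ ^ 2 / 2 * X - 3 * L ≤ (1 - ν) * (κ ^ 2 * X / 2 - 3 / 2 * L) := by
    have : (1 - ν) * (3 / 2 * L) ≤ 3 * L := by nlinarith
    linarith
  exact h8.trans h7

/-- lower bound for `gam` -/
theorem gam_ge' {c : ℝ} (hc : 0 < c) {ν : ℝ} (hν0 : 0 < ν) (hν1 : ν ≤ 1) :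
    ∃ A : ℝ, 0 < A ∧ ∀ᶠ i : ℕ in atTop, ∀ K : ℕ, i ≤ K → A * XX c i ≤ ((K - i : ℕ) : ℝ) →
      (1 - ν / 2) * XX c i ≤ gam (weight c) K i := by
  obtain ⟨A, hA0, hA⟩ : ∃ A : ℝ, 0 < A ∧ Real.exp (-A) ≤ ν / 4 := by
    have h1 := Real.tendsto_exp_neg_atTop_nhds_zero.eventually_lt_const
      (show (0 : ℝ) < ν / 4 by positivity)
    obtain ⟨A, hA⟩ := (h1.and (eventually_gt_atTop 0)).exists
    exact ⟨A, hA.2, hA.1.le⟩
  refine ⟨A, hA0, ?_⟩
  have h3 : ∀ᶠ i : ℕ in atTop, max 1 (4 / ν) ≤ XX c i := (XX_tendsto hc).eventually_ge_atTop _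
  filter_upwards [h3] with i hX K hiK hK
  have hX1 : 1 ≤ XX c i := (le_max_left _ _).trans hX
  have hX2 : 4 / ν ≤ XX c i := (le_max_right _ _).trans hX
  have hX0 : 0 < XX c i := XX_pos hc i
  set X : ℝ := XX c i with hXdef
  have hwi : 0 < weight c i := weight_pos c i
  set q : ℝ := Real.exp (-(1 / X)) with hq
  have hq0 : 0 < q := Real.exp_pos _
  have hq1 : q < 1 := by
    rw [hq, Real.exp_lt_one_iff]
    have : 0 < 1 / X := one_div_pos.2 hX0
    linarith
  obtain ⟨J, rfl⟩ := Nat.exists_eq_add_of_le hiK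
  have hJ : A * X ≤ (J : ℝ) := by simpa using hK
  -- comparison with the geometric sum
  have h4 : ∑ j ∈ Finset.range J, q ^ (j + 1) ≤ gam (weight c) (i + J) i := by
    have h5 : ∑ j ∈ Finset.Ioc i (i + J), 1 / weight c j
        = ∑ j ∈ Finset.range J, 1 / weight c (i + 1 + j) := by
      have h50 : Finset.Ioc i (i + J) = Finset.Ico (i + 1) (i + J + 1) := by
        ext a
        simp only [Finset.mem_Ioc, Finset.mem_Ico]
        omega
      rw [h50, Finset.sum_Ico_eq_sum_range]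
      congr 2
      omega
    rw [gam, h5, Finset.mul_sum]
    refine Finset.sum_le_sum fun j _ => ?_
    have h6 := weight_add_le hc i (j + 1)
    have h7 : i + 1 + j = i + (j + 1) := by ring
    rw [h7, mul_one_div, le_div_iff₀ (weight_pos c _)]
    have h8 : q ^ (j + 1) = Real.exp (-(((j + 1 : ℕ) : ℝ) / X)) := by
      rw [hq, ← Real.exp_nat_mul]; congr 1; ring
    rw [h8]
    calc Real.exp (-(((j + 1 : ℕ) : ℝ) / X)) * weight c (i + (j + 1))
        ≤ Real.exp (-(((j + 1 : ℕ) : ℝ) / X)) * (weight c i *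
          Real.exp (((j + 1 : ℕ) : ℝ) / X)) := mul_le_mul_of_nonneg_left h6 (Real.exp_pos _).le
      _ = weight c i * (Real.exp (-(((j + 1 : ℕ) : ℝ) / X)) *
          Real.exp (((j + 1 : ℕ) : ℝ) / X)) := by ring
      _ = weight c i := by rw [← Real.exp_add]; simp
  refine le_trans ?_ h4
  have h5 : ∑ j ∈ Finset.range J, q ^ (j + 1) = q * ((1 - q ^ J) / (1 - q)) := by
    simp only [pow_succ']
    rw [← Finset.mul_sum, geom_sum_eq hq1.ne]
    have : q - 1 ≠ 0 := by linarith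
    have : 1 - q ≠ 0 := by linarith
    congr 1
    rw [div_eq_div_iff (by assumption) (by assumption)]; ring
  rw [h5]
  have h6 : q ^ J ≤ ν / 4 := by
    have h7 : q ^ J = Real.exp (-((J : ℝ) / X)) := by
      rw [hq, ← Real.exp_nat_mul]; congr 1; ring
    rw [h7]
    refine le_trans (Real.exp_le_exp.2 ?_) hA
    rw [neg_le_neg_iff, le_div_iff₀ hX0]; exact hJ
  -- q / (1 - q) ≥ X (1 - 1/X)
  have h7 : X - 1 ≤ q / (1 - q) := by
    rw [le_div_iff₀ (by linarith)]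
    -- (X - 1)(1 - q) ≤ q iff X - 1 ≤ q X iff 1 - 1/X ≤ q
    have h8 : 1 - 1 / X ≤ q := by
      have := Real.add_one_le_exp (-(1 / X))
      rw [hq]; linarith
    have h9 : (1 - 1 / X) * X = X - 1 := by field_simp
    nlinarith
  have h8 : 1 ≤ ν * X / 4 := by
    rw [div_le_iff₀ hν0] at hX2; linarith
  calc (1 - ν / 2) * X ≤ (X - 1) * (1 - ν / 4) := by nlinarith
    _ ≤ q / (1 - q) * (1 - q ^ J) := by
        refine mul_le_mul h7 (by linarith) (by linarith) ?_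
        exact div_nonneg hq0.le (by linarith)
    _ = q * ((1 - q ^ J) / (1 - q)) := by ring

/-- condition (†) -/
theorem up_dagger {c : ℝ} (hc : 0 < c) {ν : ℝ} (hν0 : 0 < ν) (hν1 : ν ≤ 1 / 20) :
    ∃ A L : ℝ, 0 < A ∧ 0 < L ∧ ∀ᶠ i : ℕ in atTop, ∀ (K : ℕ) (θ : ℝ), i < K → 0 ≤ θ → θ ≤ 1 →
      A * XX c i ≤ ((K - i : ℕ) : ℝ) →
      1 ≤ (1 - θ) * Real.exp ((1 - ν) * (1 - 7 * ν) ^ 2 / 2 * XX c (i + 1) - 3 * L) →
      ∀ s, 0 ≤ s → weight c i * ∫ u in (0 : ℝ)..s, h (weight c) θ K i u *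
        min 1 (EE (weight c) K ν (i + 1) u) ≤ Real.exp (-ν) := by
  obtain ⟨L, ρ, hL, hρ0, hρ1, h1⟩ := up_growth hc hν0 hν1
  obtain ⟨A, hA0, h2⟩ := gam_ge' hc hν0 (by linarith)
  have he : 0 < Real.exp 1 := Real.exp_pos 1
  refine ⟨A, L, hA0, hL, ?_⟩
  have h1' : ∀ᶠ i : ℕ in atTop, ∀ (K : ℕ) (θ : ℝ), 0 ≤ θ → θ ≤ 1 → min ρ ((1 - θ) *
      Real.exp ((1 - ν) * (1 - 7 * ν) ^ 2 / 2 * XX c (i + 1) - 3 * L))
        ≤ p (weight c) θ K (i + 1) ((1 - 5 * ν) / Real.exp 1 *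
          (XX c (i + 1) / weight c (i + 1))) := (tendsto_add_atTop_nat 1).eventually h1
  have h3 : ∀ᶠ i : ℕ in atTop, Real.exp (-(ρ * (ν / Real.exp 1 * XX c i)))
      ≤ ρ * Real.exp (-ν) / 2 := by
    have h4 : Tendsto (fun i : ℕ => Real.exp (-(ρ * (ν / Real.exp 1 * XX c i)))) atTop (𝓝 0) := by
      refine Real.tendsto_exp_neg_atTop_nhds_zero.comp ?_
      exact Tendsto.const_mul_atTop hρ0 (Tendsto.const_mul_atTop (by positivity) (XX_tendsto hc))
    exact (h4.eventually_lt_const (by positivity)).mono fun i hi => hi.le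
  have h4 : ∀ᶠ i : ℕ in atTop, 2 / ν ≤ XX c i := (XX_tendsto hc).eventually_ge_atTop _
  filter_upwards [h1', h2, h3, h4, thr_anti' hc] with i hi1 hi2 hi3 hi4 hthr K θ hiK hθ0 hθ1 hAK hδ s hs
  have hX0 : 0 < XX c i := XX_pos hc i
  have hwi : 0 < weight c i := weight_pos c i
  have hg := hi2 K hiK.le hAK
  have hp := hi1 K θ hθ0 hθ1
  rw [min_eq_left (hρ1.trans hδ)] at hp
  refine dagger (weight_pos c) (weight_mono hc) hθ0 hθ1 hiK (ν := ν) (ρ := ρ)
    (u'' := (1 - 4 * ν) / Real.exp 1 * (XX c i / weight c i))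
    (u' := (1 - 3 * ν) / Real.exp 1 * (XX c i / weight c i)) hν0.le ?_ ?_ hρ0 ?_ ?_ ?_ ?_ hs
  · have : 0 ≤ 1 - 4 * ν := by linarith
    positivity
  · refine mul_le_mul_of_nonneg_right (div_le_div_of_nonneg_right (by linarith) he.le)
      (by positivity)
  · refine hp.trans (p_mono (weight_pos c) hθ0 hθ1 ?_ ?_)
    · have : 0 ≤ 1 - 5 * ν := by linarith
      have h5 := XX_pos hc (i + 1)
      have h6 := weight_pos c (i + 1)
      positivity
    · refine mul_le_mul (div_le_div_of_nonneg_right (by linarith) he.le) hthr ?_ ?_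
      · exact div_nonneg (XX_pos hc _).le (weight_pos c _).le
      · have : 0 ≤ 1 - 4 * ν := by linarith
        positivity
  · have h5 : Real.exp 1 * weight c i * ((1 - 3 * ν) / Real.exp 1 * (XX c i / weight c i))
        = (1 - 3 * ν) * XX c i := by field_simp
    rw [h5]
    have h6 := mul_le_mul_of_nonneg_left hg (by linarith : (0 : ℝ) ≤ 1 - 2 * ν)
    refine le_trans ?_ h6
    rw [← mul_assoc]
    refine mul_le_mul_of_nonneg_right ?_ hX0.le
    nlinarith
  · have h5 : 1 ≤ ν * gam (weight c) K i := by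
      have h6 : XX c i / 2 ≤ gam (weight c) K i := by nlinarith
      have h7 : 2 ≤ ν * XX c i := by
        rw [div_le_iff₀ hν0] at hi4; linarith
      nlinarith
    refine (Real.exp_le_exp.2 (neg_le_neg h5)).trans ?_
    rw [Real.exp_neg]
    have := Real.exp_one_gt_d9
    rw [inv_le_comm₀ he (by norm_num)]
    norm_num
    linarith
  · refine le_trans (le_of_eq ?_) hi3
    congr 1
    have h5 : (1 - 3 * ν) / Real.exp 1 * (XX c i / weight c i)
        - (1 - 4 * ν) / Real.exp 1 * (XX c i / weight c i)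
        = ν / Real.exp 1 * (XX c i / weight c i) := by ring
    rw [h5]; field_simp

end Pool.Agent.H420.DW
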