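import Pool.Agent.H420.DW.Up1

set_option autoImplicit false

open Filter Topology MeasureTheory intervalIntegral

/-!
# The upper bound for the depth, final form
-/

namespace Pool.Agent.H420.DW

lemma exists_nu {μ : ℝ} (hμ1 : μ < 1 / 2) :
    ∃ ν : ℝ, 0 < ν ∧ ν ≤ 1 / 20 ∧ μ < (1 - ν) * (1 - 7 * ν) ^ 2 / 2 := by
  have h1 : Tendsto (fun ν : ℝ => (1 - ν) * (1 - 7 * ν) ^ 2 / 2) (𝓝[>] 0) (𝓝 (1 / 2)) := by
    have h2 : Continuous (fun ν : ℝ => (1 - ν) * (1 - 7 * ν) ^ 2 / 2) := by fun_prop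
    have h3 := h2.tendsto 0
    simp only [sub_zero, mul_zero, one_pow, mul_one] at h3
    exact h3.mono_left nhdsWithin_le_nhds
  have h4 := h1.eventually_const_lt hμ1
  have h5 : ∀ᶠ ν : ℝ in 𝓝[>] 0, ν ∈ Set.Ioc (0 : ℝ) (1 / 20) :=
    Ioc_mem_nhdsGT (by norm_num)
  obtain ⟨ν, hν1, hν2⟩ := (h4.and h5).exists
  exact ⟨ν, hν2.1, hν2.2, hν1⟩

open Classical in
/-- **Upper bound for the depth, final form.** -/
theorem upper_main {c : ℝ} (hc : 0 < c) {μ : ℝ} (hμ0 : 0 < μ) (hμ1 : μ < 1 / 2) :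
    ∃ ν : ℝ, 0 < ν ∧ ∀ᶠ K : ℕ in atTop, ∀ n : ℕ,
      EV (weight c) ({s | K ≤ height s}.indicator 1) n []
        ≤ Real.exp (2 * n * Real.exp (-(μ * XX c K)) + μ * XX c K - ν * K) := by
  obtain ⟨ν, hν0, hν1, hμν⟩ := exists_nu hμ1
  obtain ⟨A, L, hA0, hL0, hd⟩ := up_dagger hc hν0 hν1
  set κ : ℝ := (1 - ν) * (1 - 7 * ν) ^ 2 / 2 with hκ
  have hκ0 : 0 < κ := hμ0.trans hμν
  refine ⟨ν / 4, by positivity, ?_⟩
  obtain ⟨N, hN⟩ := eventually_atTop.1 hd
  -- eventual facts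
  have e1 : ∀ᶠ K : ℕ in atTop, 4 * N + 4 ≤ K := eventually_ge_atTop _
  have e2 : ∀ᶠ K : ℕ in atTop, A * XX c K ≤ (K : ℝ) / 4 := by
    have h1 : ∀ᶠ i : ℕ in atTop, Real.log ((i : ℝ) + 2) / ((i : ℝ) + 2) ≤ c / (8 * A) :=
      (log_div_tendsto.eventually_lt_const (by positivity)).mono fun i hi => hi.le
    filter_upwards [h1, eventually_ge_atTop 2] with K hK hK2
    rw [div_le_iff₀ (by positivity)] at hK
    have hK2' : (2 : ℝ) ≤ K := by exact_mod_cast hK2
    calc A * XX c K = A / c * Real.log ((K : ℝ) + 2) := by rw [XX]; ring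
      _ ≤ A / c * (c / (8 * A) * ((K : ℝ) + 2)) := mul_le_mul_of_nonneg_left hK (by positivity)
      _ = ((K : ℝ) + 2) / 8 := by field_simp
      _ ≤ (K : ℝ) / 4 := by linarith
  have e3 : ∀ᶠ K : ℕ in atTop, (κ * (Real.log 4 / c) + 3 * L) / (κ - μ) ≤ XX c K :=
    (XX_tendsto hc).eventually_ge_atTop _
  have e4 : ∀ᶠ K : ℕ in atTop, Real.log 2 / μ ≤ XX c K := (XX_tendsto hc).eventually_ge_atTop _
  filter_upwards [e1, e2, e3, e4] with K h1 h2 h3 h4 n
  have hK0 : 0 < K := by omega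
  set δ : ℝ := Real.exp (-(μ * XX c K)) with hδ
  have hδ0 : 0 < δ := Real.exp_pos _
  have hδ1 : δ ≤ 1 / 2 := by
    rw [div_le_iff₀ hμ0] at h4
    have h5 : δ ≤ Real.exp (-Real.log 2) := Real.exp_le_exp.2 (by linarith)
    rw [Real.exp_neg, Real.exp_log (by norm_num)] at h5
    linarith
  have hw := weight_pos c
  have hθ0 : 0 < 1 - δ := by linarith
  have hθ1 : 1 - δ < 1 := by linarith
  have hdag : ∀ i, K / 4 ≤ i → i < K / 4 + K / 2 → ∀ s, 0 ≤ s →
      weight c i * ∫ u in (0 : ℝ)..s, h (weight c) (1 - δ) K i u *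
        min 1 (EE (weight c) K ν (i + 1) u) ≤ Real.exp (-ν) := by
    intro i hi1 hi2
    refine hN i (by omega) K (1 - δ) (by omega) hθ0.le hθ1.le ?_ ?_
    · have h5 : A * XX c i ≤ A * XX c K := mul_le_mul_of_nonneg_left (XX_mono hc (by omega)) hA0.le
      refine h5.trans (h2.trans ?_)
      have h6 : K ≤ 4 * (K - i) := by omega
      have h7 : (K : ℝ) ≤ 4 * ((K - i : ℕ) : ℝ) := by exact_mod_cast h6
      linarith
    · rw [sub_sub_cancel, hδ, ← Real.exp_add]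
      refine Real.one_le_exp ?_
      rw [div_le_iff₀ (by linarith)] at h3
      have h5 : XX c K - Real.log 4 / c ≤ XX c (i + 1) := by
        rw [XX, XX, ← sub_div]
        refine div_le_div_of_nonneg_right ?_ hc.le
        rw [← Real.log_div (by positivity) (by norm_num)]
        refine Real.log_le_log (by positivity) ?_
        have h6 : K + 2 ≤ 4 * (i + 1 + 2) := by omega
        have h7 : ((K : ℝ) + 2) ≤ 4 * (((i + 1 : ℕ) : ℝ) + 2) := by exact_mod_cast h6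
        linarith
      have h6 := mul_le_mul_of_nonneg_left h5 hκ0.le
      nlinarith
  -- the supermartingale bound
  have hup : (1 - δ) ^ n * EV (weight c) ({s | K ≤ height s}.indicator 1) n []
      ≤ Real.exp (-(ν * ((K / 4 + K / 2 - K / 4 : ℕ) : ℝ))) / (1 - (1 - δ)) := by
    have hlim : Tendsto (fun S : ℝ => Real.exp (-(ν * ((K / 4 + K / 2 - K / 4 : ℕ) : ℝ))) /
        (1 - (1 - δ)) + Real.exp (-(weight c 0 * δ * S))) atTop
        (𝓝 (Real.exp (-(ν * ((K / 4 + K / 2 - K / 4 : ℕ) : ℝ))) / (1 - (1 - δ)) + 0)) := by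
      refine tendsto_const_nhds.add ?_
      refine Real.tendsto_exp_neg_atTop_nhds_zero.comp ?_
      exact Tendsto.const_mul_atTop (mul_pos (hw 0) hδ0) tendsto_id
    rw [add_zero] at hlim
    refine ge_of_tendsto hlim ?_
    filter_upwards [eventually_ge_atTop (0 : ℝ)] with S hS
    refine (upper_prob hw hθ0 hθ1.le hK0 hS n).trans (add_le_add ?_ ?_)
    · exact G_zero_le hw (weight_mono hc) hθ0.le hθ1 (by omega) (by omega) hν0.le hdag hS
    · have h5 := h_tail (K := K) hw hθ0.le hθ1.le hK0 le_rfl hS (ρ := δ) hδ0.le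
        (by have := p_ge_delta (K := K) (i := 0 + 1) hw hθ0.le hθ1.le (le_refl (0 : ℝ)); linarith)
      rwa [sub_zero] at h5
  rw [sub_sub_cancel] at hup
  have hpow : Real.exp (-(2 * n * δ)) ≤ (1 - δ) ^ n := by
    have h5 := exp_neg_le_quad (y := 2 * δ) (by positivity)
    have h6 : Real.exp (-(2 * δ)) ≤ 1 - δ := by nlinarith
    calc Real.exp (-(2 * n * δ)) = Real.exp (-(2 * δ)) ^ n := by
          rw [← Real.exp_nat_mul]; congr 1; ring
      _ ≤ (1 - δ) ^ n := pow_le_pow_left₀ (Real.exp_pos _).le h6 n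
  have hEV0 : 0 ≤ EV (weight c) ({s | K ≤ height s}.indicator 1) n [] :=
    EV_nonneg hw (fun t => Set.indicator_nonneg (fun _ _ => zero_le_one) t) n []
  have hfin : Real.exp (-(ν * ((K / 4 + K / 2 - K / 4 : ℕ) : ℝ))) / δ
      ≤ Real.exp (μ * XX c K - ν / 4 * K) := by
    rw [hδ, ← Real.exp_sub, Real.exp_le_exp]
    have h6 : K ≤ 4 * (K / 4 + K / 2 - K / 4) := by omega
    have h7 : (K : ℝ) ≤ 4 * ((K / 4 + K / 2 - K / 4 : ℕ) : ℝ) := by exact_mod_cast h6
    nlinarith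
  calc EV (weight c) ({s | K ≤ height s}.indicator 1) n []
      = Real.exp (2 * n * δ) * (Real.exp (-(2 * n * δ)) *
          EV (weight c) ({s | K ≤ height s}.indicator 1) n []) := by
        rw [← mul_assoc, ← Real.exp_add]; simp
    _ ≤ Real.exp (2 * n * δ) * ((1 - δ) ^ n *
          EV (weight c) ({s | K ≤ height s}.indicator 1) n []) :=
        mul_le_mul_of_nonneg_left (mul_le_mul_of_nonneg_right hpow hEV0) (Real.exp_pos _).le
    _ ≤ Real.exp (2 * n * δ) * Real.exp (μ * XX c K - ν / 4 * K) :=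
        mul_le_mul_of_nonneg_left (hup.trans hfin) (Real.exp_pos _).le
    _ = Real.exp (2 * n * δ + μ * XX c K - ν / 4 * K) := by
        rw [← Real.exp_add]; congr 1; ring

end Pool.Agent.H420.DW
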